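import Mathlib

set_option autoImplicit false

/-!
# Dirichlet polynomials: phases and the mean value theorem
-/

namespace Pool.Agent.TH705.DL

open Finset MeasureTheory

/-- `n^{it}` -/
noncomputable def ph (t : ℝ) (n : ℕ) : ℂ :=
  Complex.exp (Complex.I * (t : ℂ) * (Real.log (n : ℝ) : ℂ))

theorem ph_eq (t : ℝ) (n : ℕ) : ph t n = Complex.exp (((t * Real.log n : ℝ) : ℂ) * Complex.I) := by
  unfold ph
  congr 1
  push_cast
  ring

theorem ph_norm (t : ℝ) (n : ℕ) : ‖ph t n‖ = 1 := by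
  rw [ph_eq, Complex.norm_exp_ofReal_mul_I]

theorem ph_conj (t : ℝ) (n : ℕ) : (starRingEnd ℂ) (ph t n) = ph (-t) n := by
  rw [ph_eq, ph_eq, ← Complex.exp_conj, map_mul, Complex.conj_I, Complex.conj_ofReal]
  congr 1
  push_cast
  ring

theorem ph_add (s t : ℝ) (n : ℕ) : ph (s + t) n = ph s n * ph t n := by
  unfold ph
  rw [← Complex.exp_add]
  congr 1
  push_cast
  ring

theorem ph_sub (s t : ℝ) (n : ℕ) : ph s n * (starRingEnd ℂ) (ph t n) = ph (s - t) n := by
  rw [ph_conj, ← ph_add, sub_eq_add_neg]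

theorem ph_hasDeriv (t : ℝ) (n : ℕ) :
    HasDerivAt (fun t : ℝ => ph t n) (Complex.I * (Real.log n : ℂ) * ph t n) t := by
  have h1 : HasDerivAt (fun t : ℝ => (Complex.I * (t : ℂ) * (Real.log (n : ℝ) : ℂ)))
      (Complex.I * (Real.log n : ℂ)) t := by
    have := ((Complex.ofRealCLM.hasDerivAt (x := t)).const_mul Complex.I).mul_const
      (Real.log (n : ℝ) : ℂ)
    simpa using this
  have h2 := h1.cexp
  unfold ph
  convert h2 using 1
  ring

theorem ph_cont (n : ℕ) : Continuous (fun t : ℝ => ph t n) := by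
  unfold ph
  fun_prop

/-- the polynomial -/
noncomputable def DP (N : ℕ) (a : ℕ → ℂ) (t : ℝ) : ℂ := ∑ n ∈ Icc 1 N, a n * ph t n

theorem DP_cont (N : ℕ) (a : ℕ → ℂ) : Continuous (DP N a) := by
  unfold DP
  have := ph_cont
  fun_prop

theorem DP_hasDeriv (N : ℕ) (a : ℕ → ℂ) (t : ℝ) :
    HasDerivAt (DP N a) (DP N (fun n => Complex.I * (Real.log n : ℂ) * a n) t) t := by
  unfold DP
  have h : HasDerivAt (fun t : ℝ => ∑ n ∈ Icc 1 N, a n * ph t n)
      (∑ n ∈ Icc 1 N, a n * (Complex.I * (Real.log n : ℂ) * ph t n)) t := by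
    apply HasDerivAt.fun_sum
    intro n _
    exact (ph_hasDeriv t n).const_mul (a n)
  convert h using 1
  apply Finset.sum_congr rfl
  intro n _
  ring

/-- the oscillating integral -/
theorem osc (c α β : ℝ) (hc : c ≠ 0) :
    ‖∫ x in α..β, Complex.exp (((x * c : ℝ) : ℂ) * Complex.I)‖ ≤ 2 / |c| := by
  have hcI : (c : ℂ) * Complex.I ≠ 0 := mul_ne_zero (by exact_mod_cast hc) Complex.I_ne_zero
  have h := integral_exp_mul_complex (a := α) (b := β) hcI
  have h2 : ∀ x : ℝ, Complex.exp (((x * c : ℝ) : ℂ) * Complex.I) =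
      Complex.exp ((c : ℂ) * Complex.I * x) := by
    intro x
    congr 1
    push_cast
    ring
  simp only [h2]
  rw [h, norm_div, norm_mul, Complex.norm_I, mul_one, Complex.norm_real, Real.norm_eq_abs]
  apply div_le_div_of_nonneg_right _ (abs_nonneg c)
  refine (norm_sub_le _ _).trans ?_
  have e : ∀ x : ℝ, ‖Complex.exp ((c : ℂ) * Complex.I * x)‖ = 1 := by
    intro x
    rw [← h2, Complex.norm_exp_ofReal_mul_I]
  rw [e, e]
  norm_num

theorem log_gap {N n m : ℕ} (hn : n ∈ Icc 1 N) (hm : m ∈ Icc 1 N) (hnm : n ≠ m) :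
    |(n : ℝ) - m| / N ≤ |Real.log n - Real.log m| := by
  wlog h : m < n generalizing n m
  · have := this hm hn (Ne.symm hnm) (lt_of_le_of_ne (not_lt.1 h) hnm)
    rw [abs_sub_comm, abs_sub_comm (Real.log n)]
    exact this
  rw [mem_Icc] at hn hm
  have hm0 : (0:ℝ) < m := by exact_mod_cast (by omega : 0 < m)
  have hn0 : (0:ℝ) < n := by exact_mod_cast (by omega : 0 < n)
  have hN0 : (0:ℝ) < N := by exact_mod_cast (by omega : 0 < N)
  have hnN : (n:ℝ) ≤ N := by exact_mod_cast hn.2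
  have hlt : (m:ℝ) < n := by exact_mod_cast h
  have h1 := Real.one_sub_inv_le_log_of_pos (div_pos hn0 hm0)
  rw [Real.log_div hn0.ne' hm0.ne', inv_div] at h1
  have h2 : ((n:ℝ) - m) / N ≤ 1 - m / n := by
    rw [div_le_iff₀ hN0]
    have : (1 - (m:ℝ) / n) * N = ((n:ℝ) - m) * (N / n) := by field_simp
    rw [this]
    have h3 : 1 ≤ (N:ℝ) / n := by rw [le_div_iff₀ hn0]; linarith
    nlinarith
  rw [abs_of_pos (by linarith : (0:ℝ) < (n:ℝ) - m)]
  exact (h2.trans h1).trans (le_abs_self _)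

theorem harm (N n : ℕ) (hn : n ∈ Icc 1 N) :
    ∑ m ∈ (Icc 1 N).erase n, (1 : ℝ) / |(n : ℝ) - m| ≤ 2 * (1 + Real.log N) := by
  rw [mem_Icc] at hn
  have h1 : (Icc 1 N).erase n = Ico 1 n ∪ Ioc n N := by
    ext m
    simp only [mem_erase, mem_Icc, mem_union, mem_Ico, mem_Ioc]
    omega
  have hd : Disjoint (Ico 1 n) (Ioc n N) := by
    rw [Finset.disjoint_left]
    intro x hx hy
    rw [mem_Ico] at hx
    rw [mem_Ioc] at hy
    omega
  rw [h1, sum_union hd]
  have key : ∀ k : ℕ, k ≤ N → ∑ j ∈ Icc 1 k, (1:ℝ) / j ≤ 1 + Real.log N := by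
    intro k hk
    have h2 : ∑ j ∈ Icc 1 k, (1:ℝ) / j ≤ ∑ j ∈ Icc 1 N, (1:ℝ) / j := by
      apply sum_le_sum_of_subset_of_nonneg
      · intro x hx
        rw [mem_Icc] at hx ⊢
        omega
      · intro i _ _
        positivity
    refine h2.trans ?_
    have h3 := harmonic_le_one_add_log N
    rw [harmonic_eq_sum_Icc] at h3
    push_cast at h3
    simpa [one_div] using h3
  have hA : ∑ m ∈ Ico 1 n, (1 : ℝ) / |(n : ℝ) - m| ≤ 1 + Real.log N := by
    refine le_trans (le_of_eq ?_) (key (n - 1) (by omega))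
    refine sum_bij' (fun m _ => n - m) (fun j _ => n - j) ?_ ?_ ?_ ?_ ?_
    · intro m hm; rw [mem_Ico] at hm; rw [mem_Icc]; omega
    · intro m hm; rw [mem_Icc] at hm; rw [mem_Ico]; omega
    · intro m hm; rw [mem_Ico] at hm; omega
    · intro m hm; rw [mem_Icc] at hm; omega
    · intro m hm
      rw [mem_Ico] at hm
      rw [Nat.cast_sub hm.2.le, abs_of_pos]
      have : (m:ℝ) < n := by exact_mod_cast hm.2
      linarith
  have hB : ∑ m ∈ Ioc n N, (1 : ℝ) / |(n : ℝ) - m| ≤ 1 + Real.log N := by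
    refine le_trans (le_of_eq ?_) (key (N - n) (by omega))
    refine sum_bij' (fun m _ => m - n) (fun j _ => n + j) ?_ ?_ ?_ ?_ ?_
    · intro m hm; rw [mem_Ioc] at hm; rw [mem_Icc]; omega
    · intro m hm; rw [mem_Icc] at hm; rw [mem_Ioc]; omega
    · intro m hm; rw [mem_Ioc] at hm; omega
    · intro m hm; rw [mem_Icc] at hm; omega
    · intro m hm
      rw [mem_Ioc] at hm
      rw [Nat.cast_sub hm.1.le, abs_of_neg]
      · ring_nf
      have : (n:ℝ) < m := by exact_mod_cast hm.1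
      linarith
  linarith

/-- **mean value theorem** -/
theorem mean_value (N : ℕ) (hN : 1 ≤ N) (a : ℕ → ℂ) (x y : ℝ) (hxy : x ≤ y) :
    ∫ t in x..y, ‖DP N a t‖ ^ 2 ≤
      ((y - x) + 4 * N * (1 + Real.log N)) * ∑ n ∈ Icc 1 N, ‖a n‖ ^ 2 := by
  have hN1 : (1:ℝ) ≤ N := by exact_mod_cast hN
  have hN0 : (0:ℝ) < N := by linarith
  have hexp : ∀ t : ℝ, ((‖DP N a t‖ ^ 2 : ℝ) : ℂ) = ∑ n ∈ Icc 1 N, ∑ m ∈ Icc 1 N,
      (a n * (starRingEnd ℂ) (a m)) *
        Complex.exp (((t * (Real.log n - Real.log m) : ℝ) : ℂ) * Complex.I) := by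
    intro t
    rw [Complex.ofReal_pow, ← Complex.mul_conj', DP, map_sum, Finset.sum_mul_sum]
    apply sum_congr rfl
    intro n _
    apply sum_congr rfl
    intro m _
    rw [map_mul, ph_conj, ph_eq, ph_eq]
    have : Complex.exp (((t * (Real.log n - Real.log m) : ℝ) : ℂ) * Complex.I) =
        Complex.exp (((t * Real.log n : ℝ) : ℂ) * Complex.I) *
        Complex.exp (((-t * Real.log m : ℝ) : ℂ) * Complex.I) := by
      rw [← Complex.exp_add]
      congr 1
      push_cast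
      ring
    rw [this]
    ring
  set κ : ℕ → ℕ → ℝ := fun n m => if n = m then (y - x) else 2 * N / |(n:ℝ) - m| with hκ
  have hκsymm : ∀ n m, κ n m = κ m n := by
    intro n m
    simp only [hκ]
    by_cases h : n = m
    · rw [if_pos h, if_pos h.symm]
    · rw [if_neg h, if_neg (Ne.symm h), abs_sub_comm]
  have hκ0 : ∀ n m, 0 ≤ κ n m := by
    intro n m
    simp only [hκ]
    split_ifs
    · linarith
    · positivity
  have hint : ((∫ t in x..y, ‖DP N a t‖ ^ 2 : ℝ) : ℂ) = ∑ n ∈ Icc 1 N, ∑ m ∈ Icc 1 N,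
      (a n * (starRingEnd ℂ) (a m)) *
        ∫ t in x..y, Complex.exp (((t * (Real.log n - Real.log m) : ℝ) : ℂ) * Complex.I) := by
    rw [← intervalIntegral.integral_ofReal]
    simp only [hexp]
    rw [intervalIntegral.integral_finsetSum]
    · apply sum_congr rfl
      intro n _
      rw [intervalIntegral.integral_finsetSum]
      · apply sum_congr rfl
        intro m _
        rw [intervalIntegral.integral_const_mul]
      · intro m _
        apply Continuous.intervalIntegrable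
        fun_prop
    · intro n _
      apply Continuous.intervalIntegrable
      fun_prop
  have hκb : ∀ n ∈ Icc 1 N, ∀ m ∈ Icc 1 N,
      ‖∫ t in x..y, Complex.exp (((t * (Real.log n - Real.log m) : ℝ) : ℂ) * Complex.I)‖
        ≤ κ n m := by
    intro n hn m hm
    simp only [hκ]
    split_ifs with h
    · refine (intervalIntegral.norm_integral_le_of_norm_le_const (C := 1) ?_).trans ?_
      · intro t _
        rw [Complex.norm_exp_ofReal_mul_I]
      · rw [one_mul, abs_of_nonneg (by linarith)]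
    · have hg := log_gap hn hm h
      have hnm : (0:ℝ) < |(n:ℝ) - m| := by
        rw [abs_pos, sub_ne_zero]
        exact_mod_cast h
      have hpos : 0 < |Real.log n - Real.log m| := lt_of_lt_of_le (by positivity) hg
      refine (osc _ x y (abs_pos.1 hpos)).trans ?_
      rw [div_le_div_iff₀ hpos hnm]
      rw [div_le_iff₀ hN0] at hg
      nlinarith
  have hrow : ∀ n ∈ Icc 1 N, ∑ m ∈ Icc 1 N, κ n m ≤ (y - x) + 4 * N * (1 + Real.log N) := by
    intro n hn
    rw [← Finset.add_sum_erase _ _ hn]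
    have h1 : κ n n = y - x := by simp [hκ]
    rw [h1]
    have h2 : ∑ m ∈ (Icc 1 N).erase n, κ n m = 2 * N * ∑ m ∈ (Icc 1 N).erase n,
        (1:ℝ) / |(n:ℝ) - m| := by
      rw [mul_sum]
      apply sum_congr rfl
      intro m hm
      simp only [hκ]
      rw [if_neg (Ne.symm (ne_of_mem_erase hm))]
      ring
    rw [h2]
    have h3 := harm N n hn
    nlinarith
  have hle : ∫ t in x..y, ‖DP N a t‖ ^ 2 ≤ ∑ n ∈ Icc 1 N, ∑ m ∈ Icc 1 N,
      (‖a n‖ ^ 2 + ‖a m‖ ^ 2) / 2 * κ n m := by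
    have h1 : ∫ t in x..y, ‖DP N a t‖ ^ 2 ≤ ‖((∫ t in x..y, ‖DP N a t‖ ^ 2 : ℝ) : ℂ)‖ := by
      rw [Complex.norm_real]
      exact le_abs_self _
    refine h1.trans ?_
    rw [hint]
    refine (norm_sum_le _ _).trans (sum_le_sum fun n hn => ?_)
    refine (norm_sum_le _ _).trans (sum_le_sum fun m hm => ?_)
    rw [norm_mul, norm_mul, RCLike.norm_conj]
    have h2 := hκb n hn m hm
    have h3 : ‖a n‖ * ‖a m‖ ≤ (‖a n‖ ^ 2 + ‖a m‖ ^ 2) / 2 := by
      nlinarith [sq_nonneg (‖a n‖ - ‖a m‖)]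
    exact mul_le_mul h3 h2 (norm_nonneg _) (by positivity)
  refine hle.trans ?_
  have hsplit : ∑ n ∈ Icc 1 N, ∑ m ∈ Icc 1 N, (‖a n‖ ^ 2 + ‖a m‖ ^ 2) / 2 * κ n m =
      ∑ n ∈ Icc 1 N, ‖a n‖ ^ 2 * ∑ m ∈ Icc 1 N, κ n m := by
    have e1 : ∀ n m, (‖a n‖ ^ 2 + ‖a m‖ ^ 2) / 2 * κ n m =
        ‖a n‖ ^ 2 * κ n m / 2 + ‖a m‖ ^ 2 * κ n m / 2 := by
      intro n m; ring
    simp only [e1, sum_add_distrib]
    have e2 : ∑ n ∈ Icc 1 N, ∑ m ∈ Icc 1 N, ‖a m‖ ^ 2 * κ n m / 2 =
        ∑ n ∈ Icc 1 N, ∑ m ∈ Icc 1 N, ‖a n‖ ^ 2 * κ n m / 2 := by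
      rw [sum_comm]
      apply sum_congr rfl
      intro n _
      apply sum_congr rfl
      intro m _
      rw [hκsymm]
    rw [e2, ← sum_add_distrib]
    apply sum_congr rfl
    intro n _
    rw [← sum_add_distrib, mul_sum]
    apply sum_congr rfl
    intro m _
    ring
  rw [hsplit, mul_sum]
  apply sum_le_sum
  intro n hn
  rw [mul_comm]
  exact mul_le_mul_of_nonneg_right (hrow n hn) (by positivity)

end Pool.Agent.TH705.DL
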