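import Mathlib
import Pool.Agent.W170.MV.Pars
import Pool.Agent.TH705.DL.Core

set_option autoImplicit false

/-!
# Well-spaced points in one block, and duality
-/

namespace Pool.Agent.TH705.DL

open Finset MeasureTheory

/-- `1`-separated set -/
def Sep (S : Finset ℝ) : Prop := ∀ t ∈ S, ∀ u ∈ S, t ≠ u → 1 ≤ |t - u|

theorem sum_unit_le {F : ℝ → ℝ} (hF : Continuous F) (hF0 : ∀ x, 0 ≤ F x) (S : Finset ℝ)
    (hS : Sep S) (x y : ℝ) (hxy : x ≤ y) (hx : ∀ t ∈ S, x ≤ t ∧ t ≤ y) :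
    ∑ t ∈ S, ∫ u in t..(t + 1), F u ≤ ∫ u in x..(y + 1), F u := by
  have hd : Set.PairwiseDisjoint (S : Set ℝ) (fun t => Set.Ioc t (t + 1)) := by
    intro t ht u hu htu
    have h := hS t ht u hu htu
    rw [Function.onFun, Set.disjoint_left]
    intro z hz hz'
    rw [Set.mem_Ioc] at hz hz'
    rcases le_abs.1 h with h1 | h1
    · linarith [hz.1, hz'.2]
    · linarith [hz.2, hz'.1]
  have h1 : ∑ t ∈ S, ∫ u in t..(t + 1), F u = ∫ u in ⋃ t ∈ S, Set.Ioc t (t + 1), F u := by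
    rw [integral_biUnion_finset]
    · apply sum_congr rfl
      intro t _
      rw [intervalIntegral.integral_of_le (by linarith)]
    · intro t _
      exact measurableSet_Ioc
    · exact hd
    · intro t _
      exact (hF.integrableOn_Icc (a := t) (b := t + 1)).mono_set Set.Ioc_subset_Icc_self
  rw [h1, intervalIntegral.integral_of_le (by linarith)]
  apply setIntegral_mono_set
  · exact (hF.integrableOn_Icc (a := x) (b := y + 1)).mono_set Set.Ioc_subset_Icc_self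
  · exact Filter.Eventually.of_forall hF0
  · apply HasSubset.Subset.eventuallyLE
    intro z hz
    simp only [Set.mem_iUnion, Set.mem_Ioc] at hz ⊢
    obtain ⟨t, ht, h2, h3⟩ := hz
    have := hx t ht
    constructor <;> linarith

/-- one block -/
theorem block (N : ℕ) (hN : 1 ≤ N) (a : ℕ → ℂ) (S : Finset ℝ) (hS : Sep S) (x y : ℝ)
    (hxy : x ≤ y) (hx : ∀ t ∈ S, x ≤ t ∧ t ≤ y) :
    ∑ t ∈ S, ‖DP N a t‖ ^ 2 ≤ (2 + Real.log N ^ 2) * ((y + 1 - x) + 4 * N * (1 + Real.log N)) *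
      ∑ n ∈ Icc 1 N, ‖a n‖ ^ 2 := by
  have hN1 : (1:ℝ) ≤ N := by exact_mod_cast hN
  have hL : 0 ≤ Real.log N := Real.log_nonneg hN1
  set a' : ℕ → ℂ := fun n => Complex.I * (Real.log n : ℂ) * a n with ha'
  have hc := DP_cont N a
  have hc' := DP_cont N a'
  have h1 : ∑ t ∈ S, ‖DP N a t‖ ^ 2 ≤
      ∑ t ∈ S, ∫ u in t..(t + 1), (2 * ‖DP N a u‖ ^ 2 + ‖DP N a' u‖ ^ 2) := by
    apply sum_le_sum
    intro t _
    exact Pool.Agent.W170.MV.gall (DP_hasDeriv N a) hc hc' t t le_rfl (by linarith)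
  refine h1.trans ((sum_unit_le (by fun_prop) (fun _ => by positivity) S hS x y hxy hx).trans ?_)
  rw [intervalIntegral.integral_add (by apply Continuous.intervalIntegrable; fun_prop)
    (by apply Continuous.intervalIntegrable; fun_prop), intervalIntegral.integral_const_mul]
  have h2 := mean_value N hN a x (y + 1) (by linarith)
  have h3 := mean_value N hN a' x (y + 1) (by linarith)
  have h4 : ∑ n ∈ Icc 1 N, ‖a' n‖ ^ 2 ≤ Real.log N ^ 2 * ∑ n ∈ Icc 1 N, ‖a n‖ ^ 2 := by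
    rw [mul_sum]
    apply sum_le_sum
    intro n hn
    rw [mem_Icc] at hn
    have hn1 : (1:ℝ) ≤ n := by exact_mod_cast hn.1
    have hl0 : 0 ≤ Real.log n := Real.log_nonneg hn1
    have hl : Real.log n ≤ Real.log N := Real.log_le_log (by linarith) (by exact_mod_cast hn.2)
    simp only [ha', norm_mul, Complex.norm_I, one_mul, Complex.norm_real, Real.norm_eq_abs,
      abs_of_nonneg hl0]
    rw [mul_pow]
    exact mul_le_mul_of_nonneg_right (pow_le_pow_left₀ hl0 hl 2) (by positivity)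
  set K := (y + 1 - x) + 4 * N * (1 + Real.log N) with hK
  have hK0 : 0 ≤ K := by
    rw [hK]
    have : 0 ≤ 4 * N * (1 + Real.log N) := by positivity
    linarith
  have h5 : K * ∑ n ∈ Icc 1 N, ‖a' n‖ ^ 2 ≤ K * (Real.log N ^ 2 * ∑ n ∈ Icc 1 N, ‖a n‖ ^ 2) :=
    mul_le_mul_of_nonneg_left h4 hK0
  calc 2 * (∫ u in x..(y + 1), ‖DP N a u‖ ^ 2) + ∫ u in x..(y + 1), ‖DP N a' u‖ ^ 2
      ≤ 2 * (K * ∑ n ∈ Icc 1 N, ‖a n‖ ^ 2) +
        K * (Real.log N ^ 2 * ∑ n ∈ Icc 1 N, ‖a n‖ ^ 2) := by linarith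
    _ = _ := by ring

/-- duality -/
theorem dual {N : ℕ} {ι : Type*} {S : Finset ι} {τ : ι → ℝ} {K : ℝ} (hK : 0 ≤ K)
    (h : ∀ a : ℕ → ℂ, ∑ t ∈ S, ‖DP N a (τ t)‖ ^ 2 ≤ K * ∑ n ∈ Icc 1 N, ‖a n‖ ^ 2) (c : ι → ℂ) :
    ∑ n ∈ Icc 1 N, ‖∑ t ∈ S, c t * ph (τ t) n‖ ^ 2 ≤ K * ∑ t ∈ S, ‖c t‖ ^ 2 := by
  set C : ℕ → ℂ := fun n => ∑ t ∈ S, c t * ph (τ t) n with hC
  set Q := ∑ n ∈ Icc 1 N, ‖C n‖ ^ 2 with hQ
  have hQ0 : 0 ≤ Q := sum_nonneg fun _ _ => by positivity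
  have h1 : (Q : ℂ) = ∑ t ∈ S, c t * DP N (fun n => (starRingEnd ℂ) (C n)) (τ t) := by
    rw [hQ]
    push_cast
    have : ∀ n, ((‖C n‖ : ℂ)) ^ 2 = (starRingEnd ℂ) (C n) * ∑ t ∈ S, c t * ph (τ t) n := by
      intro n
      rw [← Complex.conj_mul']
    simp only [this, mul_sum, DP]
    rw [sum_comm]
    apply sum_congr rfl
    intro t _
    apply sum_congr rfl
    intro n _
    ring
  have h2 : Q ≤ ∑ t ∈ S, ‖c t‖ * ‖DP N (fun n => (starRingEnd ℂ) (C n)) (τ t)‖ := by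
    have : Q ≤ ‖(Q : ℂ)‖ := by
      rw [Complex.norm_real]
      exact le_abs_self _
    refine this.trans ?_
    rw [h1]
    refine (norm_sum_le _ _).trans (le_of_eq ?_)
    apply sum_congr rfl
    intro t _
    rw [norm_mul]
  have h3 := sum_mul_sq_le_sq_mul_sq S (fun t => ‖c t‖)
    (fun t => ‖DP N (fun n => (starRingEnd ℂ) (C n)) (τ t)‖)
  have h4 := h (fun n => (starRingEnd ℂ) (C n))
  simp only [RCLike.norm_conj] at h4
  have hc0 : 0 ≤ ∑ t ∈ S, ‖c t‖ ^ 2 := sum_nonneg fun _ _ => by positivity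
  have h5 : Q ^ 2 ≤ (∑ t ∈ S, ‖c t‖ ^ 2) * (K * Q) := by
    refine (pow_le_pow_left₀ hQ0 h2 2).trans (h3.trans ?_)
    exact mul_le_mul_of_nonneg_left h4 hc0
  rcases hQ0.eq_or_lt with h6 | h6
  · rw [← h6]; positivity
  · nlinarith

/-- the constant of one block of length `N`, dilated by at most `2` -/
noncomputable def KB (N : ℕ) : ℝ :=
  (2 + Real.log N ^ 2) * ((2 * N + 1) + 4 * N * (1 + Real.log N))

theorem block_dil (N : ℕ) (hN : 1 ≤ N) (a : ℕ → ℂ) (S : Finset ℝ) (hS : Sep S) (x : ℝ)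
    (hx : ∀ t ∈ S, x ≤ t ∧ t ≤ x + N) (l : ℝ) (hl : 1 ≤ l) (hl2 : l ≤ 2) :
    ∑ t ∈ S, ‖DP N a (l * t)‖ ^ 2 ≤ KB N * ∑ n ∈ Icc 1 N, ‖a n‖ ^ 2 := by
  classical
  have hN1 : (1:ℝ) ≤ N := by exact_mod_cast hN
  have hinj : Set.InjOn (fun t : ℝ => l * t) (S : Set ℝ) := by
    intro t _ u _ h
    exact mul_left_cancel₀ (by linarith : l ≠ 0) h
  have h1 : ∑ t ∈ S, ‖DP N a (l * t)‖ ^ 2 = ∑ t ∈ S.image (fun t => l * t), ‖DP N a t‖ ^ 2 := by
    rw [sum_image hinj]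
  rw [h1]
  have hsep : Sep (S.image (fun t => l * t)) := by
    intro t ht u hu htu
    rw [mem_image] at ht hu
    obtain ⟨t, ht, rfl⟩ := ht
    obtain ⟨u, hu, rfl⟩ := hu
    have h := hS t ht u hu (fun e => htu (by rw [e]))
    rw [← mul_sub, abs_mul, abs_of_nonneg (by linarith)]
    nlinarith
  refine (block N hN a _ hsep (l * x) (l * x + 2 * N) (by linarith) ?_).trans ?_
  · intro t ht
    rw [mem_image] at ht
    obtain ⟨t, ht, rfl⟩ := ht
    have := hx t ht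
    constructor <;> nlinarith
  · apply mul_le_mul_of_nonneg_right _ (sum_nonneg fun _ _ => by positivity)
    unfold KB
    apply mul_le_mul_of_nonneg_left _ (by positivity)
    linarith

end Pool.Agent.TH705.DL
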