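import Mathlib
import Pool.Agent.TH705.DL.Block

set_option autoImplicit false

/-!
# Far pairs, and the combination
-/

namespace Pool.Agent.TH705.DL

open Finset MeasureTheory

/-- the sum over all `n` -/
noncomputable def G (N : ℕ) (t : ℝ) : ℂ := DP N (fun _ => 1) t

theorem G_cont (N : ℕ) : Continuous (G N) := DP_cont N _

theorem far_mean (N : ℕ) (hN : 1 ≤ N) (d : ℝ) (hd : (N : ℝ) ≤ |d|) :
    ∫ l in (1:ℝ)..2, ‖G N (l * d)‖ ^ 2 ≤ 5 * N * (1 + Real.log N) := by
  have hN1 : (1:ℝ) ≤ N := by exact_mod_cast hN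
  have hL : 0 ≤ Real.log N := Real.log_nonneg hN1
  have hd0 : 0 < |d| := by linarith
  have hne : d ≠ 0 := abs_pos.1 hd0
  have h1 := intervalIntegral.integral_comp_mul_right (a := 1) (b := 2)
    (fun t => ‖G N t‖ ^ 2) hne
  rw [h1]
  have hs : ∑ n ∈ Icc 1 N, ‖((fun _ => 1 : ℕ → ℂ)) n‖ ^ 2 = (N : ℝ) := by simp
  have h2 : d⁻¹ • ∫ x in (1 * d)..(2 * d), ‖G N x‖ ^ 2 ≤
      |d|⁻¹ * ((|d| + 4 * N * (1 + Real.log N)) * N) := by
    rcases le_total 0 d with h | h
    · have h3 := mean_value N hN (fun _ => 1) (1 * d) (2 * d) (by linarith)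
      rw [hs] at h3
      rw [abs_of_nonneg h, smul_eq_mul]
      apply mul_le_mul_of_nonneg_left _ (by positivity)
      refine h3.trans (le_of_eq ?_)
      ring
    · have h3 := mean_value N hN (fun _ => 1) (2 * d) (1 * d) (by linarith)
      rw [hs] at h3
      rw [abs_of_nonpos h, smul_eq_mul, intervalIntegral.integral_symm]
      have e : d⁻¹ * -(∫ x in (2 * d)..(1 * d), ‖G N x‖ ^ 2) =
          (-d)⁻¹ * ∫ x in (2 * d)..(1 * d), ‖G N x‖ ^ 2 := by
        rw [inv_neg]
        ring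
      rw [e]
      have h4 : 0 ≤ (-d)⁻¹ := inv_nonneg.2 (by linarith)
      apply mul_le_mul_of_nonneg_left _ h4
      refine h3.trans (le_of_eq ?_)
      ring
  refine h2.trans ?_
  rw [inv_mul_le_iff₀ hd0]
  have h5 : 4 * (N:ℝ) * (1 + Real.log N) * N ≤ |d| * (4 * N * (1 + Real.log N)) := by
    have : 0 ≤ 4 * (N:ℝ) * (1 + Real.log N) := by positivity
    nlinarith
  have h6 : |d| * (N:ℝ) ≤ |d| * (N * (1 + Real.log N)) := by
    apply mul_le_mul_of_nonneg_left _ hd0.le
    nlinarith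
  nlinarith

/-- the block of a point -/
noncomputable def key (N : ℕ) (t : ℝ) : ℤ := ⌊t / N⌋

theorem key_mem {N : ℕ} (hN : 1 ≤ N) (t : ℝ) :
    (key N t : ℝ) * N ≤ t ∧ t < (key N t : ℝ) * N + N := by
  have hN1 : (1:ℝ) ≤ N := by exact_mod_cast hN
  have hN0 : (0:ℝ) < N := by linarith
  have h1 := Int.floor_le (t / N)
  have h2 := Int.lt_floor_add_one (t / N)
  rw [le_div_iff₀ hN0] at h1
  rw [div_lt_iff₀ hN0] at h2
  unfold key
  constructor
  · exact h1
  · linarith

/-- the far part of the Gram matrix -/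
noncomputable def farS (N : ℕ) (S : Finset ℝ) (l : ℝ) : ℝ :=
  ∑ t ∈ S, ∑ u ∈ S.filter (fun u => key N t ≠ key N u), ‖G N (l * (t - u))‖ ^ 2

theorem combine (N : ℕ) (hN : 1 ≤ N) (S : Finset ℝ) (hS : Sep S) (l : ℝ) (hl : 1 ≤ l)
    (hl2 : l ≤ 2) (a : ℕ → ℂ) :
    ∑ t ∈ S, ‖DP N a (l * t)‖ ^ 2 ≤ (KB N + Real.sqrt (farS N S l)) *
      ∑ n ∈ Icc 1 N, ‖a n‖ ^ 2 := by
  classical
  have hN1 : (1:ℝ) ≤ N := by exact_mod_cast hN
  have hL : 0 ≤ Real.log N := Real.log_nonneg hN1
  have hKB : 0 ≤ KB N := by unfold KB; positivity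
  set A := ∑ n ∈ Icc 1 N, ‖a n‖ ^ 2 with hA
  set c : ℝ → ℂ := fun t => (starRingEnd ℂ) (DP N a (l * t)) with hc
  set Q := ∑ t ∈ S, ‖DP N a (l * t)‖ ^ 2 with hQ
  have hQc : Q = ∑ t ∈ S, ‖c t‖ ^ 2 := by
    rw [hQ]
    apply sum_congr rfl
    intro t _
    rw [hc, RCLike.norm_conj]
  have hQ0 : 0 ≤ Q := sum_nonneg fun _ _ => by positivity
  have hA0 : 0 ≤ A := sum_nonneg fun _ _ => by positivity
  set C : ℕ → ℂ := fun n => ∑ t ∈ S, c t * ph (l * t) n with hC
  -- Cauchy-Schwarz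
  have h1 : Q ^ 2 ≤ A * ∑ n ∈ Icc 1 N, ‖C n‖ ^ 2 := by
    have e : (Q : ℂ) = ∑ n ∈ Icc 1 N, a n * C n := by
      rw [hQ]
      push_cast
      have : ∀ t, ((‖DP N a (l * t)‖ : ℂ)) ^ 2 = c t * DP N a (l * t) := by
        intro t
        rw [hc, ← Complex.conj_mul']
      rw [sum_congr rfl (fun t _ => this t)]
      simp only [hC, DP, mul_sum]
      rw [sum_comm]
      apply sum_congr rfl
      intro t _
      apply sum_congr rfl
      intro n _
      ring
    have h2 : Q ≤ ∑ n ∈ Icc 1 N, ‖a n‖ * ‖C n‖ := by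
      have : Q ≤ ‖(Q : ℂ)‖ := by
        rw [Complex.norm_real]
        exact le_abs_self _
      refine this.trans ?_
      rw [e]
      refine (norm_sum_le _ _).trans (le_of_eq ?_)
      apply sum_congr rfl
      intro t _
      rw [norm_mul]
    exact (pow_le_pow_left₀ hQ0 h2 2).trans
      (sum_mul_sq_le_sq_mul_sq (Icc 1 N) (fun n => ‖a n‖) (fun n => ‖C n‖))
  -- the Gram expansion
  have hexp : ((∑ n ∈ Icc 1 N, ‖C n‖ ^ 2 : ℝ) : ℂ) =
      ∑ t ∈ S, ∑ u ∈ S, c t * (starRingEnd ℂ) (c u) * G N (l * (t - u)) := by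
    push_cast
    have : ∀ n, ((‖C n‖ : ℂ)) ^ 2 = ∑ t ∈ S, ∑ u ∈ S,
        c t * (starRingEnd ℂ) (c u) * ph (l * (t - u)) n := by
      intro n
      rw [← Complex.mul_conj', hC, map_sum, sum_mul_sum]
      apply sum_congr rfl
      intro t _
      apply sum_congr rfl
      intro u _
      rw [map_mul, mul_sub, ← ph_sub]
      ring
    simp only [this]
    rw [sum_comm]
    apply sum_congr rfl
    intro t _
    rw [sum_comm]
    apply sum_congr rfl
    intro u _
    rw [G, DP, mul_sum]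
    apply sum_congr rfl
    intro n _
    ring
  -- near part
  have hnear : ‖∑ t ∈ S, ∑ u ∈ S.filter (fun u => key N t = key N u),
      c t * (starRingEnd ℂ) (c u) * G N (l * (t - u))‖ ≤ KB N * Q := by
    have e1 : ∑ t ∈ S, ∑ u ∈ S.filter (fun u => key N t = key N u),
        c t * (starRingEnd ℂ) (c u) * G N (l * (t - u)) =
        ∑ k ∈ S.image (key N), ((∑ n ∈ Icc 1 N,
          ‖∑ t ∈ S.filter (fun t => key N t = k), c t * ph (l * t) n‖ ^ 2 : ℝ) : ℂ) := by
      have e2 : ∀ k, ((∑ n ∈ Icc 1 N,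
          ‖∑ t ∈ S.filter (fun t => key N t = k), c t * ph (l * t) n‖ ^ 2 : ℝ) : ℂ) =
          ∑ t ∈ S.filter (fun t => key N t = k), ∑ u ∈ S.filter (fun t => key N t = k),
            c t * (starRingEnd ℂ) (c u) * G N (l * (t - u)) := by
        intro k
        push_cast
        have : ∀ n, ((‖∑ t ∈ S.filter (fun t => key N t = k), c t * ph (l * t) n‖ : ℂ)) ^ 2 =
            ∑ t ∈ S.filter (fun t => key N t = k), ∑ u ∈ S.filter (fun t => key N t = k),
            c t * (starRingEnd ℂ) (c u) * ph (l * (t - u)) n := by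
          intro n
          rw [← Complex.mul_conj', map_sum, sum_mul_sum]
          apply sum_congr rfl
          intro t _
          apply sum_congr rfl
          intro u _
          rw [map_mul, mul_sub, ← ph_sub]
          ring
        simp only [this]
        rw [sum_comm]
        apply sum_congr rfl
        intro t _
        rw [sum_comm]
        apply sum_congr rfl
        intro u _
        rw [G, DP, mul_sum]
        apply sum_congr rfl
        intro n _
        ring
      simp only [e2]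
      rw [← sum_fiberwise_of_maps_to (g := key N) (t := S.image (key N))
        (fun t ht => mem_image_of_mem _ ht)]
      apply sum_congr rfl
      intro k _
      apply sum_congr rfl
      intro t ht
      rw [(mem_filter.1 ht).2]
      apply sum_congr _ (fun _ _ => rfl)
      ext u
      simp only [mem_filter, and_congr_right_iff]
      intro _
      exact eq_comm
    rw [e1]
    refine (norm_sum_le _ _).trans ?_
    have e3 : Q = ∑ k ∈ S.image (key N), ∑ t ∈ S.filter (fun t => key N t = k), ‖c t‖ ^ 2 := by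
      rw [hQc, sum_fiberwise_of_maps_to (fun t ht => mem_image_of_mem _ ht)]
    rw [e3, mul_sum]
    apply sum_le_sum
    intro k _
    rw [Complex.norm_real, Real.norm_eq_abs, abs_of_nonneg (sum_nonneg fun _ _ => by positivity)]
    apply dual hKB
    intro a'
    apply block_dil N hN a' _ _ ((k : ℝ) * N) _ l hl hl2
    · intro t ht u hu htu
      exact hS t (mem_filter.1 ht).1 u (mem_filter.1 hu).1 htu
    · intro t ht
      have h := key_mem hN t
      rw [(mem_filter.1 ht).2] at h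
      exact ⟨h.1, h.2.le⟩
  -- far part
  have hfar : ‖∑ t ∈ S, ∑ u ∈ S.filter (fun u => key N t ≠ key N u),
      c t * (starRingEnd ℂ) (c u) * G N (l * (t - u))‖ ≤ Real.sqrt (farS N S l) * Q := by
    have h2 : ‖∑ t ∈ S, ∑ u ∈ S.filter (fun u => key N t ≠ key N u),
        c t * (starRingEnd ℂ) (c u) * G N (l * (t - u))‖ ≤
        ∑ p ∈ S.sigma (fun t => S.filter (fun u => key N t ≠ key N u)),
          (‖c p.1‖ * ‖c p.2‖) * ‖G N (l * (p.1 - p.2))‖ := by
      rw [sum_sigma]
      refine (norm_sum_le _ _).trans (sum_le_sum fun t _ => ?_)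
      refine (norm_sum_le _ _).trans (sum_le_sum fun u _ => ?_)
      have e4 : ‖(starRingEnd ℂ) (c u)‖ = ‖c u‖ := RCLike.norm_conj _
      rw [norm_mul, norm_mul, e4]
    refine h2.trans ?_
    have h3 := sum_mul_sq_le_sq_mul_sq (S.sigma (fun t => S.filter (fun u => key N t ≠ key N u)))
      (fun p => ‖c p.1‖ * ‖c p.2‖) (fun p => ‖G N (l * (p.1 - p.2))‖)
    have h4 : ∑ p ∈ S.sigma (fun t => S.filter (fun u => key N t ≠ key N u)),
        ‖G N (l * (p.1 - p.2))‖ ^ 2 = farS N S l := by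
      rw [sum_sigma]
      rfl
    have h5 : ∑ p ∈ S.sigma (fun t => S.filter (fun u => key N t ≠ key N u)),
        (‖c p.1‖ * ‖c p.2‖) ^ 2 ≤ Q ^ 2 := by
      rw [sum_sigma, hQc, sq, sum_mul_sum]
      apply sum_le_sum
      intro t _
      refine (sum_le_sum_of_subset_of_nonneg (filter_subset _ _)
        (fun _ _ _ => by positivity)).trans (le_of_eq ?_)
      apply sum_congr rfl
      intro u _
      ring
    rw [h4] at h3
    have hf0 : 0 ≤ farS N S l := by
      unfold farS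
      exact sum_nonneg fun _ _ => sum_nonneg fun _ _ => by positivity
    apply le_of_sq_le_sq _ (by positivity)
    rw [mul_pow, Real.sq_sqrt hf0]
    refine h3.trans ?_
    rw [mul_comm]
    exact mul_le_mul_of_nonneg_left h5 hf0
  have hsum : ∑ n ∈ Icc 1 N, ‖C n‖ ^ 2 ≤ (KB N + Real.sqrt (farS N S l)) * Q := by
    have h6 : ∑ n ∈ Icc 1 N, ‖C n‖ ^ 2 ≤ ‖((∑ n ∈ Icc 1 N, ‖C n‖ ^ 2 : ℝ) : ℂ)‖ := by
      rw [Complex.norm_real]
      exact le_abs_self _
    refine h6.trans ?_
    rw [hexp]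
    have h7 : ∑ t ∈ S, ∑ u ∈ S, c t * (starRingEnd ℂ) (c u) * G N (l * (t - u)) =
        ∑ t ∈ S, ∑ u ∈ S.filter (fun u => key N t = key N u),
          c t * (starRingEnd ℂ) (c u) * G N (l * (t - u)) +
        ∑ t ∈ S, ∑ u ∈ S.filter (fun u => key N t ≠ key N u),
          c t * (starRingEnd ℂ) (c u) * G N (l * (t - u)) := by
      rw [← sum_add_distrib]
      apply sum_congr rfl
      intro t _
      rw [sum_filter_add_sum_filter_not]
    rw [h7]
    refine (norm_add_le _ _).trans ?_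
    linarith
  have h8 : Q ^ 2 ≤ A * ((KB N + Real.sqrt (farS N S l)) * Q) :=
    h1.trans (mul_le_mul_of_nonneg_left hsum hA0)
  rcases hQ0.eq_or_lt with h9 | h9
  · rw [← h9]; positivity
  · nlinarith

end Pool.Agent.TH705.DL
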