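import Mathlib
import Pool.Agent.TH705.DL.Far

set_option autoImplicit false

/-!
# Generic dilates
-/

namespace Pool.Agent.TH705.DL

open Finset MeasureTheory

/-- the sum over all far pairs -/
noncomputable def farA (N : ℕ) (S : Finset ℝ) (l : ℝ) : ℝ :=
  ∑ t ∈ S, ∑ u ∈ S.filter (fun u => (N : ℝ) ≤ |t - u|), ‖G N (l * (t - u))‖ ^ 2

theorem farA_cont (N : ℕ) (S : Finset ℝ) : Continuous (farA N S) := by
  unfold farA
  have := G_cont N
  fun_prop

theorem farA_nonneg (N : ℕ) (S : Finset ℝ) (l : ℝ) : 0 ≤ farA N S l :=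
  sum_nonneg fun _ _ => sum_nonneg fun _ _ => by positivity

theorem farA_int (N : ℕ) (hN : 1 ≤ N) (S : Finset ℝ) :
    ∫ l in (1:ℝ)..2, farA N S l ≤ 5 * N * (1 + Real.log N) * (S.card : ℝ) ^ 2 := by
  have hN1 : (1:ℝ) ≤ N := by exact_mod_cast hN
  have hL : 0 ≤ Real.log N := Real.log_nonneg hN1
  have hG := G_cont N
  unfold farA
  rw [intervalIntegral.integral_finsetSum]
  · have h1 : ∀ t ∈ S, ∫ l in (1:ℝ)..2, ∑ u ∈ S.filter (fun u => (N : ℝ) ≤ |t - u|),
        ‖G N (l * (t - u))‖ ^ 2 ≤ 5 * N * (1 + Real.log N) * (S.card : ℝ) := by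
      intro t _
      rw [intervalIntegral.integral_finsetSum]
      · have h2 : ∑ u ∈ S.filter (fun u => (N : ℝ) ≤ |t - u|),
            ∫ l in (1:ℝ)..2, ‖G N (l * (t - u))‖ ^ 2 ≤
            ∑ u ∈ S.filter (fun u => (N : ℝ) ≤ |t - u|), 5 * N * (1 + Real.log N) := by
          apply sum_le_sum
          intro u hu
          exact far_mean N hN _ (mem_filter.1 hu).2
        refine h2.trans ?_
        rw [sum_const, nsmul_eq_mul, mul_comm]
        apply mul_le_mul_of_nonneg_left _ (by positivity)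
        exact_mod_cast card_filter_le _ _
      · intro u _
        apply Continuous.intervalIntegrable
        fun_prop
    refine (sum_le_sum h1).trans (le_of_eq ?_)
    rw [sum_const, nsmul_eq_mul]
    ring
  · intro t _
    apply Continuous.intervalIntegrable
    fun_prop

theorem far_of_key {N : ℕ} (hN : 1 ≤ N) {t u : ℝ} (h : key N t ≠ key N u)
    (hpar : (key N t) % 2 = (key N u) % 2) : (N : ℝ) ≤ |t - u| := by
  have h1 := key_mem hN t
  have h2 := key_mem hN u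
  have hN0 : (0:ℝ) ≤ N := Nat.cast_nonneg N
  rcases lt_or_gt_of_ne h with h3 | h3
  · have h4 : key N t + 2 ≤ key N u := by omega
    have h5 : (key N t : ℝ) + 2 ≤ key N u := by exact_mod_cast h4
    rw [abs_sub_comm, le_abs]
    left
    nlinarith
  · have h4 : key N u + 2 ≤ key N t := by omega
    have h5 : (key N u : ℝ) + 2 ≤ key N t := by exact_mod_cast h4
    rw [le_abs]
    left
    nlinarith

theorem farS_le {N : ℕ} (hN : 1 ≤ N) (S : Finset ℝ) (r : ℤ) (l : ℝ) :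
    farS N (S.filter (fun t => key N t % 2 = r)) l ≤ farA N S l := by
  unfold farS farA
  rw [sum_filter]
  apply sum_le_sum
  intro t _
  split_ifs with h
  · apply sum_le_sum_of_subset_of_nonneg
    · intro u hu
      rw [mem_filter, mem_filter] at hu
      rw [mem_filter]
      exact ⟨hu.1.1, far_of_key hN hu.2 (by rw [h, hu.1.2])⟩
    · intro _ _ _
      positivity
  · exact sum_nonneg fun _ _ => by positivity

theorem markov {f : ℝ → ℝ} (hf : Continuous f) (hf0 : ∀ x, 0 ≤ f x) {B M : ℝ} (hM : 0 < M)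
    (hB : ∫ l in (1:ℝ)..2, f l ≤ B) :
    volume {l : ℝ | l ∈ Set.Icc (1:ℝ) 2 ∧ M < f l} ≤ ENNReal.ofReal (B / M) := by
  have h1 : ENNReal.ofReal M * volume.restrict (Set.Icc (1:ℝ) 2) {l | ENNReal.ofReal M ≤
      ENNReal.ofReal (f l)} ≤ ∫⁻ l in Set.Icc (1:ℝ) 2, ENNReal.ofReal (f l) := by
    apply mul_meas_ge_le_lintegral
    exact hf.measurable.ennreal_ofReal
  have h2 : ∫⁻ l in Set.Icc (1:ℝ) 2, ENNReal.ofReal (f l) ≤ ENNReal.ofReal B := by
    rw [← ofReal_integral_eq_lintegral_ofReal]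
    · apply ENNReal.ofReal_le_ofReal
      rw [integral_Icc_eq_integral_Ioc, ← intervalIntegral.integral_of_le (by norm_num)]
      exact hB
    · exact hf.integrableOn_Icc
    · exact Filter.Eventually.of_forall hf0
  have h3 : volume {l : ℝ | l ∈ Set.Icc (1:ℝ) 2 ∧ M < f l} ≤
      volume.restrict (Set.Icc (1:ℝ) 2) {l | ENNReal.ofReal M ≤ ENNReal.ofReal (f l)} := by
    rw [Measure.restrict_apply' measurableSet_Icc]
    apply measure_mono
    intro l hl
    exact ⟨ENNReal.ofReal_le_ofReal hl.2.le, hl.1⟩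
  rw [ENNReal.ofReal_div_of_pos hM, ENNReal.le_div_iff_mul_le
    (Or.inl (by rw [Ne, ENNReal.ofReal_eq_zero, not_le]; exact hM)) (Or.inl ENNReal.ofReal_ne_top)]
  rw [mul_comm]
  exact (mul_le_mul' le_rfl h3).trans (h1.trans h2)

theorem KB_le {N : ℕ} (hN : 1 ≤ N) : KB N ≤ 14 * (1 + Real.log N) ^ 3 * N := by
  have hN1 : (1:ℝ) ≤ N := by exact_mod_cast hN
  have hL : 0 ≤ Real.log N := Real.log_nonneg hN1
  unfold KB
  set L := Real.log N
  have h1 : 2 + L ^ 2 ≤ 2 * (1 + L) ^ 2 := by nlinarith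
  have h2 : (2 * (N:ℝ) + 1) + 4 * N * (1 + L) ≤ 7 * N * (1 + L) := by nlinarith
  calc (2 + L ^ 2) * ((2 * (N:ℝ) + 1) + 4 * N * (1 + L))
      ≤ (2 * (1 + L) ^ 2) * (7 * N * (1 + L)) := by
        apply mul_le_mul h1 h2 (by positivity) (by positivity)
    _ = _ := by ring

/-- **generic dilates** -/
theorem generic (N : ℕ) (hN : 1 ≤ N) (S : Finset ℝ) (hS : Sep S) (η : ℝ) (hη : 0 < η) :
    ∃ E : Set ℝ, MeasurableSet E ∧ E ⊆ Set.Icc 1 2 ∧ volume E ≤ ENNReal.ofReal η ∧
      ∀ l ∈ Set.Icc (1:ℝ) 2, l ∉ E → ∀ a : ℕ → ℂ,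
        ∑ t ∈ S, ‖DP N a (l * t)‖ ^ 2 ≤
          28 * (1 + Real.log N) ^ 3 * (N + S.card * Real.sqrt (N / η)) *
            ∑ n ∈ Icc 1 N, ‖a n‖ ^ 2 := by
  classical
  have hN1 : (1:ℝ) ≤ N := by exact_mod_cast hN
  have hL : 0 ≤ Real.log N := Real.log_nonneg hN1
  set L := Real.log N with hLdef
  rcases S.eq_empty_or_nonempty with hemp | hne
  · refine ⟨∅, MeasurableSet.empty, Set.empty_subset _, by simp, ?_⟩
    intro l _ _ a
    rw [hemp]
    simp only [sum_empty]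
    have : 0 ≤ ∑ n ∈ Icc 1 N, ‖a n‖ ^ 2 := sum_nonneg fun _ _ => by positivity
    positivity
  have hc : (0:ℝ) < S.card := by exact_mod_cast hne.card_pos
  set B := 5 * N * (1 + L) * (S.card : ℝ) ^ 2 with hB
  have hB0 : 0 < B := by positivity
  set M := B / η with hM
  have hM0 : 0 < M := by positivity
  refine ⟨{l : ℝ | l ∈ Set.Icc (1:ℝ) 2 ∧ M < farA N S l}, ?_, fun l hl => hl.1, ?_, ?_⟩
  · exact measurableSet_Icc.inter (measurableSet_lt measurable_const (farA_cont N S).measurable)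
  · refine (markov (farA_cont N S) (farA_nonneg N S) hM0 (farA_int N hN S)).trans ?_
    apply ENNReal.ofReal_le_ofReal
    rw [hM, ← hB]
    rw [div_div_eq_mul_div, mul_div_assoc, mul_div_cancel₀]
    exact hB0.ne'
  · intro l hl hlE a
    have hf : farA N S l ≤ M := by
      by_contra h
      exact hlE ⟨hl, not_le.1 h⟩
    have hA0 : 0 ≤ ∑ n ∈ Icc 1 N, ‖a n‖ ^ 2 := sum_nonneg fun _ _ => by positivity
    have hcl : ∀ r : ℤ, ∑ t ∈ S.filter (fun t => key N t % 2 = r), ‖DP N a (l * t)‖ ^ 2 ≤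
        (KB N + Real.sqrt M) * ∑ n ∈ Icc 1 N, ‖a n‖ ^ 2 := by
      intro r
      refine (combine N hN _ (fun t ht u hu => hS t (mem_filter.1 ht).1 u (mem_filter.1 hu).1)
        l hl.1 hl.2 a).trans ?_
      apply mul_le_mul_of_nonneg_right _ hA0
      gcongr
      exact (farS_le hN S r l).trans hf
    have hsplit : ∑ t ∈ S, ‖DP N a (l * t)‖ ^ 2 =
        ∑ t ∈ S.filter (fun t => key N t % 2 = 0), ‖DP N a (l * t)‖ ^ 2 +
        ∑ t ∈ S.filter (fun t => key N t % 2 = 1), ‖DP N a (l * t)‖ ^ 2 := by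
      rw [← sum_filter_add_sum_filter_not S (fun t => key N t % 2 = 0)]
      congr 1
      apply sum_congr _ (fun _ _ => rfl)
      ext t
      simp only [mem_filter, and_congr_right_iff]
      intro _
      omega
    have hsq : Real.sqrt M ≤ 3 * (1 + L) ^ 3 * (S.card * Real.sqrt (N / η)) := by
      rw [Real.sqrt_le_left (by positivity), mul_pow, mul_pow, mul_pow, Real.sq_sqrt (by positivity)]
      rw [hM, hB]
      have h1 : (1 + L) ≤ ((1 + L) ^ 3) ^ 2 := by
        have : 1 ≤ 1 + L := by linarith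
        calc (1 + L) = (1 + L) ^ 1 := (pow_one _).symm
          _ ≤ (1 + L) ^ 6 := pow_le_pow_right₀ this (by norm_num)
          _ = _ := by ring
      have h2 : 5 * (N:ℝ) * (1 + L) * (S.card : ℝ) ^ 2 / η =
          (5 * (1 + L)) * ((S.card : ℝ) ^ 2 * (N / η)) := by ring
      rw [h2]
      have h3 : 3 ^ 2 * ((1 + L) ^ 3) ^ 2 * ((S.card : ℝ) ^ 2 * (N / η)) =
        (9 * ((1 + L) ^ 3) ^ 2) * ((S.card : ℝ) ^ 2 * (N / η)) := by ring
      rw [h3]
      apply mul_le_mul_of_nonneg_right _ (by positivity)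
      nlinarith
    have hKB := KB_le hN
    rw [← hLdef] at hKB
    calc ∑ t ∈ S, ‖DP N a (l * t)‖ ^ 2
        ≤ (2 * (KB N + Real.sqrt M)) * ∑ n ∈ Icc 1 N, ‖a n‖ ^ 2 := by
          rw [hsplit]
          linarith [hcl 0, hcl 1]
      _ ≤ (28 * (1 + L) ^ 3 * (N + S.card * Real.sqrt (N / η))) *
          ∑ n ∈ Icc 1 N, ‖a n‖ ^ 2 := by
          apply mul_le_mul_of_nonneg_right _ hA0
          have h4 : 0 ≤ (1 + L) ^ 3 * (S.card * Real.sqrt (N / η)) := by positivity
          linarith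

end Pool.Agent.TH705.DL
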