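import Mathlib
import Pool.Agent.TH705.DL.Block

set_option autoImplicit false

/-!
# Every dilate of some sets is bad in the `ℓ²` form
-/

namespace Pool.Agent.TH705.DL

open Finset

/-- the phase is close to a multiple of `2π` -/
theorem err_bound {B M k j m n₀ : ℕ} {l : ℝ} (hM : 1 ≤ M) (hB : 32 * M ^ 2 ≤ B)
    (hk : k * (32 * M ^ 2) ≤ B) (hj : j * (32 * M) ≤ B) (hm : m < M) (hl : 1 ≤ l) (hl2 : l ≤ 2)
    (hn : B ≤ n₀) (h1 : (n₀ : ℝ) ≤ l * B) (h2 : l * B ≤ n₀ + 1) :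
    |l * (2 * Real.pi * k * B + j) * Real.log (((n₀ + m : ℕ) : ℝ) / n₀) -
      2 * Real.pi * k * m| ≤ 1 / 2 := by
  have hpi := Real.pi_pos
  have hpi4 := Real.pi_lt_d2
  have hM1 : (1:ℝ) ≤ M := by exact_mod_cast hM
  have hBM : (32:ℝ) * M ^ 2 ≤ B := by exact_mod_cast hB
  have hB1 : (1:ℝ) ≤ B := by nlinarith
  have hB0 : (0:ℝ) < B := by linarith
  have hn1 : (B:ℝ) ≤ n₀ := by exact_mod_cast hn
  have hn0 : (0:ℝ) < n₀ := by linarith
  have hkr : (k:ℝ) * (32 * M ^ 2) ≤ B := by exact_mod_cast hk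
  have hjr : (j:ℝ) * (32 * M) ≤ B := by exact_mod_cast hj
  have hk0 : (0:ℝ) ≤ k := Nat.cast_nonneg k
  have hj0 : (0:ℝ) ≤ j := Nat.cast_nonneg j
  have hm0 : (0:ℝ) ≤ m := Nat.cast_nonneg m
  have hmM : (m:ℝ) ≤ M := by exact_mod_cast hm.le
  set x : ℝ := (m:ℝ) / n₀ with hx
  have hx0 : 0 ≤ x := by positivity
  have hxm : x * n₀ = m := by rw [hx]; field_simp
  have hxB : x * B ≤ M := by nlinarith
  have e1 : ((n₀ + m : ℕ) : ℝ) / n₀ = 1 + x := by
    push_cast
    rw [hx]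
    field_simp
  rw [e1]
  have hup : Real.log (1 + x) ≤ x := by
    have := Real.log_le_sub_one_of_pos (by linarith : (0:ℝ) < 1 + x)
    linarith
  have hlow : x - x ^ 2 / 2 ≤ Real.log (1 + x) := by
    have h := Real.le_log_one_add_of_nonneg hx0
    refine le_trans ?_ h
    rw [le_div_iff₀ (by linarith)]
    nlinarith [mul_nonneg hx0 (sq_nonneg x)]
  set t : ℝ := 2 * Real.pi * k * B + j with ht
  have ht0 : 0 ≤ t := by positivity
  have hlt0 : 0 ≤ l * t := mul_nonneg (by linarith) ht0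
  -- main term
  have hmain0 : 0 ≤ l * t * x - 2 * Real.pi * k * m := by
    have : l * t * x - 2 * Real.pi * k * m = 2 * Real.pi * k * x * (l * B - n₀) + l * j * x := by
      rw [← hxm, ht]; ring
    rw [this]
    have : 0 ≤ l * B - n₀ := by linarith
    have : 0 ≤ l := by linarith
    positivity
  have hxkM : (k:ℝ) * x ≤ 1 / 32 := by
    -- k x ≤ k M / B
    have h3 : (k:ℝ) * M ≤ B / 32 := by
      have e : (k:ℝ) * M ≤ k * M ^ 2 := by
        apply mul_le_mul_of_nonneg_left _ hk0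
        nlinarith
      linarith
    have h4 : (k:ℝ) * (x * B) ≤ k * M := mul_le_mul_of_nonneg_left hxB hk0
    have h5 : (k:ℝ) * x * B ≤ 1 / 32 * B := by linarith
    exact le_of_mul_le_mul_right h5 hB0
  have hxjM : (j:ℝ) * x ≤ 1 / 32 := by
    have h3 : (j:ℝ) * M ≤ B / 32 := by linarith
    have h4 : (j:ℝ) * (x * B) ≤ j * M := mul_le_mul_of_nonneg_left hxB hj0
    have h5 : (j:ℝ) * x * B ≤ 1 / 32 * B := by linarith
    exact le_of_mul_le_mul_right h5 hB0
  have hmain1 : l * t * x - 2 * Real.pi * k * m ≤ (2 * Real.pi + 2) / 32 := by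
    have h3 : l * t * x - 2 * Real.pi * k * m =
        2 * Real.pi * (k * x) * (l * B - n₀) + l * (j * x) := by
      rw [← hxm, ht]; ring
    rw [h3]
    have h4 : 2 * Real.pi * (k * x) * (l * B - n₀) ≤ 2 * Real.pi * (1 / 32) * 1 := by
      apply mul_le_mul _ (by linarith) (by linarith) (by positivity)
      exact mul_le_mul_of_nonneg_left hxkM (by positivity)
    have h5 : l * (j * x) ≤ 2 * (1 / 32) :=
      mul_le_mul hl2 hxjM (by positivity) (by norm_num)
    linarith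
  have hsec : l * t * (x ^ 2 / 2) ≤ (2 * Real.pi + 1) / 32 := by
    have h3 : l * t * (x ^ 2 / 2) ≤ 2 * t * (x ^ 2 / 2) := by
      apply mul_le_mul_of_nonneg_right _ (by positivity)
      exact mul_le_mul_of_nonneg_right hl2 ht0
    have h4 : 2 * t * (x ^ 2 / 2) = 2 * Real.pi * (k * (x * B) * x) + (j * x) * x := by
      rw [ht]; ring
    have h6 : x ≤ 1 := by
      have : x * B ≤ 1 * B := by nlinarith
      exact le_of_mul_le_mul_right this hB0
    have h5 : (k:ℝ) * (x * B) * x ≤ 1 / 32 := by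
      have h7 : (k:ℝ) * (x * B) * (x * B) ≤ k * M * M := by
        apply mul_le_mul (mul_le_mul_of_nonneg_left hxB hk0) hxB (by positivity) (by positivity)
      have h8 : (k:ℝ) * M * M ≤ B / 32 := by
        have e : (k:ℝ) * M * M = (k * (32 * M ^ 2)) / 32 := by ring
        rw [e]
        linarith
      have h9 : (k:ℝ) * (x * B) * x * B ≤ 1 / 32 * B := by
        have e : (k:ℝ) * (x * B) * x * B = (k:ℝ) * (x * B) * (x * B) := by ring
        rw [e]
        linarith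
      exact le_of_mul_le_mul_right h9 hB0
    have h7 : (j:ℝ) * x * x ≤ 1 / 32 := by
      have : (j:ℝ) * x * x ≤ (j * x) * 1 := mul_le_mul_of_nonneg_left h6 (by positivity)
      linarith
    rw [h4] at h3
    have h8 : 2 * Real.pi * (k * (x * B) * x) ≤ 2 * Real.pi * (1 / 32) :=
      mul_le_mul_of_nonneg_left h5 (by positivity)
    linarith
  have hA : l * t * Real.log (1 + x) ≤ l * t * x := mul_le_mul_of_nonneg_left hup hlt0
  have hB' : l * t * (x - x ^ 2 / 2) ≤ l * t * Real.log (1 + x) :=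
    mul_le_mul_of_nonneg_left hlow hlt0
  have hB'' : l * t * (x - x ^ 2 / 2) = l * t * x - l * t * (x ^ 2 / 2) := by ring
  have hp : (2 * Real.pi + 2) / 32 ≤ 1 / 2 := by linarith
  have hp' : (2 * Real.pi + 1) / 32 ≤ 1 / 2 := by linarith
  have e2 : l * (2 * Real.pi * k * B + j) = l * t := by rw [ht]
  rw [e2, abs_le]
  constructor
  · linarith
  · linarith

theorem ph_mul_int {B M k j m n₀ : ℕ} {l : ℝ} (hM : 1 ≤ M) (hB : 32 * M ^ 2 ≤ B)
    (hk : k * (32 * M ^ 2) ≤ B) (hj : j * (32 * M) ≤ B) (hm : m < M) (hl : 1 ≤ l) (hl2 : l ≤ 2)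
    (hn : B ≤ n₀) (h1 : (n₀ : ℝ) ≤ l * B) (h2 : l * B ≤ n₀ + 1) :
    1 / 2 ≤ (ph (l * (2 * Real.pi * k * B + j)) (n₀ + m) *
      (starRingEnd ℂ) (ph (l * (2 * Real.pi * k * B + j)) n₀)).re := by
  have he := err_bound hM hB hk hj hm hl hl2 hn h1 h2
  set t := l * (2 * Real.pi * k * B + j) with ht
  have hB0 : 0 < B := by
    have : 0 < M ^ 2 := by positivity
    omega
  have hn0 : (0:ℝ) < n₀ := by exact_mod_cast (by omega : 0 < n₀)
  have hnm : (0:ℝ) < ((n₀ + m : ℕ) : ℝ) := by exact_mod_cast (by omega : 0 < n₀ + m)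
  rw [ph_conj, ph_eq, ph_eq, ← Complex.exp_add]
  have e1 : ((t * Real.log ((n₀ + m : ℕ) : ℝ) : ℝ) : ℂ) * Complex.I +
      ((-t * Real.log (n₀ : ℝ) : ℝ) : ℂ) * Complex.I =
      ((t * Real.log (((n₀ + m : ℕ) : ℝ) / n₀) - 2 * Real.pi * k * m +
        ((k * m : ℕ) : ℝ) * (2 * Real.pi) : ℝ) : ℂ) * Complex.I := by
    rw [Real.log_div hnm.ne' hn0.ne']
    push_cast
    ring
  rw [e1, Complex.exp_ofReal_mul_I_re, Real.cos_add_nat_mul_two_pi]
  set e := t * Real.log (((n₀ + m : ℕ) : ℝ) / n₀) - 2 * Real.pi * k * m with hedef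
  have h3 := Real.one_sub_sq_div_two_le_cos (x := e)
  have h4 : e ^ 2 ≤ (1 / 2) ^ 2 := by
    rw [← sq_abs e]
    exact pow_le_pow_left₀ (abs_nonneg _) he 2
  linarith

end Pool.Agent.TH705.DL
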