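import Mathlib
import Pool.Agent.TH705.DL.Opt

set_option autoImplicit false

namespace Pool.Agent.TH705.DL

open Finset

/-- the points -/
noncomputable def pt (B : ℕ) (p : ℕ × ℕ) : ℝ := 2 * Real.pi * p.1 * B + p.2

theorem pt_sep {B J : ℕ} (hJ : J ≤ B) {p q : ℕ × ℕ} (hp : p.2 < J)
    (hq : q.2 < J) (hpq : p ≠ q) : 1 ≤ |pt B p - pt B q| := by
  have hpi := Real.pi_gt_three
  have hB1 : (1:ℝ) ≤ B := by exact_mod_cast (by omega : 1 ≤ B)
  unfold pt
  by_cases h : p.1 = q.1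
  · have h2 : p.2 ≠ q.2 := fun e => hpq (Prod.ext h e)
    rw [h]
    have e : 2 * Real.pi * (q.1:ℝ) * B + p.2 - (2 * Real.pi * q.1 * B + q.2) =
        (((p.2 : ℤ) - (q.2 : ℤ) : ℤ) : ℝ) := by push_cast; ring
    rw [e, ← Int.cast_abs]
    have : (1:ℤ) ≤ |(p.2 : ℤ) - (q.2 : ℤ)| := Int.one_le_abs (by omega)
    exact_mod_cast this
  · have h2 : (1:ℤ) ≤ |(p.1 : ℤ) - (q.1 : ℤ)| := Int.one_le_abs (by omega)
    have h3 : (1:ℝ) ≤ |(p.1 : ℝ) - q.1| := by exact_mod_cast h2
    have h4 : |(p.2 : ℝ) - q.2| ≤ B := by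
      have : |(p.2 : ℤ) - (q.2 : ℤ)| ≤ B := by rw [abs_le]; omega
      exact_mod_cast this
    have e : 2 * Real.pi * (p.1:ℝ) * B + p.2 - (2 * Real.pi * q.1 * B + q.2) =
        2 * Real.pi * B * ((p.1:ℝ) - q.1) + ((p.2:ℝ) - q.2) := by ring
    rw [e]
    have h5 : |2 * Real.pi * B * ((p.1:ℝ) - q.1)| = 2 * Real.pi * B * |(p.1:ℝ) - q.1| := by
      rw [abs_mul, abs_of_nonneg (by positivity)]
    have h6 := abs_sub_abs_le_abs_add (2 * Real.pi * B * ((p.1:ℝ) - q.1)) ((p.2:ℝ) - q.2)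
    rw [h5] at h6
    have h7 : 6 * (B:ℝ) ≤ 2 * Real.pi * B * |(p.1:ℝ) - q.1| := by
      have : 6 * (B:ℝ) ≤ 2 * Real.pi * B := by nlinarith
      have h8 : 2 * Real.pi * (B:ℝ) * 1 ≤ 2 * Real.pi * B * |(p.1:ℝ) - q.1| :=
        mul_le_mul_of_nonneg_left h3 (by positivity)
      linarith
    linarith

theorem DP_big {N B M k j : ℕ} {l : ℝ} (hM : 1 ≤ M) (hB : 32 * M ^ 2 ≤ B)
    (hk : k * (32 * M ^ 2) ≤ B) (hj : j * (32 * M) ≤ B) (hl : 1 ≤ l) (hl2 : l ≤ 2)
    (hN : 4 * B ≤ N) :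
    (M : ℝ) / 2 ≤ ‖DP N (fun n => if n ∈ Ico ⌊l * B⌋₊ (⌊l * B⌋₊ + M) then 1 else 0)
      (l * (2 * Real.pi * k * B + j))‖ := by
  have hB0 : (0:ℝ) ≤ B := Nat.cast_nonneg B
  set n₀ := ⌊l * B⌋₊ with hn₀
  have h1 : (n₀ : ℝ) ≤ l * B := Nat.floor_le (mul_nonneg (by linarith) hB0)
  have h2 : l * B ≤ n₀ + 1 := (Nat.lt_floor_add_one _).le
  have hn : B ≤ n₀ := by
    apply Nat.le_floor
    nlinarith
  have hn2 : n₀ ≤ 2 * B := by
    have : (n₀ : ℝ) ≤ ((2 * B : ℕ) : ℝ) := by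
      push_cast
      nlinarith
    exact_mod_cast this
  have hMB : M ≤ B := by nlinarith
  have hM0 : 0 < M := hM
  set t := l * (2 * Real.pi * k * B + j) with ht
  have e1 : DP N (fun n => if n ∈ Ico n₀ (n₀ + M) then 1 else 0) t =
      ∑ m ∈ range M, ph t (n₀ + m) := by
    unfold DP
    have : ∀ n, (if n ∈ Ico n₀ (n₀ + M) then (1:ℂ) else 0) * ph t n =
        if n ∈ Ico n₀ (n₀ + M) then ph t n else 0 := by
      intro n
      split_ifs <;> simp
    simp only [this]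
    rw [← sum_filter]
    have e2 : (Icc 1 N).filter (fun n => n ∈ Ico n₀ (n₀ + M)) = Ico n₀ (n₀ + M) := by
      ext n
      simp only [mem_filter, mem_Icc, mem_Ico]
      omega
    rw [e2, sum_Ico_eq_sum_range]
    simp
  rw [e1]
  have h3 : ‖(∑ m ∈ range M, ph t (n₀ + m)) * (starRingEnd ℂ) (ph t n₀)‖ =
      ‖∑ m ∈ range M, ph t (n₀ + m)‖ := by
    rw [norm_mul, RCLike.norm_conj, ph_norm, mul_one]
  rw [← h3, sum_mul]
  refine le_trans ?_ (Complex.re_le_norm _)
  rw [Complex.re_sum]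
  have h4 : ∑ m ∈ range M, (1:ℝ) / 2 ≤ ∑ m ∈ range M,
      (ph t (n₀ + m) * (starRingEnd ℂ) (ph t n₀)).re := by
    apply sum_le_sum
    intro m hm
    exact ph_mul_int hM hB hk hj (mem_range.1 hm) hl hl2 hn h1 h2
  rw [sum_const, card_range, nsmul_eq_mul] at h4
  linarith

/-- **every dilate is bad** -/
theorem bad (N M : ℕ) (hM : 1 ≤ M) (hMN : M ^ 2 ≤ N) :
    ∃ S : Finset ℝ, Sep S ∧ (∀ t ∈ S, 0 ≤ t ∧ 2 * t ≤ N ^ 2) ∧ S.card * M ^ 3 ≤ N ^ 2 ∧
      ∀ l : ℝ, 1 ≤ l → l ≤ 2 → ∃ a : ℕ → ℂ, (∀ n, ‖a n‖ ≤ 1) ∧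
        0 < ∑ n ∈ Icc 1 N, ‖a n‖ ^ 2 ∧
        (1 / 2 ^ 20) * ((N : ℝ) / M) ^ 2 * ∑ n ∈ Icc 1 N, ‖a n‖ ^ 2 ≤
          ∑ t ∈ S, ‖DP N a (l * t)‖ ^ 2 := by
  classical
  have hM1 : (1:ℝ) ≤ M := by exact_mod_cast hM
  have hM0 : (0:ℝ) < M := by linarith
  have hN1 : 1 ≤ N := le_trans (Nat.one_le_pow _ _ hM) hMN
  have hN1r : (1:ℝ) ≤ N := by exact_mod_cast hN1
  set B := N / 4 with hB
  have hNB : N < 4 * B + 4 := by omega
  have hNB2 : 4 * B ≤ N := by omega
  by_cases hcase : 32 * M ^ 2 ≤ B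
  · -- main case
    set K := B / (32 * M ^ 2) with hK
    set J := B / (32 * M) with hJ
    have hBpos : 0 < B := lt_of_lt_of_le (by positivity) hcase
    have hKM : K * (32 * M ^ 2) ≤ B := Nat.div_mul_le_self _ _
    have hJM : J * (32 * M) ≤ B := Nat.div_mul_le_self _ _
    have hK1 : 1 ≤ K := (Nat.one_le_div_iff (by positivity)).2 hcase
    have hJ1 : 1 ≤ J := by
      rw [hJ, Nat.one_le_div_iff (by positivity)]
      refine le_trans ?_ hcase
      nlinarith
    have hJB : J ≤ B := Nat.div_le_self _ _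
    have hK2 : B < (K + 1) * (32 * M ^ 2) := Nat.lt_mul_of_div_lt (by omega) (by positivity)
    have hJ2 : B < (J + 1) * (32 * M) := Nat.lt_mul_of_div_lt (by omega) (by positivity)
    have hK3 : B ≤ K * (64 * M ^ 2) := by nlinarith
    have hJ3 : B ≤ J * (64 * M) := by nlinarith
    set P := range K ×ˢ range J with hP
    have hinj : Set.InjOn (pt B) (P : Set (ℕ × ℕ)) := by
      intro p hp q hq h
      by_contra hne
      have hp' := mem_product.1 (mem_coe.1 hp)
      have hq' := mem_product.1 (mem_coe.1 hq)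
      have := pt_sep hJB (mem_range.1 hp'.2) (mem_range.1 hq'.2) hne
      rw [h, sub_self, abs_zero] at this
      linarith
    refine ⟨P.image (pt B), ?_, ?_, ?_, ?_⟩
    · intro t ht u hu htu
      rw [mem_image] at ht hu
      obtain ⟨p, hp, rfl⟩ := ht
      obtain ⟨q, hq, rfl⟩ := hu
      rw [hP, mem_product] at hp hq
      exact pt_sep hJB (mem_range.1 hp.2) (mem_range.1 hq.2) (fun e => htu (by rw [e]))
    · intro t ht
      rw [mem_image] at ht
      obtain ⟨p, hp, rfl⟩ := ht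
      rw [hP, mem_product, mem_range, mem_range] at hp
      have hpi := Real.pi_pos
      have hpi4 := Real.pi_lt_d2
      have h1 : (p.1 : ℝ) * 32 ≤ B := by
        have : p.1 * 32 ≤ B := by
          have h2 : p.1 * (32 * M ^ 2) ≤ B := le_trans (Nat.mul_le_mul_right _ hp.1.le) hKM
          have h3 : 1 ≤ M ^ 2 := Nat.one_le_pow _ _ hM
          nlinarith
        exact_mod_cast this
      have h2 : (p.2 : ℝ) ≤ B := by exact_mod_cast (hp.2.le.trans hJB)
      have h3 : (4:ℝ) * B ≤ N := by exact_mod_cast hNB2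
      have h4 : (1:ℝ) ≤ B := by exact_mod_cast hBpos
      have hp0 : (0:ℝ) ≤ p.1 := Nat.cast_nonneg _
      have hp1 : (0:ℝ) ≤ p.2 := Nat.cast_nonneg _
      unfold pt
      constructor
      · positivity
      · have h5 : 2 * Real.pi * (p.1:ℝ) * B ≤ B * B := by
          apply mul_le_mul_of_nonneg_right _ (by linarith)
          nlinarith
        have h6 : (4 * (B:ℝ)) ^ 2 ≤ (N:ℝ) ^ 2 := pow_le_pow_left₀ (by positivity) h3 2
        nlinarith
    · have h1 : (P.image (pt B)).card ≤ K * J := by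
        refine card_image_le.trans (le_of_eq ?_)
        rw [hP, card_product, card_range, card_range]
      have h2 : K * J * M ^ 3 ≤ B * B := by
        have : (K * (32 * M ^ 2)) * (J * (32 * M)) ≤ B * B := Nat.mul_le_mul hKM hJM
        have e : (K * (32 * M ^ 2)) * (J * (32 * M)) = 1024 * (K * J * M ^ 3) := by ring
        rw [e] at this
        omega
      have h3 : B * B ≤ N ^ 2 := by
        have : B ≤ N := by omega
        nlinarith
      exact (Nat.mul_le_mul_right _ h1).trans (h2.trans h3)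
    · intro l hl hl2
      set n₀ := ⌊l * B⌋₊ with hn₀
      refine ⟨fun n => if n ∈ Ico n₀ (n₀ + M) then 1 else 0, ?_, ?_⟩
      · intro n
        dsimp only
        split_ifs <;> simp
      have hB0r : (0:ℝ) ≤ B := Nat.cast_nonneg B
      have h1 : (n₀ : ℝ) ≤ l * B := Nat.floor_le (mul_nonneg (by linarith) hB0r)
      have hn : B ≤ n₀ := by
        apply Nat.le_floor
        nlinarith
      have hn2 : n₀ ≤ 2 * B := by
        have : (n₀ : ℝ) ≤ ((2 * B : ℕ) : ℝ) := by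
          push_cast
          nlinarith
        exact_mod_cast this
      have hMB : M ≤ B := by nlinarith
      have hsum : ∑ n ∈ Icc 1 N, ‖(if n ∈ Ico n₀ (n₀ + M) then (1:ℂ) else 0)‖ ^ 2 = (M:ℝ) := by
        have : ∀ n, ‖(if n ∈ Ico n₀ (n₀ + M) then (1:ℂ) else 0)‖ ^ 2 =
            if n ∈ Ico n₀ (n₀ + M) then (1:ℝ) else 0 := by
          intro n
          split_ifs <;> simp
        simp only [this]
        rw [← sum_filter]
        have e2 : (Icc 1 N).filter (fun n => n ∈ Ico n₀ (n₀ + M)) = Ico n₀ (n₀ + M) := by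
          ext n
          simp only [mem_filter, mem_Icc, mem_Ico]
          omega
        rw [e2]
        simp
      rw [hsum]
      refine ⟨hM0, ?_⟩
      rw [sum_image hinj]
      have h5 : ∑ p ∈ P, ((M:ℝ) / 2) ^ 2 ≤ ∑ p ∈ P,
          ‖DP N (fun n => if n ∈ Ico n₀ (n₀ + M) then 1 else 0) (l * pt B p)‖ ^ 2 := by
        apply sum_le_sum
        intro p hp
        rw [hP, mem_product, mem_range, mem_range] at hp
        apply pow_le_pow_left₀ (by positivity)
        exact DP_big hM hcase (le_trans (Nat.mul_le_mul_right _ hp.1.le) hKM)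
          (le_trans (Nat.mul_le_mul_right _ hp.2.le) hJM) hl hl2 hNB2
      refine le_trans ?_ h5
      rw [sum_const, hP, card_product, card_range, card_range, nsmul_eq_mul]
      have h6 : (B:ℝ) * B ≤ (K * J) * (4096 * M ^ 3) := by
        have : B * B ≤ (K * (64 * M ^ 2)) * (J * (64 * M)) := Nat.mul_le_mul hK3 hJ3
        have e : (K * (64 * M ^ 2)) * (J * (64 * M)) = (K * J) * (4096 * M ^ 3) := by ring
        rw [e] at this
        exact_mod_cast this
      have h7 : (N:ℝ) ≤ 8 * B := by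
        have : N ≤ 8 * B := by omega
        exact_mod_cast this
      have h8 : (N:ℝ) ^ 2 ≤ 64 * ((K * J) * (4096 * M ^ 3)) := by
        have : (N:ℝ) ^ 2 ≤ (8 * B) ^ 2 := pow_le_pow_left₀ (by linarith) h7 2
        nlinarith
      have h9 : (1 / 2 ^ 20) * ((N : ℝ) / M) ^ 2 * M = (1 / 2 ^ 20) * ((N:ℝ) ^ 2 / M) := by
        field_simp
      rw [h9]
      have h10 : (N:ℝ) ^ 2 / M ≤ 64 * ((K * J) * (4096 * M ^ 2)) := by
        rw [div_le_iff₀ hM0]
        refine h8.trans (le_of_eq ?_)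
        ring
      push_cast
      have h11 : (1 / 2 ^ 20 : ℝ) * ((N:ℝ) ^ 2 / M) ≤
          (1 / 2 ^ 20) * (64 * ((K * J) * (4096 * M ^ 2))) :=
        mul_le_mul_of_nonneg_left h10 (by norm_num)
      refine h11.trans (le_of_eq ?_)
      ring
  · -- trivial case
    rw [not_le] at hcase
    refine ⟨{0}, ?_, ?_, ?_, ?_⟩
    · intro t ht u hu htu
      rw [mem_singleton] at ht hu
      exact absurd (ht.trans hu.symm) htu
    · intro t ht
      rw [mem_singleton] at ht
      rw [ht]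
      constructor
      · exact le_rfl
      · simp
    · rw [card_singleton, one_mul]
      have h1 : M ^ 3 ≤ M ^ 4 := Nat.pow_le_pow_right hM (by norm_num)
      have h2 : M ^ 4 = (M ^ 2) ^ 2 := by ring
      exact h1.trans (h2 ▸ Nat.pow_le_pow_left hMN 2)
    · intro l _ _
      refine ⟨fun _ => 1, fun _ => by simp, ?_, ?_⟩
      · simp
        omega
      · rw [sum_singleton]
        have e : DP N (fun _ => 1) (l * 0) = N := by
          unfold DP
          simp [ph]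
        rw [e]
        simp only [norm_one, one_pow, sum_const, Nat.card_Icc, nsmul_eq_mul, mul_one,
          Complex.norm_natCast, Nat.add_sub_cancel]
        have h1 : (N:ℝ) ≤ 132 * M ^ 2 := by
          have : N ≤ 132 * M ^ 2 := by
            have h3 : 1 ≤ M ^ 2 := Nat.one_le_pow _ _ hM
            omega
          exact_mod_cast this
        rw [div_pow]
        have h2 : (1 / 2 ^ 20) * ((N:ℝ) ^ 2 / (M:ℝ) ^ 2) * N =
            ((1 / 2 ^ 20) * (N / (M:ℝ) ^ 2)) * (N:ℝ) ^ 2 := by ring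
        rw [h2]
        have h3 : (1 / 2 ^ 20) * ((N:ℝ) / (M:ℝ) ^ 2) ≤ 1 := by
          have : (N:ℝ) / (M:ℝ) ^ 2 ≤ 132 := by
            rw [div_le_iff₀ (by positivity)]
            exact h1
          nlinarith
        have h4 : 0 ≤ (N:ℝ) ^ 2 := by positivity
        exact mul_le_of_le_one_left h4 h3

end Pool.Agent.TH705.DL
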