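import Mathlib
import Pool.Agent.H726R2.RD.GT
import Pool.Agent.H409R2.RD.EXB

set_option autoImplicit false

/-!
# Independent random positive operators: the Ahlswede-Winter argument with integrals
-/

namespace Pool.Agent.TH705.AW

open MeasureTheory RC14
open scoped InnerProductSpace ENNReal

variable {V : Type*} [NormedAddCommGroup V] [InnerProductSpace ℂ V] [FiniteDimensional ℂ V]

/-- the quadratic form -/
noncomputable def qf (B : Module.End ℂ V) (v : V) : ℝ := (⟪B v, v⟫_ℂ).re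

theorem symm_swap (B : Module.End ℂ V) (v : V) :
    (⟪v, B v⟫_ℂ).re = qf B v := by
  unfold qf
  rw [← inner_conj_symm, Complex.conj_re]

theorem rtr_qf {n : ℕ} (b : OrthonormalBasis (Fin n) ℂ V) (B : Module.End ℂ V) :
    rtr B = ∑ i, qf B (b i) := by
  unfold rtr
  rw [LinearMap.trace_eq_sum_inner B b, Complex.re_sum]
  exact Finset.sum_congr rfl fun i _ => symm_swap B (b i)

theorem rtr_ex_nonneg (A : Module.End ℂ V) (hA : A.IsSymmetric) : 0 ≤ rtr (ex A) := by
  rw [rtr_qf (stdOrthonormalBasis ℂ V)]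
  exact Finset.sum_nonneg fun i _ => ex_pos A hA _

/-- `e^y ≤ 1 + (e-1) y` on `[0,1]` -/
theorem exp_le {y : ℝ} (h0 : 0 ≤ y) (h1 : y ≤ 1) :
    Real.exp y ≤ 1 + (Real.exp 1 - 1) * y := by
  have h := convexOn_exp.2 (Set.mem_univ 0) (Set.mem_univ 1) (by linarith : (0:ℝ) ≤ 1 - y) h0
    (by ring)
  simp only [smul_eq_mul, mul_zero, mul_one, zero_add, Real.exp_zero] at h
  linarith

/-- trace step -/
theorem trace_step (A Y : Module.End ℂ V) (hA : A.IsSymmetric) (hY : Y.IsSymmetric)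
    (h0 : ∀ v, 0 ≤ qf Y v) (h1 : ∀ v, qf Y v ≤ ‖v‖ ^ 2) {n : ℕ}
    (b : OrthonormalBasis (Fin n) ℂ V) (μ : Fin n → ℝ)
    (hb : ∀ i, ex A (b i) = ((Real.exp (μ i) : ℝ) : ℂ) • b i) :
    rtr (ex (A + Y)) ≤ rtr (ex A) +
      (Real.exp 1 - 1) * ∑ i, Real.exp (μ i) * qf Y (b i) := by
  refine (GT A Y hA hY).trans ?_
  obtain ⟨m, c, y, hc1, hc2⟩ := EXB.diag Y hY
  have hy : ∀ k, qf Y (c k) = y k := by
    intro k
    unfold qf
    rw [hc1, inner_smul_left, Complex.conj_ofReal, inner_self_eq_norm_sq_to_K, c.norm_eq_one]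
    simp
  have hy0 : ∀ k, 0 ≤ y k := fun k => hy k ▸ h0 (c k)
  have hy1 : ∀ k, y k ≤ 1 := by
    intro k
    have := h1 (c k)
    rw [hy, c.norm_eq_one] at this
    simpa using this
  -- trace in the basis `c`
  have e1 : rtr (ex A * ex Y) = ∑ k, Real.exp (y k) * qf (ex A) (c k) := by
    rw [rtr_qf c]
    apply Finset.sum_congr rfl
    intro k _
    unfold qf
    rw [Module.End.mul_apply, hc2, map_smul, inner_smul_left, Complex.conj_ofReal,
      Complex.re_ofReal_mul]
  have e2 : ∑ k, Real.exp (y k) * qf (ex A) (c k) ≤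
      ∑ k, (1 + (Real.exp 1 - 1) * y k) * qf (ex A) (c k) := by
    apply Finset.sum_le_sum
    intro k _
    exact mul_le_mul_of_nonneg_right (exp_le (hy0 k) (hy1 k)) (ex_pos A hA _)
  have e3 : ∑ k, (1 + (Real.exp 1 - 1) * y k) * qf (ex A) (c k) =
      rtr (ex A) + (Real.exp 1 - 1) * rtr (ex A * Y) := by
    rw [rtr_qf c (ex A), rtr_qf c (ex A * Y), Finset.mul_sum, ← Finset.sum_add_distrib]
    apply Finset.sum_congr rfl
    intro k _
    have : qf (ex A * Y) (c k) = y k * qf (ex A) (c k) := by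
      unfold qf
      rw [Module.End.mul_apply, hc1, map_smul, inner_smul_left, Complex.conj_ofReal,
        Complex.re_ofReal_mul]
    rw [this]
    ring
  -- trace in the basis `b`
  have e4 : rtr (ex A * Y) = ∑ i, Real.exp (μ i) * qf Y (b i) := by
    rw [rtr_qf b]
    apply Finset.sum_congr rfl
    intro i _
    unfold qf
    rw [Module.End.mul_apply, ex_symm A hA, hb, inner_smul_right, Complex.re_ofReal_mul]
  rw [e1, ← e4]
  exact e2.trans e3.le

/-- the exponential of a sum of bounded operators -/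
noncomputable def TE (B : V →L[ℂ] V) : ℝ := rtr (ex (B : Module.End ℂ V))

theorem TE_cont : Continuous (TE (V := V)) := by
  haveI : CompleteSpace V := FiniteDimensional.complete ℂ V
  letI : NormedAlgebra ℚ (V →L[ℂ] V) := NormedAlgebra.restrictScalars ℚ ℂ (V →L[ℂ] V)
  have h1 : ∀ B : V →L[ℂ] V, TE B =
      ((LinearMap.trace ℂ V ∘ₗ (ContinuousLinearMap.coeLM ℂ : (V →L[ℂ] V) →ₗ[ℂ] (V →ₗ[ℂ] V)))
        (NormedSpace.exp B)).re := by
    intro B
    rfl
  have h2 : Continuous (LinearMap.trace ℂ V ∘ₗ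
      (ContinuousLinearMap.coeLM ℂ : (V →L[ℂ] V) →ₗ[ℂ] (V →ₗ[ℂ] V))) :=
    LinearMap.continuous_of_finiteDimensional _
  have h3 : Continuous (fun B : V →L[ℂ] V => NormedSpace.exp B) := NormedSpace.exp_continuous
  simp_rw [funext h1]
  exact Complex.continuous_re.comp (h2.comp h3)

/-- a continuous family of positive contractions with small average -/
structure Fam (h κ : ℝ) (Y : ℝ → V →L[ℂ] V) : Prop where
  cont : Continuous Y
  symm : ∀ u, ((Y u : V →L[ℂ] V) : Module.End ℂ V).IsSymmetric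
  nonneg : ∀ u v, 0 ≤ qf (Y u : Module.End ℂ V) v
  le_one : ∀ u v, qf (Y u : Module.End ℂ V) v ≤ ‖v‖ ^ 2
  avg : ∀ v, ∫ u in (0:ℝ)..h, qf (Y u : Module.End ℂ V) v ≤ h * κ * ‖v‖ ^ 2

theorem qf_cont {Y : ℝ → V →L[ℂ] V} (hY : Continuous Y) (v : V) :
    Continuous (fun u => qf (Y u : Module.End ℂ V) v) := by
  unfold qf
  have : Continuous (fun u => (Y u) v) := by fun_prop
  exact Complex.continuous_re.comp (this.inner continuous_const)

/-- one independent variable -/
theorem one_step {h κ : ℝ} (hh : 0 ≤ h) (hκ : 0 ≤ κ) {Y : ℝ → V →L[ℂ] V} (hY : Fam h κ Y)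
    (A : V →L[ℂ] V) (hA : (A : Module.End ℂ V).IsSymmetric) :
    ∫⁻ u in Set.Icc (0:ℝ) h, ENNReal.ofReal (TE (A + Y u)) ≤
      ENNReal.ofReal (h * Real.exp ((Real.exp 1 - 1) * κ)) * ENNReal.ofReal (TE A) := by
  have he : 0 ≤ Real.exp 1 - 1 := by
    have := Real.add_one_le_exp 1
    linarith
  obtain ⟨n, b, μ, hb1, hb2⟩ := EXB.diag (A : Module.End ℂ V) hA
  have hTA : TE A = ∑ i, Real.exp (μ i) := EXB.tr_eig b _ _ hb2
  have hTA0 : 0 ≤ TE A := rtr_ex_nonneg _ hA
  have hc : Continuous (fun u => TE (A + Y u)) :=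
    TE_cont.comp (continuous_const.add hY.cont)
  have hsym : ∀ u, ((A + Y u : V →L[ℂ] V) : Module.End ℂ V).IsSymmetric := by
    intro u x y
    have h1 := hA x y
    have h2 := hY.symm u x y
    simp only [ContinuousLinearMap.coe_coe] at h1 h2
    simp only [ContinuousLinearMap.coe_coe, ContinuousLinearMap.add_apply, inner_add_left,
      inner_add_right, h1, h2]
  have h0 : ∀ u, 0 ≤ TE (A + Y u) := fun u => rtr_ex_nonneg _ (hsym u)
  rw [← ofReal_integral_eq_lintegral_ofReal hc.integrableOn_Icc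
    (Filter.Eventually.of_forall h0), ← ENNReal.ofReal_mul (by positivity)]
  apply ENNReal.ofReal_le_ofReal
  rw [integral_Icc_eq_integral_Ioc, ← intervalIntegral.integral_of_le hh]
  have hpt : ∀ u, TE (A + Y u) ≤ TE A +
      (Real.exp 1 - 1) * ∑ i, Real.exp (μ i) * qf (Y u : Module.End ℂ V) (b i) := by
    intro u
    have := trace_step (A : Module.End ℂ V) (Y u : Module.End ℂ V) hA (hY.symm u)
      (hY.nonneg u) (hY.le_one u) b μ hb2
    exact this
  have hqc : ∀ i, Continuous (fun u => qf (Y u : Module.End ℂ V) (b i)) :=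
    fun i => qf_cont hY.cont (b i)
  have hsc : Continuous (fun u => TE A +
      (Real.exp 1 - 1) * ∑ i, Real.exp (μ i) * qf (Y u : Module.End ℂ V) (b i)) := by
    fun_prop
  refine (intervalIntegral.integral_mono_on hh (hc.intervalIntegrable _ _)
    (hsc.intervalIntegrable _ _) (fun u _ => hpt u)).trans ?_
  rw [intervalIntegral.integral_add (by simp) (by
      apply Continuous.intervalIntegrable; fun_prop), intervalIntegral.integral_const,
    intervalIntegral.integral_const_mul, intervalIntegral.integral_finsetSum (by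
      intro i _; apply Continuous.intervalIntegrable; fun_prop)]
  have h2 : ∑ i, ∫ u in (0:ℝ)..h, Real.exp (μ i) * qf (Y u : Module.End ℂ V) (b i) ≤
      h * κ * TE A := by
    rw [hTA, Finset.mul_sum]
    apply Finset.sum_le_sum
    intro i _
    rw [intervalIntegral.integral_const_mul]
    have h3 := hY.avg (b i)
    rw [b.norm_eq_one, one_pow, mul_one] at h3
    have := mul_le_mul_of_nonneg_left h3 (Real.exp_pos (μ i)).le
    linarith
  have h4 : (Real.exp 1 - 1) * ∑ i, ∫ u in (0:ℝ)..h,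
      Real.exp (μ i) * qf (Y u : Module.End ℂ V) (b i) ≤
      (Real.exp 1 - 1) * (h * κ * TE A) := mul_le_mul_of_nonneg_left h2 he
  have h5 : 1 + (Real.exp 1 - 1) * κ ≤ Real.exp ((Real.exp 1 - 1) * κ) := by
    have := Real.add_one_le_exp ((Real.exp 1 - 1) * κ)
    linarith
  rw [smul_eq_mul, sub_zero]
  have h6 : h * TE A * (1 + (Real.exp 1 - 1) * κ) ≤
      h * TE A * Real.exp ((Real.exp 1 - 1) * κ) :=
    mul_le_mul_of_nonneg_left h5 (mul_nonneg hh hTA0)
  nlinarith

theorem TE_zero : TE (0 : V →L[ℂ] V) = Module.finrank ℂ V := by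
  unfold TE
  rw [ContinuousLinearMap.toLinearMap_zero, ex_zero]
  unfold rtr
  rw [LinearMap.trace_one]
  simp

theorem sum_symm {ι : Type*} (s : Finset ι) (A : ι → V →L[ℂ] V)
    (h : ∀ i ∈ s, (A i : Module.End ℂ V).IsSymmetric) :
    ((∑ i ∈ s, A i : V →L[ℂ] V) : Module.End ℂ V).IsSymmetric := by
  intro v w
  simp only [ContinuousLinearMap.coe_coe, ContinuousLinearMap.sum_apply, sum_inner, inner_sum]
  exact Finset.sum_congr rfl fun i hi => h i hi v w

/-- all independent variables -/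
theorem all_steps {ι : Type*} [Fintype ι] [DecidableEq ι] {h : ℝ} (hh : 0 ≤ h) (κ : ι → ℝ)
    (hκ : ∀ i, 0 ≤ κ i) (Y : ι → ℝ → V →L[ℂ] V) (hY : ∀ i, Fam h (κ i) (Y i)) :
    ∫⁻ x : ι → ℝ in Set.univ.pi (fun _ => Set.Icc 0 h),
      ENNReal.ofReal (TE (∑ i, Y i (x i))) ≤
      ENNReal.ofReal (h ^ Fintype.card ι * Real.exp ((Real.exp 1 - 1) * ∑ i, κ i) *
        Module.finrank ℂ V) := by
  classical
  set μ : ι → Measure ℝ := fun _ => volume.restrict (Set.Icc (0:ℝ) h) with hμ
  set f : (ι → ℝ) → ℝ≥0∞ := fun x => ENNReal.ofReal (TE (∑ i, Y i (x i))) with hf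
  have hcY : ∀ i, Continuous (Y i) := fun i => (hY i).cont
  have hfm : Measurable f := by
    have : Continuous (fun x : ι → ℝ => TE (∑ i, Y i (x i))) := by
      apply TE_cont.comp
      apply continuous_finsetSum
      intro i _
      exact (hcY i).comp (continuous_apply i)
    exact this.measurable.ennreal_ofReal
  set c : ι → ℝ≥0∞ := fun i => ENNReal.ofReal (h * Real.exp ((Real.exp 1 - 1) * κ i)) with hc
  have key : ∀ s : Finset ι, ∀ x : ι → ℝ, (∫⋯∫⁻_s, f ∂μ) x ≤
      (∏ i ∈ s, c i) * ENNReal.ofReal (TE (∑ i ∈ sᶜ, Y i (x i))) := by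
    intro s
    induction s using Finset.induction_on with
    | empty =>
      intro x
      rw [lmarginal_empty]
      simp [hf]
    | insert i s hi ih =>
      intro x
      rw [lmarginal_insert f hfm hi x]
      have h1 : ∀ y : ℝ, (∫⋯∫⁻_s, f ∂μ) (Function.update x i y) ≤
          (∏ i ∈ s, c i) * ENNReal.ofReal (TE ((∑ j ∈ (insert i s)ᶜ, Y j (x j)) + Y i y)) := by
        intro y
        refine (ih (Function.update x i y)).trans (le_of_eq ?_)
        have h2 : sᶜ = insert i (insert i s)ᶜ := by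
          ext j
          simp only [Finset.mem_compl, Finset.mem_insert]
          by_cases hj : j = i
          · simp [hj, hi]
          · simp [hj]
        have h3 : i ∉ (insert i s)ᶜ := by simp
        rw [h2, Finset.sum_insert h3, Function.update_self, add_comm]
        congr 4
        apply Finset.sum_congr rfl
        intro j hj
        have hji : j ≠ i := fun e => h3 (e ▸ hj)
        rw [Function.update_of_ne hji]
      refine (lintegral_mono h1).trans ?_
      rw [lintegral_const_mul' _ _ (ENNReal.prod_ne_top (fun j _ => ENNReal.ofReal_ne_top))]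
      have h4 := one_step hh (hκ i) (hY i) (∑ j ∈ (insert i s)ᶜ, Y j (x j))
        (sum_symm _ _ (fun j _ => (hY j).symm _))
      rw [Finset.prod_insert hi]
      calc (∏ i ∈ s, c i) * ∫⁻ y, ENNReal.ofReal (TE ((∑ j ∈ (insert i s)ᶜ, Y j (x j)) + Y i y))
            ∂μ i
          ≤ (∏ i ∈ s, c i) * (c i * ENNReal.ofReal (TE (∑ j ∈ (insert i s)ᶜ, Y j (x j)))) :=
            mul_le_mul' le_rfl h4
        _ = c i * (∏ i ∈ s, c i) * ENNReal.ofReal (TE (∑ j ∈ (insert i s)ᶜ, Y j (x j))) := by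
            ring
  have h5 := key Finset.univ 0
  rw [lmarginal_univ] at h5
  have h6 : (Measure.pi μ) = (volume : Measure (ι → ℝ)).restrict
      (Set.univ.pi (fun _ => Set.Icc (0:ℝ) h)) := by
    rw [hμ]
    exact (Measure.restrict_pi_pi (fun _ => (volume : Measure ℝ)) (fun _ => Set.Icc (0:ℝ) h)).symm
  rw [h6] at h5
  refine h5.trans ?_
  rw [Finset.compl_univ, Finset.sum_empty, TE_zero]
  have h7 : ∏ i, c i = ENNReal.ofReal (h ^ Fintype.card ι *
      Real.exp ((Real.exp 1 - 1) * ∑ i, κ i)) := by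
    rw [hc, ← ENNReal.ofReal_prod_of_nonneg (fun i _ => by positivity), Finset.prod_mul_distrib,
      Finset.prod_const, Finset.card_univ, ← Real.exp_sum, Finset.mul_sum]
  rw [h7, ← ENNReal.ofReal_mul (by positivity)]

/-- **tail bound** -/
theorem tail {ι : Type*} [Fintype ι] [DecidableEq ι] {h : ℝ} (hh : 0 ≤ h) (κ : ι → ℝ)
    (hκ : ∀ i, 0 ≤ κ i) (Y : ι → ℝ → V →L[ℂ] V) (hY : ∀ i, Fam h (κ i) (Y i)) (s : ℝ) :
    volume {x : ι → ℝ | (∀ i, x i ∈ Set.Icc 0 h) ∧ ∃ v : V, ‖v‖ = 1 ∧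
        s ≤ ∑ i, qf (Y i (x i) : Module.End ℂ V) v} ≤
      ENNReal.ofReal (h ^ Fintype.card ι * Real.exp ((Real.exp 1 - 1) * ∑ i, κ i) *
        Module.finrank ℂ V * Real.exp (-s)) := by
  have hcY : ∀ i, Continuous (Y i) := fun i => (hY i).cont
  have hcont : Continuous (fun x : ι → ℝ => TE (∑ i, Y i (x i))) := by
    apply TE_cont.comp
    apply continuous_finsetSum
    intro i _
    exact (hcY i).comp (continuous_apply i)
  have hbox : MeasurableSet (Set.univ.pi (fun _ : ι => Set.Icc (0:ℝ) h)) :=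
    MeasurableSet.univ_pi (fun _ => measurableSet_Icc)
  have h1 := all_steps hh κ hκ Y hY
  have h2 : ENNReal.ofReal (Real.exp s) *
      (volume.restrict (Set.univ.pi (fun _ : ι => Set.Icc (0:ℝ) h)))
        {x | ENNReal.ofReal (Real.exp s) ≤ ENNReal.ofReal (TE (∑ i, Y i (x i)))} ≤
      ∫⁻ x : ι → ℝ in Set.univ.pi (fun _ => Set.Icc 0 h),
        ENNReal.ofReal (TE (∑ i, Y i (x i))) := by
    apply mul_meas_ge_le_lintegral
    exact hcont.measurable.ennreal_ofReal
  have h3 : volume {x : ι → ℝ | (∀ i, x i ∈ Set.Icc 0 h) ∧ ∃ v : V, ‖v‖ = 1 ∧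
        s ≤ ∑ i, qf (Y i (x i) : Module.End ℂ V) v} ≤
      (volume.restrict (Set.univ.pi (fun _ : ι => Set.Icc (0:ℝ) h)))
        {x | ENNReal.ofReal (Real.exp s) ≤ ENNReal.ofReal (TE (∑ i, Y i (x i)))} := by
    rw [Measure.restrict_apply' hbox]
    apply measure_mono
    rintro x ⟨hx, v, hv, hs⟩
    refine ⟨?_, fun i _ => hx i⟩
    apply ENNReal.ofReal_le_ofReal
    set B : V →L[ℂ] V := ∑ i, Y i (x i) with hB
    have hBs : (B : Module.End ℂ V).IsSymmetric := sum_symm _ _ (fun j _ => (hY j).symm _)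
    have h4 := ex_jensen (B : Module.End ℂ V) hBs v hv
    have h5 := ex_le_tr (B : Module.End ℂ V) hBs v hv
    have h6 : (⟪(B : Module.End ℂ V) v, v⟫_ℂ).re = ∑ i, qf (Y i (x i) : Module.End ℂ V) v := by
      rw [hB]
      simp only [ContinuousLinearMap.coe_coe, ContinuousLinearMap.sum_apply, sum_inner,
        Complex.re_sum, qf]
    rw [h6] at h4
    calc Real.exp s ≤ Real.exp (∑ i, qf (Y i (x i) : Module.End ℂ V) v) := Real.exp_le_exp.2 hs
      _ ≤ _ := h4
      _ ≤ TE B := h5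
  have h7 := (mul_le_mul' (le_refl (ENNReal.ofReal (Real.exp s))) h3).trans (h2.trans h1)
  have h8 : ENNReal.ofReal (h ^ Fintype.card ι * Real.exp ((Real.exp 1 - 1) * ∑ i, κ i) *
        Module.finrank ℂ V * Real.exp (-s)) =
      ENNReal.ofReal (h ^ Fintype.card ι * Real.exp ((Real.exp 1 - 1) * ∑ i, κ i) *
        Module.finrank ℂ V) / ENNReal.ofReal (Real.exp s) := by
    rw [← ENNReal.ofReal_div_of_pos (Real.exp_pos s), Real.exp_neg, div_eq_mul_inv]
  rw [h8, ENNReal.le_div_iff_mul_le (Or.inl (by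
    rw [Ne, ENNReal.ofReal_eq_zero, not_le]; exact Real.exp_pos s)) (Or.inl ENNReal.ofReal_ne_top)]
  rw [mul_comm]
  exact h7

end Pool.Agent.TH705.AW
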