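import Mathlib
import Pool.Agent.TH705.DL.AW

set_option autoImplicit false
set_option linter.unusedSectionVars false

/-!
# A matrix Chernoff bound with the norm of the sum of the means, by Golden-Thompson only
-/

namespace Pool.Agent.TH705.Ch

open RC14 Pool.Agent.TH705.AW
open scoped InnerProductSpace

variable {V : Type*} [NormedAddCommGroup V] [InnerProductSpace ℂ V] [FiniteDimensional ℂ V]

/-- `e^z ≤ 1 + z + z^2` for `z ≤ 1` -/
theorem exp_le_quad {z : ℝ} (h1 : z ≤ 1) : Real.exp z ≤ 1 + z + z ^ 2 := by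
  rcases le_or_gt (-1) z with h | h
  · have h2 := Real.abs_exp_sub_one_sub_id_le (x := z) (abs_le.2 ⟨h, h1⟩)
    have := abs_le.1 h2
    linarith [this.2]
  · have h2 : Real.exp z ≤ 1 := Real.exp_le_one_iff.2 (by linarith)
    nlinarith

/-- the rank one operator -/
noncomputable def X1 (w : V) : Module.End ℂ V :=
  { toFun := fun v => ⟪w, v⟫_ℂ • w
    map_add' := fun u v => by rw [inner_add_right, add_smul]
    map_smul' := fun c v => by rw [inner_smul_right, mul_smul, RingHom.id_apply] }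

theorem X1_apply (w v : V) : X1 w v = ⟪w, v⟫_ℂ • w := rfl

theorem X1_symm (w : V) : (X1 w).IsSymmetric := by
  intro u v
  rw [X1_apply, X1_apply, inner_smul_left, inner_smul_right, inner_conj_symm, mul_comm]

theorem X1_qf (w v : V) : qf (X1 w) v = ‖⟪w, v⟫_ℂ‖ ^ 2 := by
  unfold qf
  rw [X1_apply, inner_smul_left]
  rw [← Complex.normSq_eq_conj_mul_self, Complex.ofReal_re, Complex.normSq_eq_norm_sq]

theorem X1_norm (w v : V) : ‖X1 w v‖ ^ 2 = ‖⟪w, v⟫_ℂ‖ ^ 2 * ‖w‖ ^ 2 := by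
  rw [X1_apply, norm_smul, mul_pow]

theorem qf_add (A B : Module.End ℂ V) (v : V) : qf (A + B) v = qf A v + qf B v := by
  unfold qf
  rw [LinearMap.add_apply, inner_add_left, Complex.add_re]

theorem qf_rsmul (r : ℝ) (A : Module.End ℂ V) (v : V) : qf ((r : ℂ) • A) v = r * qf A v := by
  unfold qf
  rw [LinearMap.smul_apply, inner_smul_left, Complex.conj_ofReal, Complex.re_ofReal_mul]

theorem qf_sum {ι : Type*} (s : Finset ι) (A : ι → Module.End ℂ V) (v : V) :
    qf (∑ i ∈ s, A i) v = ∑ i ∈ s, qf (A i) v := by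
  unfold qf
  rw [LinearMap.sum_apply, sum_inner, Complex.re_sum]

theorem symm_add {A B : Module.End ℂ V} (hA : A.IsSymmetric) (hB : B.IsSymmetric) :
    (A + B).IsSymmetric := hA.add hB

theorem symm_rsmul (r : ℝ) {A : Module.End ℂ V} (hA : A.IsSymmetric) :
    ((r : ℂ) • A).IsSymmetric := by
  intro u v
  rw [LinearMap.smul_apply, LinearMap.smul_apply, inner_smul_left, inner_smul_right,
    Complex.conj_ofReal, hA u v]

theorem symm_sum {ι : Type*} (s : Finset ι) (A : ι → Module.End ℂ V)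
    (h : ∀ i ∈ s, (A i).IsSymmetric) : (∑ i ∈ s, A i).IsSymmetric := by
  intro u v
  rw [LinearMap.sum_apply, LinearMap.sum_apply, sum_inner, inner_sum]
  exact Finset.sum_congr rfl fun i hi => h i hi u v

theorem symm_zero : (0 : Module.End ℂ V).IsSymmetric := by
  intro u v
  simp

/-- the trace step -/
theorem step (A : Module.End ℂ V) (hA : A.IsSymmetric) {ι : Type*} (s : Finset ι)
    (Z : ι → Module.End ℂ V) (hZ : ∀ x ∈ s, (Z x).IsSymmetric)
    (h1 : ∀ x ∈ s, ∀ v, qf (Z x) v ≤ ‖v‖ ^ 2)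
    (h2 : ∀ v, ∑ x ∈ s, (qf (Z x) v + ‖Z x v‖ ^ 2) ≤ 0) :
    ∑ x ∈ s, rtr (ex (A + Z x)) ≤ s.card * rtr (ex A) := by
  obtain ⟨n, b, μ, hb1, hb2⟩ := EXB.diag A hA
  have key : ∀ x ∈ s, rtr (ex (A + Z x)) ≤ rtr (ex A) +
      ∑ i, Real.exp (μ i) * (qf (Z x) (b i) + ‖Z x (b i)‖ ^ 2) := by
    intro x hx
    set Y := Z x with hY
    have hYs := hZ x hx
    refine (GT A Y hA hYs).trans ?_
    obtain ⟨m, c, y, hc1, hc2⟩ := EXB.diag Y hYs
    have hy : ∀ k, qf Y (c k) = y k := by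
      intro k
      unfold qf
      rw [hc1, inner_smul_left, Complex.conj_ofReal, inner_self_eq_norm_sq_to_K, c.norm_eq_one]
      simp
    have hy1 : ∀ k, y k ≤ 1 := by
      intro k
      have := h1 x hx (c k)
      rw [hy, c.norm_eq_one] at this
      simpa using this
    have e1 : rtr (ex A * ex Y) = ∑ k, Real.exp (y k) * qf (ex A) (c k) := by
      rw [rtr_qf c]
      apply Finset.sum_congr rfl
      intro k _
      unfold qf
      rw [Module.End.mul_apply, hc2, map_smul, inner_smul_left, Complex.conj_ofReal,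
        Complex.re_ofReal_mul]
    have e2 : ∑ k, Real.exp (y k) * qf (ex A) (c k) ≤
        ∑ k, (1 + y k + y k ^ 2) * qf (ex A) (c k) := by
      apply Finset.sum_le_sum
      intro k _
      exact mul_le_mul_of_nonneg_right (exp_le_quad (hy1 k)) (ex_pos A hA _)
    have hW : ∀ k, (Y + Y * Y) (c k) = ((y k + y k ^ 2 : ℝ) : ℂ) • c k := by
      intro k
      rw [LinearMap.add_apply, Module.End.mul_apply, hc1, map_smul, hc1, smul_smul, ← add_smul]
      congr 1
      push_cast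
      ring
    have e3 : ∑ k, (1 + y k + y k ^ 2) * qf (ex A) (c k) =
        rtr (ex A) + rtr (ex A * (Y + Y * Y)) := by
      rw [rtr_qf c (ex A), rtr_qf c (ex A * (Y + Y * Y)), ← Finset.sum_add_distrib]
      apply Finset.sum_congr rfl
      intro k _
      have : qf (ex A * (Y + Y * Y)) (c k) = (y k + y k ^ 2) * qf (ex A) (c k) := by
        unfold qf
        rw [Module.End.mul_apply, hW, map_smul, inner_smul_left, Complex.conj_ofReal,
          Complex.re_ofReal_mul]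
      rw [this]
      ring
    have e4 : rtr (ex A * (Y + Y * Y)) =
        ∑ i, Real.exp (μ i) * (qf Y (b i) + ‖Y (b i)‖ ^ 2) := by
      rw [rtr_qf b]
      apply Finset.sum_congr rfl
      intro i _
      have h5 : qf (Y + Y * Y) (b i) = qf Y (b i) + ‖Y (b i)‖ ^ 2 := by
        rw [qf_add]
        congr 1
        unfold qf
        rw [Module.End.mul_apply, hYs (Y (b i)) (b i), inner_self_eq_norm_sq_to_K]
        norm_cast
      rw [← h5]
      unfold qf
      rw [Module.End.mul_apply, ex_symm A hA, hb2, inner_smul_right, Complex.re_ofReal_mul]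
    rw [e1, ← e4]
    exact e2.trans e3.le
  refine (Finset.sum_le_sum key).trans ?_
  rw [Finset.sum_add_distrib, Finset.sum_const, nsmul_eq_mul, Finset.sum_comm]
  have h3 : ∑ i, ∑ x ∈ s, Real.exp (μ i) * (qf (Z x) (b i) + ‖Z x (b i)‖ ^ 2) ≤ 0 := by
    apply Finset.sum_nonpos
    intro i _
    rw [← Finset.mul_sum]
    exact mul_nonpos_of_nonneg_of_nonpos (Real.exp_pos _).le (h2 (b i))
  linarith

/-- averaging over one coordinate -/
theorem avg {ι Ω : Type*} [Fintype ι] [DecidableEq ι] [Fintype Ω] [DecidableEq Ω] (i : ι)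
    (F : (ι → Ω) → Ω → ℝ) (hF : ∀ f y x, F (Function.update f i y) x = F f x) :
    (Fintype.card Ω : ℝ) * ∑ f : ι → Ω, F f (f i) = ∑ f : ι → Ω, ∑ x, F f x := by
  set e : (ι → Ω) × Ω → (ι → Ω) × Ω := fun p => (Function.update p.1 i p.2, p.1 i) with he
  have hinv : Function.Involutive e := by
    rintro ⟨f, x⟩
    simp only [he, Function.update_self, Function.update_idem, Function.update_eq_self]
  have h1 : ∑ f : ι → Ω, ∑ x, F f x = ∑ p : (ι → Ω) × Ω, F p.1 p.2 := by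
    rw [← Finset.univ_product_univ, Finset.sum_product]
  have h2 : ∑ p : (ι → Ω) × Ω, F p.1 p.2 =
      ∑ p : (ι → Ω) × Ω, F (e p).1 ((e p).1 i) := by
    apply Finset.sum_congr rfl
    rintro ⟨f, x⟩ _
    simp only [he, Function.update_self]
    rw [hF]
  have h3 : ∑ p : (ι → Ω) × Ω, F (e p).1 ((e p).1 i) = ∑ p : (ι → Ω) × Ω, F p.1 (p.1 i) :=
    Equiv.sum_comp (hinv.toPerm) (fun p : (ι → Ω) × Ω => F p.1 (p.1 i))
  rw [h1, h2, h3, ← Finset.univ_product_univ, Finset.sum_product, Finset.mul_sum]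
  apply Finset.sum_congr rfl
  intro f _
  show _ = ∑ _y : Ω, F f (f i)
  rw [Finset.sum_const, Finset.card_univ, nsmul_eq_mul]

section main

variable {ι Ω : Type*} [Fintype ι] [DecidableEq ι] [Fintype Ω] [DecidableEq Ω] [Nonempty Ω]

/-- the mean -/
noncomputable def MM (w : Ω → V) : Module.End ℂ V :=
  (((1 : ℝ) / Fintype.card Ω : ℝ) : ℂ) • ∑ x, X1 (w x)

theorem MM_symm (w : Ω → V) : (MM w).IsSymmetric :=
  symm_rsmul _ (symm_sum _ _ fun _ _ => X1_symm _)

theorem MM_qf (w : Ω → V) (v : V) :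
    qf (MM w) v = (1 / Fintype.card Ω) * ∑ x, ‖⟪w x, v⟫_ℂ‖ ^ 2 := by
  unfold MM
  rw [qf_rsmul, qf_sum]
  congr 1
  exact Finset.sum_congr rfl fun x _ => X1_qf _ _

theorem MM_norm (w : Ω → V) (R : ℝ) (hw : ∀ x, ‖w x‖ ^ 2 ≤ R) (v : V) :
    ‖MM w v‖ ^ 2 ≤ R * qf (MM w) v := by
  have hc : (0:ℝ) < Fintype.card Ω := by exact_mod_cast Fintype.card_pos
  unfold MM
  rw [LinearMap.smul_apply, LinearMap.sum_apply, norm_smul, Complex.norm_real, Real.norm_eq_abs,
    abs_of_nonneg (by positivity), mul_pow]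
  have h1 : ‖∑ x, X1 (w x) v‖ ^ 2 ≤ Fintype.card Ω * ∑ x, ‖X1 (w x) v‖ ^ 2 := by
    refine (pow_le_pow_left₀ (norm_nonneg _) (norm_sum_le _ _) 2).trans ?_
    have := sq_sum_le_card_mul_sum_sq (s := (Finset.univ : Finset Ω)) (f := fun x => ‖X1 (w x) v‖)
    rwa [Finset.card_univ] at this
  have h2 : ∑ x, ‖X1 (w x) v‖ ^ 2 ≤ R * ∑ x, ‖⟪w x, v⟫_ℂ‖ ^ 2 := by
    rw [Finset.mul_sum]
    apply Finset.sum_le_sum
    intro x _
    rw [X1_norm, mul_comm]
    exact mul_le_mul_of_nonneg_right (hw x) (by positivity)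
  have h3 := MM_qf w v
  unfold MM at h3
  rw [h3]
  calc (1 / (Fintype.card Ω : ℝ)) ^ 2 * ‖∑ x, X1 (w x) v‖ ^ 2
      ≤ (1 / (Fintype.card Ω : ℝ)) ^ 2 * (Fintype.card Ω * (R * ∑ x, ‖⟪w x, v⟫_ℂ‖ ^ 2)) := by
        apply mul_le_mul_of_nonneg_left _ (by positivity)
        exact h1.trans (mul_le_mul_of_nonneg_left h2 hc.le)
    _ = _ := by field_simp

/-- the increment -/
noncomputable def ZZ (th : ℝ) (w : Ω → V) (x : Ω) : Module.End ℂ V :=
  ((th : ℝ) : ℂ) • X1 (w x) + ((-(2 * th) : ℝ) : ℂ) • MM w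

theorem ZZ_symm (th : ℝ) (w : Ω → V) (x : Ω) : (ZZ th w x).IsSymmetric :=
  symm_add (symm_rsmul _ (X1_symm _)) (symm_rsmul _ (MM_symm _))

theorem ZZ_le {R th : ℝ} (hR : 0 < R) (hth : th = 1 / (10 * R)) (w : Ω → V)
    (hw : ∀ x, ‖w x‖ ^ 2 ≤ R) (x : Ω) (v : V) : qf (ZZ th w x) v ≤ ‖v‖ ^ 2 := by
  have hth0 : 0 < th := by rw [hth]; positivity
  unfold ZZ
  rw [qf_add, qf_rsmul, qf_rsmul, X1_qf, MM_qf]
  have h1 : ‖⟪w x, v⟫_ℂ‖ ^ 2 ≤ R * ‖v‖ ^ 2 := by
    calc ‖⟪w x, v⟫_ℂ‖ ^ 2 ≤ (‖w x‖ * ‖v‖) ^ 2 :=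
          pow_le_pow_left₀ (norm_nonneg _) (norm_inner_le_norm _ _) 2
      _ = ‖w x‖ ^ 2 * ‖v‖ ^ 2 := by ring
      _ ≤ _ := mul_le_mul_of_nonneg_right (hw x) (by positivity)
  have h2 : 0 ≤ (1 / (Fintype.card Ω : ℝ)) * ∑ x, ‖⟪w x, v⟫_ℂ‖ ^ 2 := by positivity
  have h3 : th * ‖⟪w x, v⟫_ℂ‖ ^ 2 ≤ th * (R * ‖v‖ ^ 2) := mul_le_mul_of_nonneg_left h1 hth0.le
  have h4 : th * (R * ‖v‖ ^ 2) = ‖v‖ ^ 2 / 10 := by rw [hth]; field_simp
  have h5 : 0 ≤ ‖v‖ ^ 2 := by positivity
  nlinarith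

theorem ZZ_sum {R th : ℝ} (hR : 0 < R) (hth : th = 1 / (10 * R)) (w : Ω → V)
    (hw : ∀ x, ‖w x‖ ^ 2 ≤ R) (v : V) :
    ∑ x, (qf (ZZ th w x) v + ‖ZZ th w x v‖ ^ 2) ≤ 0 := by
  have hth0 : 0 < th := by rw [hth]; positivity
  have hc : (0:ℝ) < Fintype.card Ω := by exact_mod_cast Fintype.card_pos
  set q : Ω → ℝ := fun x => ‖⟪w x, v⟫_ℂ‖ ^ 2 with hq
  set m : ℝ := qf (MM w) v with hm
  have hmq : ∑ x, q x = Fintype.card Ω * m := by
    rw [hm, MM_qf]
    field_simp
    rfl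
  have hm0 : 0 ≤ m := by
    rw [hm, MM_qf]
    positivity
  have hM := MM_norm w R hw v
  rw [← hm] at hM
  have h1 : ∀ x, qf (ZZ th w x) v + ‖ZZ th w x v‖ ^ 2 ≤
      th * q x - 2 * th * m + (2 * th ^ 2 * R * q x + 8 * th ^ 2 * R * m) := by
    intro x
    have h2 : qf (ZZ th w x) v = th * q x - 2 * th * m := by
      unfold ZZ
      rw [qf_add, qf_rsmul, qf_rsmul, X1_qf, ← hm]
      ring
    have h3 : ‖ZZ th w x v‖ ^ 2 ≤ 2 * th ^ 2 * R * q x + 8 * th ^ 2 * R * m := by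
      unfold ZZ
      rw [LinearMap.add_apply, LinearMap.smul_apply, LinearMap.smul_apply]
      have h4 : ‖((th : ℝ) : ℂ) • X1 (w x) v + ((-(2 * th) : ℝ) : ℂ) • MM w v‖ ^ 2 ≤
          2 * (th ^ 2 * ‖X1 (w x) v‖ ^ 2) + 2 * (4 * th ^ 2 * ‖MM w v‖ ^ 2) := by
        have h5 := norm_add_le (((th : ℝ) : ℂ) • X1 (w x) v) (((-(2 * th) : ℝ) : ℂ) • MM w v)
        rw [norm_smul, norm_smul, Complex.norm_real, Complex.norm_real, Real.norm_eq_abs,
          Real.norm_eq_abs, abs_neg, abs_of_pos hth0, abs_of_pos (by linarith : 0 < 2 * th)] at h5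
        refine (pow_le_pow_left₀ (norm_nonneg _) h5 2).trans ?_
        nlinarith [sq_nonneg (th * ‖X1 (w x) v‖ - 2 * th * ‖MM w v‖)]
      refine h4.trans ?_
      rw [X1_norm]
      have h6 : q x * ‖w x‖ ^ 2 ≤ q x * R := mul_le_mul_of_nonneg_left (hw x) (by positivity)
      have h7 : 0 < th ^ 2 := by positivity
      have h8 : th ^ 2 * (q x * ‖w x‖ ^ 2) ≤ th ^ 2 * (q x * R) :=
        mul_le_mul_of_nonneg_left h6 h7.le
      have h9 : th ^ 2 * ‖MM w v‖ ^ 2 ≤ th ^ 2 * (R * m) := mul_le_mul_of_nonneg_left hM h7.le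
      linarith
    linarith
  refine (Finset.sum_le_sum fun x _ => h1 x).trans (le_of_eq ?_)
  have h3 : th * (10 * R) = 1 := by rw [hth]; field_simp
  simp only [Finset.sum_add_distrib, Finset.sum_sub_distrib, ← Finset.mul_sum, hmq,
    Finset.sum_const, Finset.card_univ, nsmul_eq_mul]
  linear_combination (Fintype.card Ω * m * th) * h3

/-- the hybrid sum -/
noncomputable def DD (th : ℝ) (w : ι → Ω → V) (s : Finset ι) (f : ι → Ω) : Module.End ℂ V :=
  ((th : ℝ) : ℂ) • ∑ i ∈ s, X1 (w i (f i)) + ((2 * th : ℝ) : ℂ) • ∑ i ∈ sᶜ, MM (w i)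

theorem DD_symm (th : ℝ) (w : ι → Ω → V) (s : Finset ι) (f : ι → Ω) :
    (DD th w s f).IsSymmetric :=
  symm_add (symm_rsmul _ (symm_sum _ _ fun _ _ => X1_symm _))
    (symm_rsmul _ (symm_sum _ _ fun _ _ => MM_symm _))

theorem DD_insert (th : ℝ) (w : ι → Ω → V) (s : Finset ι) {i : ι} (hi : i ∉ s) (f : ι → Ω) :
    DD th w (insert i s) f = DD th w s f + ZZ th (w i) (f i) := by
  unfold DD ZZ
  have h2 : sᶜ = insert i (insert i s)ᶜ := by
    ext j
    simp only [Finset.mem_compl, Finset.mem_insert]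
    by_cases hj : j = i
    · simp [hj, hi]
    · simp [hj]
  have h3 : i ∉ (insert i s)ᶜ := by simp
  rw [h2, Finset.sum_insert h3, Finset.sum_insert hi, smul_add, smul_add]
  have h4 : ((-(2 * th) : ℝ) : ℂ) • MM (w i) = -(((2 * th : ℝ) : ℂ) • MM (w i)) := by
    rw [Complex.ofReal_neg, neg_smul]
  rw [h4]
  abel

theorem all {R th : ℝ} (hR : 0 < R) (hth : th = 1 / (10 * R)) (w : ι → Ω → V)
    (hw : ∀ i x, ‖w i x‖ ^ 2 ≤ R) (s : Finset ι) :
    ∑ f : ι → Ω, rtr (ex (DD th w s f)) ≤ ∑ f : ι → Ω, rtr (ex (DD th w ∅ f)) := by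
  have hc : (0:ℝ) < Fintype.card Ω := by exact_mod_cast Fintype.card_pos
  induction s using Finset.induction_on with
  | empty => exact le_rfl
  | insert i s hi ih =>
    refine le_trans ?_ ih
    have h1 := avg i (fun f x => rtr (ex (DD th w s f + ZZ th (w i) x))) (by
      intro f y x
      have : DD th w s (Function.update f i y) = DD th w s f := by
        unfold DD
        congr 2
        apply Finset.sum_congr rfl
        intro j hj
        have hji : j ≠ i := fun e => hi (e ▸ hj)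
        rw [Function.update_of_ne hji]
      simp only [this])
    have h2 : ∑ f : ι → Ω, ∑ x, rtr (ex (DD th w s f + ZZ th (w i) x)) ≤
        ∑ f : ι → Ω, Fintype.card Ω * rtr (ex (DD th w s f)) := by
      apply Finset.sum_le_sum
      intro f _
      have := step (DD th w s f) (DD_symm th w s f) Finset.univ (fun x => ZZ th (w i) x)
        (fun x _ => ZZ_symm th (w i) x) (fun x _ v => ZZ_le hR hth (w i) (hw i) x v)
        (fun v => ZZ_sum hR hth (w i) (hw i) v)
      rwa [Finset.card_univ] at this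
    rw [← h1, ← Finset.mul_sum] at h2
    have h3 := le_of_mul_le_mul_left h2 hc
    refine le_trans (le_of_eq ?_) h3
    apply Finset.sum_congr rfl
    intro f _
    rw [DD_insert th w s hi f]

open Classical in
/-- **matrix Chernoff bound** -/
theorem chernoff {R mu K : ℝ} (hR : 0 < R) (w : ι → Ω → V)
    (hw : ∀ i x, ‖w i x‖ ^ 2 ≤ R)
    (hmu : ∀ v, ∑ i, ∑ x, ‖⟪w i x, v⟫_ℂ‖ ^ 2 ≤ Fintype.card Ω * (mu * ‖v‖ ^ 2)) :
    ((Finset.univ.filter (fun f : ι → Ω =>
      ∃ v : V, ‖v‖ = 1 ∧ K ≤ ∑ i, ‖⟪w i (f i), v⟫_ℂ‖ ^ 2)).card : ℝ) ≤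
      (Fintype.card Ω : ℝ) ^ (Fintype.card ι) * (Module.finrank ℂ V *
        Real.exp ((2 * mu - K) / (10 * R))) := by
  have hc : (0:ℝ) < Fintype.card Ω := by exact_mod_cast Fintype.card_pos
  set th : ℝ := 1 / (10 * R) with hth
  have hth0 : 0 < th := by rw [hth]; positivity
  have h1 := all hR hth w hw Finset.univ
  set B := Finset.univ.filter (fun f : ι → Ω =>
      ∃ v : V, ‖v‖ = 1 ∧ K ≤ ∑ i, ‖⟪w i (f i), v⟫_ℂ‖ ^ 2) with hB
  have h2 : (B.card : ℝ) * Real.exp (th * K) ≤ ∑ f : ι → Ω, rtr (ex (DD th w Finset.univ f)) := by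
    have : (B.card : ℝ) * Real.exp (th * K) = ∑ f ∈ B, Real.exp (th * K) := by
      rw [Finset.sum_const, nsmul_eq_mul]
    rw [this]
    refine (Finset.sum_le_sum (g := fun f => rtr (ex (DD th w Finset.univ f))) ?_).trans
      (Finset.sum_le_sum_of_subset_of_nonneg (Finset.filter_subset _ _) fun f _ _ =>
        rtr_ex_nonneg _ (DD_symm th w _ f))
    intro f hf
    rw [hB, Finset.mem_filter] at hf
    obtain ⟨_, v, hv, hK⟩ := hf
    have h4 := ex_jensen (DD th w Finset.univ f) (DD_symm th w _ f) v hv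
    have h5 := ex_le_tr (DD th w Finset.univ f) (DD_symm th w _ f) v hv
    have h6 : (⟪DD th w Finset.univ f v, v⟫_ℂ).re = th * ∑ i, ‖⟪w i (f i), v⟫_ℂ‖ ^ 2 := by
      have : (⟪DD th w Finset.univ f v, v⟫_ℂ).re = qf (DD th w Finset.univ f) v := rfl
      rw [this]
      unfold DD
      rw [Finset.compl_univ, Finset.sum_empty, smul_zero, add_zero, qf_rsmul, qf_sum]
      congr 1
      exact Finset.sum_congr rfl fun i _ => X1_qf _ _
    rw [h6] at h4
    exact (Real.exp_le_exp.2 (mul_le_mul_of_nonneg_left hK hth0.le)).trans (h4.trans h5)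
  have h3 : ∑ f : ι → Ω, rtr (ex (DD th w ∅ f)) ≤
      (Fintype.card Ω : ℝ) ^ (Fintype.card ι) * (Module.finrank ℂ V *
        Real.exp (th * (2 * mu))) := by
    have hone : ∀ f : ι → Ω, rtr (ex (DD th w ∅ f)) ≤
        Module.finrank ℂ V * Real.exp (th * (2 * mu)) := by
      intro f
      obtain ⟨n, b, ν, hb1, hb2⟩ := EXB.diag (DD th w ∅ f) (DD_symm th w _ f)
      rw [EXB.tr_eig b _ _ hb2]
      have hn : n = Module.finrank ℂ V := by
        have := Module.finrank_eq_card_basis b.toBasis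
        rw [this, Fintype.card_fin]
      have h4 : ∀ i, Real.exp (ν i) ≤ Real.exp (th * (2 * mu)) := by
        intro i
        apply Real.exp_le_exp.2
        have h5 : qf (DD th w ∅ f) (b i) = ν i := by
          unfold qf
          rw [hb1, inner_smul_left, Complex.conj_ofReal, inner_self_eq_norm_sq_to_K,
            b.norm_eq_one]
          simp
        rw [← h5]
        unfold DD
        rw [Finset.sum_empty, smul_zero, zero_add, Finset.compl_empty, qf_rsmul, qf_sum]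
        have h6 : ∑ j, qf (MM (w j)) (b i) ≤ mu := by
          have h7 : ∑ j, qf (MM (w j)) (b i) =
              (1 / Fintype.card Ω) * ∑ j, ∑ x, ‖⟪w j x, b i⟫_ℂ‖ ^ 2 := by
            rw [Finset.mul_sum]
            exact Finset.sum_congr rfl fun j _ => MM_qf _ _
          rw [h7]
          have h8 := hmu (b i)
          rw [b.norm_eq_one, one_pow, mul_one] at h8
          calc (1 / (Fintype.card Ω : ℝ)) * ∑ j, ∑ x, ‖⟪w j x, b i⟫_ℂ‖ ^ 2
              ≤ (1 / (Fintype.card Ω : ℝ)) * (Fintype.card Ω * mu) :=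
                mul_le_mul_of_nonneg_left h8 (by positivity)
            _ = mu := by field_simp
        nlinarith
      calc ∑ i, Real.exp (ν i) ≤ ∑ _i : Fin n, Real.exp (th * (2 * mu)) :=
            Finset.sum_le_sum fun i _ => h4 i
        _ = _ := by
            rw [Finset.sum_const, Finset.card_univ, Fintype.card_fin, nsmul_eq_mul, hn]
    refine (Finset.sum_le_sum fun f _ => hone f).trans (le_of_eq ?_)
    rw [Finset.sum_const, Finset.card_univ, Fintype.card_fun, nsmul_eq_mul]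
    push_cast
    ring
  have h4 := h2.trans (h1.trans h3)
  have h5 : Real.exp ((2 * mu - K) / (10 * R)) = Real.exp (th * (2 * mu)) * Real.exp (-(th * K)) := by
    rw [← Real.exp_add]
    congr 1
    rw [hth]
    field_simp
    ring
  have h7 : Real.exp (th * K) * Real.exp (-(th * K)) = 1 := by
    rw [← Real.exp_add]; simp
  rw [h5]
  calc (B.card : ℝ) = (B.card : ℝ) * Real.exp (th * K) * Real.exp (-(th * K)) := by
        rw [mul_assoc, h7, mul_one]
    _ ≤ _ := mul_le_mul_of_nonneg_right h4 (Real.exp_pos _).le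
    _ = _ := by ring

end main

end Pool.Agent.TH705.Ch
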