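import Mathlib
import Pool.Agent.TH705.DL.Block

set_option autoImplicit false

/-!
# Generic frequencies: an exponential moment bound for independent choices
-/

namespace Pool.Agent.TH705.DL.Rnd

open Finset

/-- `e^z ≤ 1 + z + z^2` for `0 ≤ z ≤ 1` -/
theorem exp_le_quad {z : ℝ} (h0 : 0 ≤ z) (h1 : z ≤ 1) : Real.exp z ≤ 1 + z + z ^ 2 := by
  have h := Real.abs_exp_sub_one_sub_id_le (x := z) (by rw [abs_of_nonneg h0]; exact h1)
  have := abs_le.1 h
  linarith [this.2]

/-- first moments from second moments -/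
theorem first_le {N H : ℕ} (hH : 1 ≤ H) (y : Fin N → Fin H → ℝ) (Q : ℝ)
    (hQ : ∑ j, ∑ x, y j x ^ 2 ≤ H * Q) :
    ∑ j, ∑ x, y j x ≤ H * Real.sqrt (N * Q) := by
  have hH0 : (0:ℝ) < H := by exact_mod_cast hH
  have h1 : (∑ j, ∑ x, y j x) ^ 2 ≤ (N * H) * ∑ j, ∑ x, y j x ^ 2 := by
    have h := sq_sum_le_card_mul_sum_sq (s := (univ : Finset (Fin N × Fin H)))
      (f := fun p => y p.1 p.2)
    rw [← univ_product_univ, sum_product, sum_product] at h
    simpa using h
  have h2 : (∑ j, ∑ x, y j x) ^ 2 ≤ (H * Real.sqrt (N * Q)) ^ 2 := by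
    have hQ0 : 0 ≤ (N:ℝ) * Q := by
      have : 0 ≤ ∑ j, ∑ x, y j x ^ 2 := sum_nonneg fun _ _ => sum_nonneg fun _ _ => sq_nonneg _
      have h3 : 0 ≤ Q := by
        by_contra hc
        push Not at hc
        nlinarith
      positivity
    rw [mul_pow, Real.sq_sqrt hQ0]
    have h3 : (N * H : ℝ) * ∑ j, ∑ x, y j x ^ 2 ≤ (N * H) * (H * Q) :=
      mul_le_mul_of_nonneg_left hQ (by positivity)
    nlinarith
  exact abs_le_of_sq_le_sq' h2 (by positivity) |>.2

/-- **exponential moment**: few choices have a large sum -/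
theorem few {N H : ℕ} (hH : 1 ≤ H) (y : Fin N → Fin H → ℝ) (R Q W l : ℝ)
    (hy0 : ∀ j x, 0 ≤ y j x) (hyR : ∀ j x, y j x ≤ R)
    (hQ : ∑ j, ∑ x, y j x ^ 2 ≤ H * Q) (hl : 0 ≤ l) (hlR : l * R ≤ 1) :
    ((univ.filter (fun f : Fin N → Fin H => W ≤ ∑ j, y j (f j))).card : ℝ) ≤
      (H:ℝ) ^ N * Real.exp (l * Real.sqrt (N * Q) + l ^ 2 * Q - l * W) := by
  classical
  have hH0 : (0:ℝ) < H := by exact_mod_cast hH
  set B := univ.filter (fun f : Fin N → Fin H => W ≤ ∑ j, y j (f j)) with hB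
  have h1 : (B.card : ℝ) * Real.exp (l * W) ≤ ∑ f : Fin N → Fin H, Real.exp (l * ∑ j, y j (f j)) := by
    have : (B.card : ℝ) * Real.exp (l * W) = ∑ f ∈ B, Real.exp (l * W) := by
      rw [sum_const, nsmul_eq_mul]
    rw [this]
    refine (sum_le_sum (f := fun _ => Real.exp (l * W))
      (g := fun f => Real.exp (l * ∑ j, y j (f j))) ?_).trans
      (sum_le_sum_of_subset_of_nonneg (filter_subset _ _) fun _ _ _ => (Real.exp_pos _).le)
    intro f hf
    rw [hB, mem_filter] at hf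
    exact Real.exp_le_exp.2 (mul_le_mul_of_nonneg_left hf.2 hl)
  have h2 : ∑ f : Fin N → Fin H, Real.exp (l * ∑ j, y j (f j)) =
      ∏ j, ∑ x, Real.exp (l * y j x) := by
    rw [Finset.prod_univ_sum]
    rw [Fintype.piFinset_univ]
    apply sum_congr rfl
    intro f _
    rw [mul_sum, Real.exp_sum]
  have h3 : ∀ j, ∑ x, Real.exp (l * y j x) ≤
      H * Real.exp (l * ((∑ x, y j x) / H) + l ^ 2 * ((∑ x, y j x ^ 2) / H)) := by
    intro j
    have h4 : ∑ x, Real.exp (l * y j x) ≤ ∑ x, (1 + l * y j x + l ^ 2 * y j x ^ 2) := by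
      apply sum_le_sum
      intro x _
      have h5 : l * y j x ≤ 1 := (mul_le_mul_of_nonneg_left (hyR j x) hl).trans hlR
      have h6 := exp_le_quad (mul_nonneg hl (hy0 j x)) h5
      rw [mul_pow] at h6
      exact h6
    refine h4.trans ?_
    rw [sum_add_distrib, sum_add_distrib, ← mul_sum, ← mul_sum, sum_const, card_univ,
      Fintype.card_fin, nsmul_eq_mul, mul_one]
    have h7 := Real.add_one_le_exp (l * ((∑ x, y j x) / H) + l ^ 2 * ((∑ x, y j x ^ 2) / H))
    have h8 : (H:ℝ) + l * ∑ x, y j x + l ^ 2 * ∑ x, y j x ^ 2 =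
        H * (l * ((∑ x, y j x) / H) + l ^ 2 * ((∑ x, y j x ^ 2) / H) + 1) := by
      field_simp
      ring
    rw [h8]
    exact mul_le_mul_of_nonneg_left h7 hH0.le
  have h4 : ∏ j, ∑ x, Real.exp (l * y j x) ≤
      (H:ℝ) ^ N * Real.exp (l * Real.sqrt (N * Q) + l ^ 2 * Q) := by
    refine (prod_le_prod (fun j _ => sum_nonneg fun _ _ => (Real.exp_pos _).le)
      (fun j _ => h3 j)).trans ?_
    rw [prod_mul_distrib, prod_const, card_univ, Fintype.card_fin, ← Real.exp_sum]
    apply mul_le_mul_of_nonneg_left _ (by positivity)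
    apply Real.exp_le_exp.2
    rw [sum_add_distrib, ← mul_sum, ← mul_sum, ← sum_div, ← sum_div]
    have h5 := first_le hH y Q hQ
    have h6 : (∑ j, ∑ x, y j x) / H ≤ Real.sqrt (N * Q) := by
      rw [div_le_iff₀ hH0]; linarith
    have h7 : (∑ j, ∑ x, y j x ^ 2) / H ≤ Q := by
      rw [div_le_iff₀ hH0]; linarith
    exact add_le_add (mul_le_mul_of_nonneg_left h6 hl) (mul_le_mul_of_nonneg_left h7 (sq_nonneg l))
  have h5 := h1.trans (h2 ▸ h4)
  have h6 : Real.exp (l * Real.sqrt (N * Q) + l ^ 2 * Q - l * W) =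
      Real.exp (l * Real.sqrt (N * Q) + l ^ 2 * Q) * Real.exp (-(l * W)) := by
    rw [← Real.exp_add]; ring_nf
  rw [h6, ← mul_assoc]
  have h7 : Real.exp (l * W) * Real.exp (-(l * W)) = 1 := by
    rw [← Real.exp_add]; simp
  calc (B.card : ℝ) = (B.card : ℝ) * Real.exp (l * W) * Real.exp (-(l * W)) := by
        rw [mul_assoc, h7, mul_one]
    _ ≤ _ := mul_le_mul_of_nonneg_right h5 (Real.exp_pos _).le

/-- the reindexing of `[1, NH]` by blocks -/
theorem reindex (N H : ℕ) (F : ℕ → ℝ) :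
    ∑ j : Fin N, ∑ x : Fin H, F ((j:ℕ) * H + x + 1) = ∑ n ∈ Icc 1 (N * H), F n := by
  have h1 : ∑ j : Fin N, ∑ x : Fin H, F ((j:ℕ) * H + x + 1) =
      ∑ p : Fin N × Fin H, F ((finProdFinEquiv p : ℕ) + 1) := by
    rw [← univ_product_univ, sum_product]
    apply sum_congr rfl
    intro j _
    apply sum_congr rfl
    intro x _
    congr 1
    simp only [finProdFinEquiv_apply_val]
    ring
  rw [h1, Equiv.sum_comp finProdFinEquiv (fun i : Fin (N * H) => F ((i:ℕ) + 1)),
    Fin.sum_univ_eq_sum_range (fun i => F (i + 1)) (N * H)]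
  rw [Finset.range_eq_Ico, Finset.sum_Ico_add' F 0 (N * H) 1]
  rfl

/-- a phase of order four -/
noncomputable def om (k : Fin 4) : ℂ := Complex.I ^ (k : ℕ)

theorem om_norm (k : Fin 4) : ‖om k‖ = 1 := by
  unfold om
  rw [norm_pow, Complex.norm_I, one_pow]

/-- some phase makes the real part large -/
theorem om_large (z : ℂ) : ∃ k : Fin 4, ‖z‖ ≤ 2 * (om k * z).re := by
  have h1 : ‖z‖ ≤ |z.re| + |z.im| := Complex.norm_le_abs_re_add_abs_im z
  have hre : ∃ k : Fin 4, (om k * z).re = |z.re| := by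
    rcases le_total 0 z.re with h | h
    · exact ⟨0, by simp [om, abs_of_nonneg h]⟩
    · refine ⟨2, ?_⟩
      have : om 2 = -1 := by
        unfold om
        exact Complex.I_sq
      rw [this, abs_of_nonpos h]
      simp
  have him : ∃ k : Fin 4, (om k * z).re = |z.im| := by
    rcases le_total 0 z.im with h | h
    · refine ⟨3, ?_⟩
      have : om 3 = -Complex.I := by
        unfold om
        exact Complex.I_pow_three
      rw [this, abs_of_nonneg h]
      simp
    · refine ⟨1, ?_⟩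
      have : om 1 = Complex.I := by
        unfold om
        simp
      rw [this, abs_of_nonpos h]
      simp
  rcases le_total |z.re| |z.im| with h | h
  · obtain ⟨k, hk⟩ := him
    exact ⟨k, by rw [hk]; linarith⟩
  · obtain ⟨k, hk⟩ := hre
    exact ⟨k, by rw [hk]; linarith⟩

end Pool.Agent.TH705.DL.Rnd
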