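import Mathlib
import Pool.Agent.TH705.DL.RandA

set_option autoImplicit false

/-!
# Generic frequencies: the exceptional set of choices
-/

namespace Pool.Agent.TH705.DL.Rnd

open Finset

/-- the dual sum -/
noncomputable def PA (A : Finset (ℝ × Fin 4)) (n : ℕ) : ℂ := ∑ p ∈ A, om p.2 * ph p.1 n

/-- admissible sets of points with phases -/
structure Adm (T : ℝ) (A : Finset (ℝ × Fin 4)) : Prop where
  ne : A.Nonempty
  mem : ∀ p ∈ A, 0 ≤ p.1 ∧ p.1 ≤ T
  sep : ∀ p ∈ A, ∀ q ∈ A, p ≠ q → 1 ≤ |p.1 - q.1|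

/-- the large sieve constant -/
noncomputable def KK (M : ℕ) (T : ℝ) : ℝ :=
  (2 + Real.log M ^ 2) * ((T + 1 - 0) + 4 * M * (1 + Real.log M))

theorem PA_norm_le (A : Finset (ℝ × Fin 4)) (n : ℕ) : ‖PA A n‖ ≤ A.card := by
  unfold PA
  refine (norm_sum_le _ _).trans ?_
  have : ∀ p ∈ A, ‖om p.2 * ph p.1 n‖ ≤ 1 := by
    intro p _
    rw [norm_mul, om_norm, ph_norm, one_mul]
  refine (sum_le_sum this).trans ?_
  simp

theorem PA_sq {M : ℕ} (hM : 1 ≤ M) {T : ℝ} (hT : 0 ≤ T) {A : Finset (ℝ × Fin 4)}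
    (hA : Adm T A) : ∑ n ∈ Icc 1 M, ‖PA A n‖ ^ 2 ≤ KK M T * A.card := by
  classical
  have hM1 : (1:ℝ) ≤ M := by exact_mod_cast hM
  have hL : 0 ≤ Real.log M := Real.log_nonneg hM1
  have hK : 0 ≤ KK M T := by
    unfold KK
    have : 0 ≤ 4 * (M:ℝ) * (1 + Real.log M) := by positivity
    have h2 : 0 ≤ T + 1 - 0 + 4 * (M:ℝ) * (1 + Real.log M) := by linarith
    positivity
  have hinj : Set.InjOn (fun p : ℝ × Fin 4 => p.1) (A : Set (ℝ × Fin 4)) := by
    intro p hp q hq h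
    by_contra hne
    have := hA.sep p hp q hq hne
    simp only at h
    rw [h, sub_self, abs_zero] at this
    linarith
  have h1 : ∀ a : ℕ → ℂ, ∑ p ∈ A, ‖DP M a p.1‖ ^ 2 ≤ KK M T * ∑ n ∈ Icc 1 M, ‖a n‖ ^ 2 := by
    intro a
    have h2 : ∑ p ∈ A, ‖DP M a p.1‖ ^ 2 =
        ∑ t ∈ A.image (fun p => p.1), ‖DP M a t‖ ^ 2 := by
      rw [sum_image hinj]
    rw [h2]
    refine block M hM a _ ?_ 0 T hT ?_
    · intro t ht u hu htu
      rw [mem_image] at ht hu
      obtain ⟨p, hp, rfl⟩ := ht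
      obtain ⟨q, hq, rfl⟩ := hu
      exact hA.sep p hp q hq (fun e => htu (by rw [e]))
    · intro t ht
      rw [mem_image] at ht
      obtain ⟨p, hp, rfl⟩ := ht
      exact hA.mem p hp
  have h3 := dual hK h1 (fun p => om p.2)
  refine h3.trans (le_of_eq ?_)
  congr 1
  simp [om_norm]

/-- the index chosen in block `j` -/
def idx {N H : ℕ} (x : Fin N → Fin H) (j : Fin N) : ℕ := (j:ℕ) * H + x j + 1

/-- one admissible set -/
theorem single {N H : ℕ} (hN : 1 ≤ N) (hH : 1 ≤ H) {T : ℝ} (hT : 0 ≤ T)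
    {A : Finset (ℝ × Fin 4)} (hA : Adm T A) (v lam : ℝ) (hv : 0 < v)
    (h1 : 2 * A.card * lam ≤ v) (h2 : 8 * (KK (N * H) T / H) * lam ≤ v ^ 2)
    (h3 : 16 * N * (KK (N * H) T / H) ≤ A.card * v ^ 2) :
    ((univ.filter (fun x : Fin N → Fin H =>
      A.card * v ≤ ∑ j, ‖PA A (idx x j)‖)).card : ℝ) ≤
      (H:ℝ) ^ N * Real.exp (-(A.card * lam)) := by
  classical
  have hH0 : (0:ℝ) < H := by exact_mod_cast hH
  have hN0 : (0:ℝ) < N := by exact_mod_cast hN
  have hNH : 1 ≤ N * H := Nat.one_le_iff_ne_zero.2 (by positivity)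
  have hR0 : (0:ℝ) < A.card := by exact_mod_cast hA.ne.card_pos
  set R : ℝ := (A.card : ℝ) with hR
  have hM1 : (1:ℝ) ≤ ((N * H : ℕ) : ℝ) := by exact_mod_cast hNH
  have hL : 0 ≤ Real.log ((N * H : ℕ) : ℝ) := Real.log_nonneg hM1
  have hK0 : 0 < KK (N * H) T := by
    unfold KK
    have : 0 < 4 * ((N * H : ℕ):ℝ) * (1 + Real.log ((N * H : ℕ):ℝ)) := by positivity
    have h2 : 0 < T + 1 - 0 + 4 * ((N * H : ℕ):ℝ) * (1 + Real.log ((N * H : ℕ):ℝ)) := by linarith
    positivity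
  set mu : ℝ := KK (N * H) T / H with hmu
  have hmu0 : 0 < mu := by positivity
  have hQ : ∑ j : Fin N, ∑ x : Fin H, ‖PA A ((j:ℕ) * H + x + 1)‖ ^ 2 ≤ H * (mu * R) := by
    rw [reindex N H (fun n => ‖PA A n‖ ^ 2)]
    refine (PA_sq hNH hT hA).trans (le_of_eq ?_)
    rw [hmu, ← hR]
    field_simp
  set l : ℝ := min (1 / R) (v / (4 * mu)) with hl
  have hl0 : 0 < l := lt_min (by positivity) (by positivity)
  have hlR : l * R ≤ 1 := by
    have : l ≤ 1 / R := min_le_left _ _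
    calc l * R ≤ 1 / R * R := mul_le_mul_of_nonneg_right this hR0.le
      _ = 1 := by field_simp
  have hfew := few hH (fun j x => ‖PA A ((j:ℕ) * H + x + 1)‖) R (mu * R) (R * v) l
    (fun _ _ => norm_nonneg _) (fun _ _ => PA_norm_le A _) hQ hl0.le hlR
  have e0 : (univ.filter (fun x : Fin N → Fin H => R * v ≤ ∑ j, ‖PA A (idx x j)‖)) =
      (univ.filter (fun f : Fin N → Fin H =>
        R * v ≤ ∑ j : Fin N, ‖PA A ((j:ℕ) * H + (f j : ℕ) + 1)‖)) := rfl
  rw [e0]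
  refine hfew.trans ?_
  apply mul_le_mul_of_nonneg_left _ (by positivity)
  apply Real.exp_le_exp.2
  have h5 : Real.sqrt (N * (mu * R)) ≤ R * v / 4 := by
    rw [show R * v / 4 = Real.sqrt ((R * v / 4) ^ 2) from (Real.sqrt_sq (by positivity)).symm]
    apply Real.sqrt_le_sqrt
    nlinarith
  have h6 : l ^ 2 * (mu * R) ≤ l * (R * v / 4) := by
    have h7 : l ≤ v / (4 * mu) := min_le_right _ _
    have h8 : l * (mu * R) ≤ R * v / 4 := by
      calc l * (mu * R) ≤ v / (4 * mu) * (mu * R) := mul_le_mul_of_nonneg_right h7 (by positivity)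
        _ = R * v / 4 := by field_simp
    calc l ^ 2 * (mu * R) = l * (l * (mu * R)) := by ring
      _ ≤ _ := mul_le_mul_of_nonneg_left h8 hl0.le
  have h7 : R * lam ≤ l * (R * v) / 2 := by
    rcases min_choice (1 / R) (v / (4 * mu)) with h | h
    · rw [hl, h]
      have : 1 / R * (R * v) / 2 = v / 2 := by field_simp
      rw [this]
      linarith
    · rw [hl, h]
      have : v / (4 * mu) * (R * v) / 2 = R * (v ^ 2 / (8 * mu)) := by field_simp; ring
      rw [this]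
      apply mul_le_mul_of_nonneg_left _ hR0.le
      rw [le_div_iff₀ (by positivity)]
      linarith
  have h8 := mul_le_mul_of_nonneg_left h5 hl0.le
  nlinarith

/-- sum over all subsets -/
theorem sum_subsets (G : Finset (ℝ × Fin 4)) (lam δ : ℝ) (hδ : δ ≤ 1)
    (h : 2 * G.card * Real.exp (-lam) ≤ δ) :
    ∑ A ∈ G.powerset.filter (fun A => A.Nonempty), Real.exp (-(A.card * lam)) ≤ δ := by
  classical
  set z := Real.exp (-lam) with hz
  have hz0 : 0 < z := Real.exp_pos _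
  have h1 : ∀ A : Finset (ℝ × Fin 4), Real.exp (-(A.card * lam)) = z ^ A.card := by
    intro A
    rw [hz, ← Real.exp_nat_mul]
    congr 1
    ring
  simp only [h1]
  have h2 : ∑ t ∈ G.powerset, z ^ #t = (z + 1) ^ #G := by
    rw [← Finset.sum_pow_mul_eq_add_pow z 1 G]
    apply sum_congr rfl
    intro t _
    rw [one_pow, mul_one]
  have h3 : G.powerset = insert ∅ (G.powerset.filter (fun A => A.Nonempty)) := by
    ext A
    simp only [mem_powerset, mem_insert, mem_filter]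
    constructor
    · intro hA
      rcases A.eq_empty_or_nonempty with h | h
      · exact Or.inl h
      · exact Or.inr ⟨hA, h⟩
    · rintro (h | h)
      · rw [h]; exact empty_subset _
      · exact h.1
  have h4 : ∅ ∉ (G.powerset.filter (fun A => A.Nonempty)) := by
    rw [mem_filter]
    rintro ⟨_, h⟩
    exact Finset.not_nonempty_empty h
  rw [h3, sum_insert h4, card_empty, pow_zero] at h2
  have h5 : (z + 1) ^ G.card ≤ Real.exp (G.card * z) := by
    rw [Real.exp_nat_mul]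
    apply pow_le_pow_left₀ (by positivity)
    exact Real.add_one_le_exp z
  have h6 : (0:ℝ) ≤ G.card * z := mul_nonneg (Nat.cast_nonneg _) hz0.le
  have h7 : (G.card : ℝ) * z ≤ 1 := by linarith
  have h8 := exp_le_quad h6 h7
  nlinarith

open Classical in
/-- the exceptional set of choices -/
theorem union {N H : ℕ} (hN : 1 ≤ N) (hH : 1 ≤ H) {T : ℝ} (hT : 0 ≤ T)
    (G : Finset (ℝ × Fin 4)) (lam δ : ℝ) (hδ : δ ≤ 1)
    (hG : 2 * G.card * Real.exp (-lam) ≤ δ) (v : ℕ → ℝ) (hv : ∀ R, 1 ≤ R → 0 < v R)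
    (h1 : ∀ R : ℕ, 1 ≤ R → 2 * R * lam ≤ v R)
    (h2 : ∀ R : ℕ, 1 ≤ R → 8 * (KK (N * H) T / H) * lam ≤ v R ^ 2)
    (h3 : ∀ R : ℕ, 1 ≤ R → 16 * N * (KK (N * H) T / H) ≤ R * v R ^ 2) :
    ((univ.filter (fun x : Fin N → Fin H =>
      ¬ ∀ A ⊆ G, Adm T A → ∑ j, ‖PA A (idx x j)‖ < A.card * v A.card)).card : ℝ) ≤
      δ * (H:ℝ) ^ N := by
  classical
  set F := G.powerset.filter (fun A => A.Nonempty) with hF
  set Bd : Finset (ℝ × Fin 4) → Finset (Fin N → Fin H) := fun A =>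
    univ.filter (fun x : Fin N → Fin H => Adm T A ∧
      A.card * v A.card ≤ ∑ j, ‖PA A (idx x j)‖) with hBd
  have hsub : (univ.filter (fun x : Fin N → Fin H =>
      ¬ ∀ A ⊆ G, Adm T A → ∑ j, ‖PA A (idx x j)‖ < A.card * v A.card)) ⊆ F.biUnion Bd := by
    intro x hx
    rw [mem_filter] at hx
    obtain ⟨_, hx⟩ := hx
    push Not at hx
    obtain ⟨A, hAG, hA, hx⟩ := hx
    rw [mem_biUnion]
    refine ⟨A, ?_, ?_⟩
    · rw [hF, mem_filter, mem_powerset]
      exact ⟨hAG, hA.ne⟩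
    · rw [hBd, mem_filter]
      exact ⟨mem_univ _, hA, hx⟩
  have hone : ∀ A ∈ F, ((Bd A).card : ℝ) ≤ Real.exp (-(A.card * lam)) * (H:ℝ) ^ N := by
    intro A hAF
    rw [hF, mem_filter] at hAF
    by_cases hA : Adm T A
    · have hR1 : 1 ≤ A.card := hA.ne.card_pos
      have h := single hN hH hT hA (v A.card) lam (hv _ hR1) (h1 _ hR1) (h2 _ hR1) (h3 _ hR1)
      rw [mul_comm]
      refine le_trans ?_ h
      exact_mod_cast card_le_card (fun x hx => by
        rw [hBd, mem_filter] at hx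
        rw [mem_filter]
        exact ⟨mem_univ _, hx.2.2⟩)
    · have : Bd A = ∅ := by
        rw [hBd]
        apply filter_false_of_mem
        intro x _ hx
        exact hA hx.1
      rw [this, card_empty, Nat.cast_zero]
      exact mul_nonneg (Real.exp_pos _).le (pow_nonneg (Nat.cast_nonneg H) N)
  calc ((univ.filter (fun x : Fin N → Fin H =>
      ¬ ∀ A ⊆ G, Adm T A → ∑ j, ‖PA A (idx x j)‖ < A.card * v A.card)).card : ℝ)
      ≤ ((F.biUnion Bd).card : ℝ) := by exact_mod_cast card_le_card hsub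
    _ ≤ ∑ A ∈ F, ((Bd A).card : ℝ) := by exact_mod_cast card_biUnion_le
    _ ≤ ∑ A ∈ F, Real.exp (-(A.card * lam)) * (H:ℝ) ^ N := sum_le_sum hone
    _ = (∑ A ∈ F, Real.exp (-(A.card * lam))) * (H:ℝ) ^ N := by rw [sum_mul]
    _ ≤ δ * (H:ℝ) ^ N := mul_le_mul_of_nonneg_right (sum_subsets G lam δ hδ hG) (by positivity)

end Pool.Agent.TH705.DL.Rnd
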