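import Mathlib
import Pool.Agent.TH705.DL.RandB

set_option autoImplicit false

/-!
# Generic frequencies: large values
-/

namespace Pool.Agent.TH705.DL.Rnd

open Finset

theorem ph_lip (n : ℕ) (hn : 1 ≤ n) (s t : ℝ) : ‖ph t n - ph s n‖ ≤ |t - s| * Real.log n := by
  have hl : 0 ≤ Real.log n := Real.log_nonneg (by exact_mod_cast hn)
  have h := Convex.norm_image_sub_le_of_norm_hasDerivWithin_le (s := Set.univ)
    (f := fun t : ℝ => ph t n) (f' := fun t : ℝ => Complex.I * (Real.log n : ℂ) * ph t n)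
    (C := Real.log n) (x := s) (y := t)
    (fun u _ => (ph_hasDeriv u n).hasDerivWithinAt)
    (fun u _ => by
      rw [norm_mul, norm_mul, Complex.norm_I, one_mul, Complex.norm_real, ph_norm, mul_one,
        Real.norm_eq_abs, abs_of_nonneg hl])
    convex_univ (Set.mem_univ _) (Set.mem_univ _)
  rw [Real.norm_eq_abs, mul_comm] at h
  exact h

/-- the Dirichlet polynomial with the chosen frequencies -/
noncomputable def DX {N H : ℕ} (x : Fin N → Fin H) (a : Fin N → ℂ) (t : ℝ) : ℂ :=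
  ∑ j, a j * ph t (idx x j)

theorem idx_le {N H : ℕ} (x : Fin N → Fin H) (j : Fin N) : idx x j ≤ N * H := by
  unfold idx
  have h1 := j.2
  have h2 := (x j).2
  have h3 : ((j:ℕ) + 1) * H ≤ N * H := Nat.mul_le_mul_right H h1
  nlinarith

theorem idx_pos {N H : ℕ} (x : Fin N → Fin H) (j : Fin N) : 1 ≤ idx x j := by
  unfold idx
  omega

theorem DX_lip {N H : ℕ} (x : Fin N → Fin H) (a : Fin N → ℂ) (ha : ∀ j, ‖a j‖ ≤ 1) (s t : ℝ) :
    ‖DX x a t - DX x a s‖ ≤ N * (|t - s| * Real.log ((N * H : ℕ) : ℝ)) := by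
  unfold DX
  rw [← sum_sub_distrib]
  refine (norm_sum_le _ _).trans ?_
  have h1 : ∀ j ∈ (univ : Finset (Fin N)), ‖a j * ph t (idx x j) - a j * ph s (idx x j)‖ ≤
      |t - s| * Real.log ((N * H : ℕ) : ℝ) := by
    intro j _
    rw [← mul_sub, norm_mul]
    have h2 := ph_lip (idx x j) (idx_pos x j) s t
    have h3 : Real.log (idx x j : ℝ) ≤ Real.log ((N * H : ℕ) : ℝ) := by
      apply Real.log_le_log
      · exact_mod_cast idx_pos x j
      · exact_mod_cast idx_le x j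
    calc ‖a j‖ * ‖ph t (idx x j) - ph s (idx x j)‖
        ≤ 1 * (|t - s| * Real.log (idx x j : ℝ)) :=
          mul_le_mul (ha j) h2 (norm_nonneg _) zero_le_one
      _ = |t - s| * Real.log (idx x j : ℝ) := one_mul _
      _ ≤ _ := mul_le_mul_of_nonneg_left h3 (abs_nonneg _)
  refine (sum_le_sum h1).trans ?_
  rw [sum_const, card_univ, Fintype.card_fin, nsmul_eq_mul]

/-- rounding -/
noncomputable def rr (Q : ℕ) (t : ℝ) : ℝ := (⌊t * Q⌋₊ : ℝ) / Q

theorem rr_le {Q : ℕ} (hQ : 1 ≤ Q) {t : ℝ} (ht : 0 ≤ t) : rr Q t ≤ t := by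
  have hQ0 : (0:ℝ) < Q := by exact_mod_cast hQ
  unfold rr
  rw [div_le_iff₀ hQ0]
  exact Nat.floor_le (by positivity)

theorem rr_ge {Q : ℕ} (hQ : 1 ≤ Q) {t : ℝ} : t - 1 / Q ≤ rr Q t := by
  have hQ0 : (0:ℝ) < Q := by exact_mod_cast hQ
  unfold rr
  rw [le_div_iff₀ hQ0]
  have h := Nat.lt_floor_add_one (t * Q)
  have : (t - 1 / Q) * Q = t * Q - 1 := by field_simp
  rw [this]
  linarith

theorem rr_nonneg {Q : ℕ} {t : ℝ} : 0 ≤ rr Q t := by
  unfold rr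
  positivity

theorem floor_le_rr {Q : ℕ} (hQ : 1 ≤ Q) {t : ℝ} (ht : 0 ≤ t) : (⌊t⌋₊ : ℝ) ≤ rr Q t := by
  have hQ0 : (0:ℝ) < Q := by exact_mod_cast hQ
  unfold rr
  rw [le_div_iff₀ hQ0]
  have h : ⌊t⌋₊ * Q ≤ ⌊t * Q⌋₊ := by
    apply Nat.le_floor
    push_cast
    exact mul_le_mul_of_nonneg_right (Nat.floor_le ht) hQ0.le
  exact_mod_cast h

theorem rr_sep_aux {Q : ℕ} (hQ : 1 ≤ Q) {t u : ℝ} (ht : 0 ≤ t) (hu : 0 ≤ u)
    (hp : ⌊t⌋₊ % 2 = ⌊u⌋₊ % 2) (h : t + 1 ≤ u) : 1 ≤ rr Q u - rr Q t := by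
  have h1 := floor_le_rr hQ hu
  have h2 := rr_le hQ ht
  have h3 := Nat.lt_floor_add_one t
  have h4 : ⌊t⌋₊ + 1 ≤ ⌊u⌋₊ := by
    apply Nat.le_floor
    push_cast
    have := Nat.floor_le ht
    linarith
  have h5 : ⌊t⌋₊ + 2 ≤ ⌊u⌋₊ := by omega
  have h6 : ((⌊t⌋₊ : ℝ) + 2) ≤ ⌊u⌋₊ := by exact_mod_cast h5
  linarith

theorem rr_sep {Q : ℕ} (hQ : 1 ≤ Q) {t u : ℝ} (ht : 0 ≤ t) (hu : 0 ≤ u)
    (hp : ⌊t⌋₊ % 2 = ⌊u⌋₊ % 2) (h : 1 ≤ |t - u|) : 1 ≤ |rr Q t - rr Q u| := by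
  rcases le_abs.1 h with h1 | h1
  · have := rr_sep_aux hQ hu ht hp.symm (by linarith)
    exact this.trans (le_abs_self _)
  · have := rr_sep_aux hQ ht hu hp (by linarith)
    rw [abs_sub_comm]
    exact this.trans (le_abs_self _)

/-- the grid with phases -/
noncomputable def GG (Q : ℕ) (T : ℝ) : Finset (ℝ × Fin 4) :=
  ((range (⌊T * Q⌋₊ + 1)).image (fun k : ℕ => (k : ℝ) / Q)) ×ˢ (univ : Finset (Fin 4))

theorem GG_card (Q : ℕ) (T : ℝ) (hT : 0 ≤ T) : ((GG Q T).card : ℝ) ≤ (T * Q + 1) * 4 := by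
  unfold GG
  rw [card_product, card_univ, Fintype.card_fin]
  push_cast
  apply mul_le_mul_of_nonneg_right _ (by norm_num)
  have h1 : (((range (⌊T * Q⌋₊ + 1)).image (fun k : ℕ => (k : ℝ) / Q)).card : ℝ) ≤
      ((⌊T * Q⌋₊ + 1 : ℕ) : ℝ) := by
    have := card_image_le (s := range (⌊T * Q⌋₊ + 1)) (f := fun k : ℕ => (k : ℝ) / Q)
    rw [card_range] at this
    exact_mod_cast this
  refine h1.trans ?_
  push_cast
  have := Nat.floor_le (show 0 ≤ T * Q by positivity)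
  linarith

theorem mem_GG {Q : ℕ} {T t : ℝ} (ht : t ≤ T) (k : Fin 4) : (rr Q t, k) ∈ GG Q T := by
  unfold GG
  rw [mem_product]
  refine ⟨?_, mem_univ _⟩
  rw [mem_image]
  refine ⟨⌊t * Q⌋₊, ?_, rfl⟩
  rw [mem_range, Nat.lt_succ_iff]
  exact Nat.floor_le_floor (mul_le_mul_of_nonneg_right ht (Nat.cast_nonneg Q))

/-- few points of one parity with a large value -/
theorem one_class {N H : ℕ} (hN : 1 ≤ N) (hH : 1 ≤ H) {T : ℝ} {v : ℕ → ℝ}
    {x : Fin N → Fin H}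
    (hx : ∀ A ⊆ GG ((N * H) ^ 2) T, Adm T A → ∑ j, ‖PA A (idx x j)‖ < A.card * v A.card)
    {a : Fin N → ℂ} (ha : ∀ j, ‖a j‖ ≤ 1) {V : ℝ} {S : Finset ℝ} (hne : S.Nonempty)
    (hST : ∀ t ∈ S, 0 ≤ t ∧ t ≤ T) (hsep : ∀ t ∈ S, ∀ u ∈ S, t ≠ u → 1 ≤ |t - u|)
    (hpar : ∀ t ∈ S, ∀ u ∈ S, ⌊t⌋₊ % 2 = ⌊u⌋₊ % 2)
    (hV : ∀ t ∈ S, V ≤ ‖DX x a t‖) : V < 1 + 2 * v S.card := by
  classical
  set M := N * H with hM
  have hM1 : 1 ≤ M := Nat.one_le_iff_ne_zero.2 (by positivity)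
  have hM1' : (1:ℝ) ≤ M := by exact_mod_cast hM1
  set Q := M ^ 2 with hQ
  have hQ1 : 1 ≤ Q := Nat.one_le_pow _ _ hM1
  have hQ0 : (0:ℝ) < Q := by exact_mod_cast hQ1
  choose k hk using fun t : ℝ => om_large (DX x a (rr Q t))
  set A := S.image (fun t => (rr Q t, k t)) with hA
  have hrs : ∀ t ∈ S, ∀ u ∈ S, t ≠ u → 1 ≤ |rr Q t - rr Q u| := fun t ht u hu htu =>
    rr_sep hQ1 (hST t ht).1 (hST u hu).1 (hpar t ht u hu) (hsep t ht u hu htu)
  have hinj : Set.InjOn (fun t => (rr Q t, k t)) (S : Set ℝ) := by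
    intro t ht u hu h
    by_contra hne
    have h1 := hrs t ht u hu hne
    have h2 : rr Q t = rr Q u := congrArg Prod.fst h
    rw [h2, sub_self, abs_zero] at h1
    linarith
  have hcard : A.card = S.card := card_image_of_injOn hinj
  have hAdm : Adm T A := by
    refine ⟨hne.image _, ?_, ?_⟩
    · intro p hp
      rw [hA, mem_image] at hp
      obtain ⟨t, ht, rfl⟩ := hp
      exact ⟨rr_nonneg, (rr_le hQ1 (hST t ht).1).trans (hST t ht).2⟩
    · intro p hp q hq hpq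
      rw [hA, mem_image] at hp hq
      obtain ⟨t, ht, rfl⟩ := hp
      obtain ⟨u, hu, rfl⟩ := hq
      exact hrs t ht u hu (fun e => hpq (by rw [e]))
  have hAG : A ⊆ GG Q T := by
    intro p hp
    rw [hA, mem_image] at hp
    obtain ⟨t, ht, rfl⟩ := hp
    exact mem_GG (hST t ht).2 _
  have h1 := hx A hAG hAdm
  rw [hcard] at h1
  have h2 : ∑ p ∈ A, om p.2 * DX x a p.1 = ∑ j, a j * PA A (idx x j) := by
    unfold DX PA
    simp only [mul_sum]
    rw [sum_comm]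
    apply sum_congr rfl
    intro j _
    apply sum_congr rfl
    intro p _
    ring
  have h3 : (∑ p ∈ A, om p.2 * DX x a p.1).re ≤ ∑ j, ‖PA A (idx x j)‖ := by
    refine (Complex.re_le_norm _).trans ?_
    rw [h2]
    refine (norm_sum_le _ _).trans (sum_le_sum fun j _ => ?_)
    rw [norm_mul]
    calc ‖a j‖ * ‖PA A (idx x j)‖ ≤ 1 * ‖PA A (idx x j)‖ :=
          mul_le_mul_of_nonneg_right (ha j) (norm_nonneg _)
      _ = _ := one_mul _
  have h4 : (∑ p ∈ A, om p.2 * DX x a p.1).re = ∑ t ∈ S, (om (k t) * DX x a (rr Q t)).re := by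
    rw [hA, sum_image hinj, Complex.re_sum]
  have h5 : ∀ t ∈ S, (V - 1) / 2 ≤ (om (k t) * DX x a (rr Q t)).re := by
    intro t ht
    have h6 := hk t
    have h7 := DX_lip x a ha (rr Q t) t
    have h8 : |t - rr Q t| ≤ 1 / Q := by
      rw [abs_le]
      constructor
      · have := rr_le hQ1 (hST t ht).1
        have : (0:ℝ) ≤ 1 / Q := by positivity
        linarith
      · have := rr_ge hQ1 (t := t)
        linarith
    have h9 : (N:ℝ) * (|t - rr Q t| * Real.log (M : ℝ)) ≤ 1 := by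
      have hl : 0 ≤ Real.log (M:ℝ) := Real.log_nonneg hM1'
      have hl2 : Real.log (M:ℝ) ≤ M := by
        have := Real.log_le_sub_one_of_pos (show (0:ℝ) < M by linarith)
        linarith
      have hNM : (N:ℝ) ≤ M := by
        rw [hM]
        push_cast
        have h1H : (1:ℝ) ≤ H := by exact_mod_cast hH
        have h0N : (0:ℝ) ≤ N := Nat.cast_nonneg N
        nlinarith
      have hQM : (Q:ℝ) = M ^ 2 := by rw [hQ]; push_cast; ring
      calc (N:ℝ) * (|t - rr Q t| * Real.log (M : ℝ)) ≤ M * (1 / Q * M) := by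
            apply mul_le_mul hNM _ (by positivity) (by positivity)
            exact mul_le_mul h8 hl2 hl (by positivity)
        _ = 1 := by
            rw [hQM]
            have : (M:ℝ) ≠ 0 := by linarith
            field_simp
    have h10 : ‖DX x a t‖ - ‖DX x a (rr Q t)‖ ≤ 1 :=
      (norm_sub_norm_le _ _).trans (h7.trans h9)
    have h11 := hV t ht
    linarith
  have h6 : (S.card : ℝ) * ((V - 1) / 2) ≤ ∑ t ∈ S, (om (k t) * DX x a (rr Q t)).re := by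
    have := sum_le_sum h5
    rw [sum_const, nsmul_eq_mul] at this
    exact this
  have h7 : (S.card : ℝ) * ((V - 1) / 2) < S.card * v S.card := by
    calc _ ≤ _ := h6
      _ = _ := h4.symm
      _ ≤ _ := h3
      _ < _ := h1
  have h8 : (0:ℝ) < S.card := by exact_mod_cast hne.card_pos
  have h9 : (V - 1) / 2 < v S.card := lt_of_mul_lt_mul_left h7 h8.le
  linarith

/-- the threshold -/
noncomputable def vv (N : ℕ) (mu lam : ℝ) (R : ℕ) : ℝ :=
  max (2 * R * lam) (max (Real.sqrt (8 * mu * lam)) (4 * Real.sqrt (N * mu / R)))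

theorem KK_le {M : ℕ} (hM : 1 ≤ M) {T L : ℝ} (hT : T ≤ M) (hL : 1 + Real.log M ≤ L) :
    KK M T ≤ 12 * L ^ 3 * M := by
  have hM1 : (1:ℝ) ≤ M := by exact_mod_cast hM
  have hl : 0 ≤ Real.log M := Real.log_nonneg hM1
  have hL1 : 1 ≤ L := by linarith
  unfold KK
  have h1 : 2 + Real.log M ^ 2 ≤ 2 * L ^ 2 := by nlinarith
  have h2 : (T + 1 - 0) + 4 * M * (1 + Real.log M) ≤ 6 * L * M := by
    have h3 : (M:ℝ) ≤ L * M := by nlinarith
    have h4 : (M:ℝ) * (1 + Real.log M) ≤ M * L := mul_le_mul_of_nonneg_left hL (by linarith)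
    nlinarith
  calc (2 + Real.log M ^ 2) * ((T + 1 - 0) + 4 * M * (1 + Real.log M))
      ≤ (2 + Real.log M ^ 2) * (6 * L * M) := mul_le_mul_of_nonneg_left h2 (by positivity)
    _ ≤ 2 * L ^ 2 * (6 * L * M) := mul_le_mul_of_nonneg_right h1 (by positivity)
    _ = _ := by ring

/-- the numerical part -/
theorem numbers {N : ℕ} (hN : 1 ≤ N) {mu lam L V : ℝ} (hL : 1 ≤ L) (_hmu0 : 0 ≤ mu)
    (hmu : mu ≤ 12 * L ^ 3 * N) (hlam0 : 0 ≤ lam) (hlam : lam ≤ 3 * L) (hV0 : 0 < V)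
    (hV : 10 ^ 6 * N ^ 2 * L ^ 6 ≤ V ^ 3) :
    1 + 2 * vv N mu lam ⌈3072 * N ^ 2 * L ^ 3 / V ^ 2⌉₊ ≤ V := by
  have hN1 : (1:ℝ) ≤ N := by exact_mod_cast hN
  have hL0 : 0 < L := by linarith
  have hN2 : (1:ℝ) ≤ (N:ℝ) ^ 2 := one_le_pow₀ hN1
  -- `V ≥ 48 L`
  have hV48 : 48 * L ≤ V := by
    by_contra hc
    push Not at hc
    have h1 : V ^ 3 < (48 * L) ^ 3 := pow_lt_pow_left₀ hc hV0.le (by norm_num)
    have h2 : L ^ 3 ≤ N ^ 2 * L ^ 6 := by
      have h3 : (1:ℝ) ≤ N ^ 2 * L ^ 3 := one_le_mul_of_one_le_of_one_le hN2 (one_le_pow₀ hL)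
      calc L ^ 3 = 1 * L ^ 3 := (one_mul _).symm
        _ ≤ (N ^ 2 * L ^ 3) * L ^ 3 := mul_le_mul_of_nonneg_right h3 (by positivity)
        _ = _ := by ring
    have h4 : (48 * L) ^ 3 = 110592 * L ^ 3 := by ring
    have h5 : 0 < L ^ 3 := by positivity
    nlinarith
  -- `V^2 ≥ 4608 L^4 N`
  have hV2 : 4608 * L ^ 4 * N ≤ V ^ 2 := by
    by_contra hc
    push Not at hc
    have h1 : (V ^ 2) ^ 3 < (4608 * L ^ 4 * N) ^ 3 := pow_lt_pow_left₀ hc (by positivity)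
      (by norm_num)
    have h2 : (10 ^ 6 * N ^ 2 * L ^ 6) ^ 2 ≤ (V ^ 3) ^ 2 :=
      pow_le_pow_left₀ (by positivity) hV 2
    have h3 : (V ^ 2) ^ 3 = (V ^ 3) ^ 2 := by ring
    have h4 : (4608 * L ^ 4 * N) ^ 3 ≤ (10 ^ 6 * N ^ 2 * L ^ 6) ^ 2 := by
      have e1 : (4608 * L ^ 4 * N) ^ 3 = 97844723712 * (L ^ 12 * (N:ℝ) ^ 3) := by ring
      have e2 : (10 ^ 6 * N ^ 2 * L ^ 6) ^ 2 = 10 ^ 12 * (L ^ 12 * (N:ℝ) ^ 4) := by ring
      rw [e1, e2]
      have h5 : L ^ 12 * (N:ℝ) ^ 3 ≤ L ^ 12 * (N:ℝ) ^ 4 := by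
        apply mul_le_mul_of_nonneg_left _ (by positivity)
        exact pow_le_pow_right₀ hN1 (by norm_num)
      have h6 : 0 ≤ L ^ 12 * (N:ℝ) ^ 3 := by positivity
      nlinarith
    linarith
  set z : ℝ := 3072 * N ^ 2 * L ^ 3 / V ^ 2 with hz
  have hz0 : 0 < z := by positivity
  have hR1 : z ≤ (⌈z⌉₊ : ℝ) := Nat.le_ceil z
  have hR2 : (⌈z⌉₊ : ℝ) < z + 1 := Nat.ceil_lt_add_one hz0.le
  set R : ℕ := ⌈z⌉₊ with hR
  have hR0 : (0:ℝ) < R := lt_of_lt_of_le hz0 hR1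
  -- first term
  have hz48 : 48 * L * z ≤ V := by
    rw [hz, mul_div_assoc', div_le_iff₀ (by positivity)]
    have h1 : 48 * L * (3072 * N ^ 2 * L ^ 3) = 147456 * (N ^ 2 * L ^ 4) := by ring
    have h2 : V * V ^ 2 = V ^ 3 := by ring
    rw [h1, h2]
    have h3 : (N:ℝ) ^ 2 * L ^ 4 ≤ N ^ 2 * L ^ 6 :=
      mul_le_mul_of_nonneg_left (pow_le_pow_right₀ hL (by norm_num)) (by positivity)
    have h4 : 0 ≤ (N:ℝ) ^ 2 * L ^ 4 := by positivity
    nlinarith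
  have t1 : 2 * (2 * R * lam) ≤ V / 2 := by
    have h1 : (R:ℝ) * lam ≤ (z + 1) * (3 * L) :=
      mul_le_mul hR2.le hlam hlam0 (by positivity)
    nlinarith
  have t2 : 2 * Real.sqrt (8 * mu * lam) ≤ V / 2 := by
    have h1 : Real.sqrt (8 * mu * lam) ≤ V / 4 := by
      rw [Real.sqrt_le_left (by positivity)]
      have h2 : mu * lam ≤ (12 * L ^ 3 * N) * (3 * L) := mul_le_mul hmu hlam hlam0 (by positivity)
      nlinarith
    linarith
  have t3 : 2 * (4 * Real.sqrt (N * mu / R)) ≤ V / 2 := by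
    have h1 : Real.sqrt (N * mu / R) ≤ V / 16 := by
      rw [Real.sqrt_le_left (by positivity), div_le_iff₀ hR0]
      have h2 : (N:ℝ) * mu ≤ N * (12 * L ^ 3 * N) := mul_le_mul_of_nonneg_left hmu (by positivity)
      have h3 : (V / 16) ^ 2 * z ≤ (V / 16) ^ 2 * R := mul_le_mul_of_nonneg_left hR1 (by positivity)
      have h4 : (V / 16) ^ 2 * z = N * (12 * L ^ 3 * N) := by
        rw [hz]
        field_simp
        ring
      linarith
    linarith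
  have hv : 2 * vv N mu lam R ≤ V / 2 := by
    unfold vv
    have : max (2 * R * lam) (max (Real.sqrt (8 * mu * lam)) (4 * Real.sqrt (N * mu / R))) ≤
        V / 4 := by
      refine max_le (by linarith) (max_le (by linarith) (by linarith))
    linarith
  linarith

end Pool.Agent.TH705.DL.Rnd
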