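import Mathlib
import Pool.Agent.TH705.DL.RandC

set_option autoImplicit false

/-!
# Generic frequencies: the theorem
-/

namespace Pool.Agent.TH705.DL.Rnd

open Finset

theorem cpow_eq {n : ℕ} (hn : 1 ≤ n) (t : ℝ) :
    (n : ℂ) ^ (-((t : ℂ) * Complex.I)) = (starRingEnd ℂ) (ph t n) := by
  have hn0 : (n : ℂ) ≠ 0 := by exact_mod_cast (by omega : n ≠ 0)
  rw [ph_conj]
  unfold ph
  rw [Complex.cpow_def_of_ne_zero hn0, ← Complex.natCast_log]
  congr 1
  push_cast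
  ring

theorem norm_DX {N H : ℕ} (x : Fin N → Fin H) (a : Fin N → ℂ) (t : ℝ) :
    ‖∑ j, a j * (((j:ℕ) * H + (x j : ℕ) + 1 : ℕ) : ℂ) ^ (-((t : ℂ) * Complex.I))‖ =
      ‖DX x (fun j => (starRingEnd ℂ) (a j)) t‖ := by
  have h : ∑ j, a j * (((j:ℕ) * H + (x j : ℕ) + 1 : ℕ) : ℂ) ^ (-((t : ℂ) * Complex.I)) =
      (starRingEnd ℂ) (DX x (fun j => (starRingEnd ℂ) (a j)) t) := by
    unfold DX
    rw [map_sum]
    apply sum_congr rfl
    intro j _
    rw [map_mul, Complex.conj_conj, cpow_eq (by omega)]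
    rfl
  rw [h, Complex.norm_conj]

open Classical in
theorem main {N H : ℕ} (hN : 1 ≤ N) (hH : 1 ≤ H) (T δ : ℝ) (hT : 0 ≤ T) (hTN : T ≤ N * H)
    (hδ : 0 < δ) (hδ1 : δ ≤ 1) :
    ((univ.filter (fun x : Fin N → Fin H => ¬ ∀ (a : Fin N → ℂ) (V : ℝ) (S : Finset ℝ),
      (∀ j, ‖a j‖ ≤ 1) → 0 < V → (∀ t ∈ S, 0 ≤ t ∧ t ≤ T) →
      (∀ t ∈ S, ∀ u ∈ S, t ≠ u → 1 ≤ |t - u|) →
      (∀ t ∈ S, V ≤ ‖∑ j, a j *
        (((j:ℕ) * H + (x j : ℕ) + 1 : ℕ) : ℂ) ^ (-((t : ℂ) * Complex.I))‖) →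
      10 ^ 6 * N ^ 2 * (1 + Real.log (N * H / δ)) ^ 6 ≤ V ^ 3 →
      (S.card : ℝ) ≤ 6144 * N ^ 2 * (1 + Real.log (N * H / δ)) ^ 3 / V ^ 2)).card : ℝ) ≤
      δ * (H:ℝ) ^ N := by
  have hH0 : (0:ℝ) < H := by exact_mod_cast hH
  have hN0 : (0:ℝ) < N := by exact_mod_cast hN
  set M := N * H with hM
  have hM1 : 1 ≤ M := Nat.one_le_iff_ne_zero.2 (by positivity)
  have hM1' : (1:ℝ) ≤ M := by exact_mod_cast hM1
  have hM0 : (0:ℝ) < M := by linarith
  have hMc : (M:ℝ) = N * H := by rw [hM]; push_cast; ring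
  set L : ℝ := 1 + Real.log (N * H / δ) with hL
  rw [← hMc] at hL hTN
  have hMδ : (M:ℝ) ≤ M / δ := by
    rw [le_div_iff₀ hδ]
    nlinarith
  have hlog : Real.log M ≤ Real.log (M / δ) := Real.log_le_log hM0 hMδ
  have hlog0 : 0 ≤ Real.log (M:ℝ) := Real.log_nonneg hM1'
  have hL1 : 1 ≤ L := by linarith
  have hLM : 1 + Real.log M ≤ L := by linarith
  set mu : ℝ := KK M T / H with hmu
  have hKK := KK_le hM1 hTN hLM
  have hmu1 : mu ≤ 12 * L ^ 3 * N := by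
    rw [hmu, div_le_iff₀ hH0]
    refine hKK.trans (le_of_eq ?_)
    rw [hMc]; ring
  have hmu0 : 0 ≤ mu := by
    rw [hmu]
    apply div_nonneg _ hH0.le
    unfold KK
    have : 0 ≤ 4 * (M:ℝ) * (1 + Real.log M) := by positivity
    have h2 : 0 ≤ T + 1 - 0 + 4 * (M:ℝ) * (1 + Real.log M) := by linarith
    positivity
  set lam : ℝ := Real.log (16 * M ^ 3 / δ) with hlam
  have hlam1 : lam ≤ 3 * L := by
    have h1 : 16 * (M:ℝ) ^ 3 / δ ≤ 16 * (M / δ) ^ 3 := by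
      rw [div_pow, mul_div_assoc]
      apply mul_le_mul_of_nonneg_left _ (by norm_num)
      apply div_le_div_of_nonneg_left (by positivity) (by positivity)
      calc δ ^ 3 = δ * (δ * δ) := by ring
        _ ≤ δ * 1 := mul_le_mul_of_nonneg_left (by nlinarith) hδ.le
        _ = δ := mul_one δ
    have h2 : lam ≤ Real.log (16 * (M / δ) ^ 3) := Real.log_le_log (by positivity) h1
    rw [Real.log_mul (by norm_num) (by positivity), Real.log_pow] at h2
    have h3 : Real.log 16 ≤ 3 := by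
      have : (16:ℝ) = 2 ^ 4 := by norm_num
      rw [this, Real.log_pow]
      have := Real.log_two_lt_d9
      push_cast
      linarith
    rw [hL]
    push_cast at h2
    linarith
  have hlam0 : 0 ≤ lam := by
    apply Real.log_nonneg
    rw [le_div_iff₀ hδ]
    have : (1:ℝ) ≤ (M:ℝ) ^ 3 := one_le_pow₀ hM1'
    linarith
  set G := GG (M ^ 2) T with hG
  have hGc : 2 * (G.card : ℝ) * Real.exp (-lam) ≤ δ := by
    have h1 := GG_card (M ^ 2) T hT
    rw [← hG] at h1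
    push_cast at h1
    have h2 : (T * (M:ℝ) ^ 2 + 1) * 4 ≤ 8 * (M:ℝ) ^ 3 := by
      have h3 : T * (M:ℝ) ^ 2 ≤ M * (M:ℝ) ^ 2 := mul_le_mul_of_nonneg_right hTN (by positivity)
      have h4 : (1:ℝ) ≤ (M:ℝ) ^ 3 := one_le_pow₀ hM1'
      nlinarith
    have h3 : Real.exp (-lam) = δ / (16 * M ^ 3) := by
      rw [Real.exp_neg, hlam, Real.exp_log (by positivity), inv_div]
    rw [h3]
    calc 2 * (G.card : ℝ) * (δ / (16 * M ^ 3)) ≤ 2 * (8 * (M:ℝ) ^ 3) * (δ / (16 * M ^ 3)) := by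
          apply mul_le_mul_of_nonneg_right _ (by positivity)
          linarith
      _ = δ := by field_simp; ring
  have hv0 : ∀ R : ℕ, 1 ≤ R → 0 < vv N mu lam R := by
    intro R hR
    have hR0 : (0:ℝ) < R := by exact_mod_cast hR
    have hlampos : 0 < lam := by
      apply Real.log_pos
      rw [lt_div_iff₀ hδ]
      have : (1:ℝ) ≤ (M:ℝ) ^ 3 := one_le_pow₀ hM1'
      linarith
    exact lt_of_lt_of_le (by positivity) (le_max_left _ _)
  have h1 : ∀ R : ℕ, 1 ≤ R → 2 * R * lam ≤ vv N mu lam R := fun R _ => le_max_left _ _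
  have h2 : ∀ R : ℕ, 1 ≤ R → 8 * mu * lam ≤ vv N mu lam R ^ 2 := by
    intro R hR
    have h3 : Real.sqrt (8 * mu * lam) ≤ vv N mu lam R :=
      (le_max_left _ _).trans (le_max_right _ _)
    have h4 := pow_le_pow_left₀ (Real.sqrt_nonneg _) h3 2
    rwa [Real.sq_sqrt (by positivity)] at h4
  have h3 : ∀ R : ℕ, 1 ≤ R → 16 * N * mu ≤ R * vv N mu lam R ^ 2 := by
    intro R hR
    have hR0 : (0:ℝ) < R := by exact_mod_cast hR
    have h3 : 4 * Real.sqrt (N * mu / R) ≤ vv N mu lam R :=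
      (le_max_right _ _).trans (le_max_right _ _)
    have h4 := pow_le_pow_left₀ (by positivity) h3 2
    rw [mul_pow, Real.sq_sqrt (by positivity)] at h4
    have h5 : (R:ℝ) * (4 ^ 2 * (N * mu / R)) = 16 * N * mu := by field_simp; ring
    rw [← h5]
    exact mul_le_mul_of_nonneg_left h4 hR0.le
  have hun := union hN hH hT G lam δ hδ1 hGc (vv N mu lam) hv0 h1 h2 h3
  refine le_trans ?_ hun
  have hsub : (univ.filter (fun x : Fin N → Fin H => ¬ ∀ (a : Fin N → ℂ) (V : ℝ) (S : Finset ℝ),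
      (∀ j, ‖a j‖ ≤ 1) → 0 < V → (∀ t ∈ S, 0 ≤ t ∧ t ≤ T) →
      (∀ t ∈ S, ∀ u ∈ S, t ≠ u → 1 ≤ |t - u|) →
      (∀ t ∈ S, V ≤ ‖∑ j, a j *
        (((j:ℕ) * H + (x j : ℕ) + 1 : ℕ) : ℂ) ^ (-((t : ℂ) * Complex.I))‖) →
      10 ^ 6 * N ^ 2 * L ^ 6 ≤ V ^ 3 →
      (S.card : ℝ) ≤ 6144 * N ^ 2 * L ^ 3 / V ^ 2)) ⊆
      (univ.filter (fun x : Fin N → Fin H =>
        ¬ ∀ A ⊆ G, Adm T A → ∑ j, ‖PA A (idx x j)‖ < A.card * vv N mu lam A.card)) := by
    intro x hx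
    rw [mem_filter] at hx ⊢
    refine ⟨mem_univ _, fun hgood => hx.2 ?_⟩
    intro a V S ha hV0 hST hsep hV hVL
    have hnum := numbers hN hL1 hmu0 hmu1 hlam0 hlam1 hV0 hVL
    set z : ℝ := 3072 * N ^ 2 * L ^ 3 / V ^ 2 with hz
    have hz0 : 0 < z := by positivity
    have hR1 : 1 ≤ ⌈z⌉₊ := Nat.one_le_iff_ne_zero.2 (by
      rw [Ne, Nat.ceil_eq_zero, not_le]; exact hz0)
    -- each parity class is small
    have hclass : ∀ r : ℕ, (((S.filter (fun t => ⌊t⌋₊ % 2 = r)).card : ℕ) : ℝ) ≤ z := by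
      intro r
      by_contra hc
      push Not at hc
      have hc2 : ⌈z⌉₊ ≤ (S.filter (fun t => ⌊t⌋₊ % 2 = r)).card := Nat.ceil_le.2 hc.le
      obtain ⟨S₁, hS₁, hcard⟩ := exists_subset_card_eq hc2
      have hmem : ∀ t ∈ S₁, t ∈ S ∧ ⌊t⌋₊ % 2 = r := fun t ht => by
        have := hS₁ ht
        rwa [mem_filter] at this
      have hne : S₁.Nonempty := by
        rw [← card_pos, hcard]
        omega
      have h := one_class hN hH hgood (a := fun j => (starRingEnd ℂ) (a j))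
        (fun j => by rw [Complex.norm_conj]; exact ha j) (V := V) hne
        (fun t ht => hST t (hmem t ht).1)
        (fun t ht u hu => hsep t (hmem t ht).1 u (hmem u hu).1)
        (fun t ht u hu => by rw [(hmem t ht).2, (hmem u hu).2])
        (fun t ht => by rw [← norm_DX]; exact hV t (hmem t ht).1)
      rw [hcard] at h
      linarith
    have hsplit : (S.card : ℝ) ≤ ((S.filter (fun t => ⌊t⌋₊ % 2 = 0)).card : ℝ) +
        ((S.filter (fun t => ⌊t⌋₊ % 2 = 1)).card : ℝ) := by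
      have h : S ⊆ S.filter (fun t => ⌊t⌋₊ % 2 = 0) ∪ S.filter (fun t => ⌊t⌋₊ % 2 = 1) := by
        intro t ht
        rw [mem_union, mem_filter, mem_filter]
        rcases Nat.mod_two_eq_zero_or_one ⌊t⌋₊ with h | h
        · exact Or.inl ⟨ht, h⟩
        · exact Or.inr ⟨ht, h⟩
      have h2 := (card_le_card h).trans (card_union_le _ _)
      exact_mod_cast h2
    have e : 6144 * (N:ℝ) ^ 2 * L ^ 3 / V ^ 2 = z + z := by rw [hz]; ring
    rw [e]
    linarith [hclass 0, hclass 1]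
  rw [hMc] at hL
  exact_mod_cast card_le_card hsub

end Pool.Agent.TH705.DL.Rnd
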