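import Mathlib
import Pool.Agent.TH705.DL.ChA
import Pool.Agent.TH705.DL.RandD

set_option autoImplicit false

/-!
# Generic frequencies for given sets of points, all coefficients
-/

namespace Pool.Agent.TH705.DL.Rnd

open Finset
open scoped InnerProductSpace

/-- the vector of an integer -/
noncomputable def wv (S : Finset ℝ) (n : ℕ) : EuclideanSpace ℂ S :=
  WithLp.toLp 2 (fun t : S => ph t n)

theorem wv_norm (S : Finset ℝ) (n : ℕ) : ‖wv S n‖ ^ 2 = S.card := by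
  rw [EuclideanSpace.norm_sq_eq]
  simp [wv, ph_norm]

/-- extension by zero -/
noncomputable def ext1 {S : Finset ℝ} (v : EuclideanSpace ℂ S) (t : ℝ) : ℂ :=
  if h : t ∈ S then v ⟨t, h⟩ else 0

theorem norm_ext1 {S : Finset ℝ} (v : EuclideanSpace ℂ S) : ∑ t ∈ S, ‖ext1 v t‖ ^ 2 = ‖v‖ ^ 2 := by
  rw [EuclideanSpace.norm_sq_eq, ← Finset.sum_coe_sort S]
  apply Finset.sum_congr rfl
  intro t _
  have : ext1 v t = v t := by
    unfold ext1
    rw [dif_pos t.2]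
  rw [this]

theorem inner_wv {S : Finset ℝ} (n : ℕ) (v : EuclideanSpace ℂ S) :
    ⟪v, wv S n⟫_ℂ = ∑ t ∈ S, (starRingEnd ℂ) (ext1 v t) * ph t n := by
  rw [PiLp.inner_apply, ← Finset.sum_coe_sort S]
  apply Finset.sum_congr rfl
  intro t _
  have : ext1 v t = v t := by
    unfold ext1
    rw [dif_pos t.2]
  rw [this]
  simp [wv, mul_comm]

/-- second moment over all integers -/
theorem sec_mom {N H : ℕ} (hN : 1 ≤ N) (hH : 1 ≤ H) {T : ℝ} (hT : 0 ≤ T) (S : Finset ℝ)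
    (hS : Sep S) (y : ℝ) (hy : ∀ t ∈ S, y ≤ t ∧ t ≤ y + T) (v : EuclideanSpace ℂ S) :
    ∑ j : Fin N, ∑ x : Fin H, ‖⟪wv S ((j:ℕ) * H + x + 1), v⟫_ℂ‖ ^ 2 ≤
      KK (N * H) T * ‖v‖ ^ 2 := by
  have hM1 : 1 ≤ N * H := Nat.one_le_iff_ne_zero.2 (by positivity)
  have hM1' : (1:ℝ) ≤ (N * H : ℕ) := by exact_mod_cast hM1
  have hL : 0 ≤ Real.log (N * H : ℕ) := Real.log_nonneg hM1'
  have hK : 0 ≤ KK (N * H) T := by
    unfold KK
    have : 0 ≤ 4 * ((N * H : ℕ):ℝ) * (1 + Real.log (N * H : ℕ)) := by positivity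
    have h2 : 0 ≤ T + 1 - 0 + 4 * ((N * H : ℕ):ℝ) * (1 + Real.log (N * H : ℕ)) := by linarith
    positivity
  have h1 : ∀ a : ℕ → ℂ, ∑ t ∈ S, ‖DP (N * H) a t‖ ^ 2 ≤
      KK (N * H) T * ∑ n ∈ Icc 1 (N * H), ‖a n‖ ^ 2 := by
    intro a
    have := block (N * H) hM1 a S hS y (y + T) (by linarith) hy
    unfold KK
    refine this.trans (le_of_eq ?_)
    ring
  have h2 := dual hK h1 (fun t => (starRingEnd ℂ) (ext1 v t))
  have h3 : ∑ t ∈ S, ‖(starRingEnd ℂ) (ext1 v t)‖ ^ 2 = ‖v‖ ^ 2 := by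
    rw [← norm_ext1 v]
    apply sum_congr rfl
    intro t _
    rw [Complex.norm_conj]
  rw [h3] at h2
  refine le_trans (le_of_eq ?_) h2
  rw [← reindex N H (fun n => ‖∑ t ∈ S, (starRingEnd ℂ) (ext1 v t) * ph t n‖ ^ 2)]
  apply sum_congr rfl
  intro j _
  apply sum_congr rfl
  intro x _
  rw [norm_inner_symm, inner_wv]

/-- duality -/
theorem dual2 {N H : ℕ} (x : Fin N → Fin H) (S : Finset ℝ) {K : ℝ} (hK : 0 ≤ K)
    (h : ∀ v : EuclideanSpace ℂ S, ‖v‖ = 1 → ∑ j, ‖⟪wv S (idx x j), v⟫_ℂ‖ ^ 2 < K)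
    (a : Fin N → ℂ) : ∑ t ∈ S, ‖DX x a t‖ ^ 2 ≤ K * ∑ j, ‖a j‖ ^ 2 := by
  set v : EuclideanSpace ℂ S := WithLp.toLp 2 (fun t : S => DX x a t) with hv
  have hext : ∀ t ∈ S, ext1 v t = DX x a t := by
    intro t ht
    unfold ext1
    rw [dif_pos ht]
  set Q := ∑ t ∈ S, ‖DX x a t‖ ^ 2 with hQ
  have hQv : ‖v‖ ^ 2 = Q := by
    rw [← norm_ext1 v]
    apply sum_congr rfl
    intro t ht
    rw [hext t ht]
  have hQ0 : 0 ≤ Q := sum_nonneg fun _ _ => by positivity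
  have ha0 : 0 ≤ ∑ j, ‖a j‖ ^ 2 := sum_nonneg fun _ _ => by positivity
  rcases hQ0.eq_or_lt with h0 | h0
  · rw [← h0]
    positivity
  · have hv0 : 0 < ‖v‖ := by
      rcases (norm_nonneg v).eq_or_lt with h1 | h1
      · rw [← h1] at hQv
        norm_num at hQv
        linarith
      · exact h1
    -- scaling
    have h1 : ∑ j, ‖⟪wv S (idx x j), v⟫_ℂ‖ ^ 2 ≤ K * Q := by
      have h2 := h (((‖v‖⁻¹ : ℝ) : ℂ) • v) (by
        rw [norm_smul, Complex.norm_real, norm_inv, norm_norm, inv_mul_cancel₀ hv0.ne'])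
      have h3 : ∀ j, ‖⟪wv S (idx x j), ((‖v‖⁻¹ : ℝ) : ℂ) • v⟫_ℂ‖ ^ 2 =
          (‖v‖ ^ 2)⁻¹ * ‖⟪wv S (idx x j), v⟫_ℂ‖ ^ 2 := by
        intro j
        rw [inner_smul_right, norm_mul, Complex.norm_real, norm_inv, norm_norm, mul_pow, inv_pow]
      simp only [h3] at h2
      rw [← mul_sum, hQv, inv_mul_lt_iff₀ h0] at h2
      linarith
    -- duality
    have h4 : (Q : ℂ) = ∑ j, a j * ⟪v, wv S (idx x j)⟫_ℂ := by
      rw [hQ]
      push_cast
      have h5 : ∀ j, ⟪v, wv S (idx x j)⟫_ℂ =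
          ∑ t ∈ S, (starRingEnd ℂ) (DX x a t) * ph t (idx x j) := by
        intro j
        rw [inner_wv]
        apply sum_congr rfl
        intro t ht
        rw [hext t ht]
      simp only [h5, mul_sum]
      rw [sum_comm]
      apply sum_congr rfl
      intro t _
      rw [← Complex.conj_mul']
      have hD : (starRingEnd ℂ) (DX x a t) * DX x a t =
          ∑ j, (starRingEnd ℂ) (DX x a t) * (a j * ph t (idx x j)) := by
        rw [← mul_sum]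
        rfl
      rw [hD]
      apply sum_congr rfl
      intro j _
      ring
    have h6 : Q ≤ ∑ j, ‖a j‖ * ‖⟪wv S (idx x j), v⟫_ℂ‖ := by
      have h7 : Q ≤ ‖(Q : ℂ)‖ := by
        rw [Complex.norm_real]
        exact le_abs_self _
      refine h7.trans ?_
      rw [h4]
      refine (norm_sum_le _ _).trans (le_of_eq ?_)
      apply sum_congr rfl
      intro j _
      rw [norm_mul, norm_inner_symm]
    have h8 := sum_mul_sq_le_sq_mul_sq univ (fun j => ‖a j‖)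
      (fun j => ‖⟪wv S (idx x j), v⟫_ℂ‖)
    have h9 : Q ^ 2 ≤ (∑ j, ‖a j‖ ^ 2) * (K * Q) := by
      refine (pow_le_pow_left₀ hQ0 h6 2).trans (h8.trans ?_)
      exact mul_le_mul_of_nonneg_left h1 ha0
    nlinarith

open Classical in
/-- one set -/
theorem oneset {N H : ℕ} (hN : 1 ≤ N) (hH : 1 ≤ H) {T : ℝ} (hT : 0 ≤ T) (S : Finset ℝ)
    (hne : S.Nonempty) (hS : Sep S) (y : ℝ) (hy : ∀ t ∈ S, y ≤ t ∧ t ≤ y + T) {K e : ℝ}
    (he : 0 < e) (he1 : e ≤ 1)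
    (hKe : 2 * (KK (N * H) T / H) + 10 * S.card * Real.log (S.card / e) ≤ K) :
    ((univ.filter (fun x : Fin N → Fin H => ¬ ∀ a : Fin N → ℂ,
      ∑ t ∈ S, ‖DX x a t‖ ^ 2 ≤ K * ∑ j, ‖a j‖ ^ 2)).card : ℝ) ≤ e * (H:ℝ) ^ N := by
  have hH0 : (0:ℝ) < H := by exact_mod_cast hH
  have : Nonempty (Fin H) := ⟨⟨0, hH⟩⟩
  have hR1 : (1:ℝ) ≤ S.card := by exact_mod_cast hne.card_pos
  have hR : (0:ℝ) < S.card := by linarith
  have hM1 : 1 ≤ N * H := Nat.one_le_iff_ne_zero.2 (by positivity)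
  have hM1' : (1:ℝ) ≤ (N * H : ℕ) := by exact_mod_cast hM1
  have hL : 0 ≤ Real.log (N * H : ℕ) := Real.log_nonneg hM1'
  have hKK : 0 ≤ KK (N * H) T := by
    unfold KK
    have : 0 ≤ 4 * ((N * H : ℕ):ℝ) * (1 + Real.log (N * H : ℕ)) := by positivity
    have h2 : 0 ≤ T + 1 - 0 + 4 * ((N * H : ℕ):ℝ) * (1 + Real.log (N * H : ℕ)) := by linarith
    positivity
  have hlog : 0 ≤ Real.log (S.card / e) := by
    apply Real.log_nonneg
    rw [le_div_iff₀ he]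
    linarith
  have hK : 0 ≤ K := by
    refine le_trans ?_ hKe
    positivity
  have h1 := Pool.Agent.TH705.Ch.chernoff (V := EuclideanSpace ℂ S) (ι := Fin N) (Ω := Fin H)
    (R := S.card) (mu := KK (N * H) T / H) (K := K) hR
    (fun j x => wv S ((j:ℕ) * H + x + 1)) (fun j x => (wv_norm S _).le) (by
      intro v
      refine (sec_mom hN hH hT S hS y hy v).trans (le_of_eq ?_)
      rw [Fintype.card_fin]
      field_simp)
  have h2 : (univ.filter (fun x : Fin N → Fin H => ¬ ∀ a : Fin N → ℂ,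
      ∑ t ∈ S, ‖DX x a t‖ ^ 2 ≤ K * ∑ j, ‖a j‖ ^ 2)) ⊆
      (univ.filter (fun x : Fin N → Fin H => ∃ v : EuclideanSpace ℂ S, ‖v‖ = 1 ∧
        K ≤ ∑ j : Fin N, ‖⟪wv S ((j:ℕ) * H + x j + 1), v⟫_ℂ‖ ^ 2)) := by
    intro x hx
    rw [mem_filter] at hx ⊢
    refine ⟨mem_univ _, ?_⟩
    by_contra hc
    push Not at hc
    exact hx.2 (dual2 x S hK hc)
  have h3 : ((univ.filter (fun x : Fin N → Fin H => ¬ ∀ a : Fin N → ℂ,
      ∑ t ∈ S, ‖DX x a t‖ ^ 2 ≤ K * ∑ j, ‖a j‖ ^ 2)).card : ℝ) ≤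
      ((univ.filter (fun x : Fin N → Fin H => ∃ v : EuclideanSpace ℂ S, ‖v‖ = 1 ∧
        K ≤ ∑ j : Fin N, ‖⟪wv S ((j:ℕ) * H + x j + 1), v⟫_ℂ‖ ^ 2)).card : ℝ) := by
    exact_mod_cast card_le_card h2
  refine h3.trans (h1.trans ?_)
  rw [finrank_euclideanSpace, Fintype.card_fin, Fintype.card_fin, Fintype.card_coe]
  have h4 : (S.card : ℝ) * Real.exp ((2 * (KK (N * H) T / H) - K) / (10 * S.card)) ≤ e := by
    have h5 : (2 * (KK (N * H) T / H) - K) / (10 * S.card) ≤ - Real.log (S.card / e) := by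
      rw [div_le_iff₀ (by positivity)]
      linarith
    calc (S.card : ℝ) * Real.exp ((2 * (KK (N * H) T / H) - K) / (10 * S.card))
        ≤ S.card * Real.exp (- Real.log (S.card / e)) :=
          mul_le_mul_of_nonneg_left (Real.exp_le_exp.2 h5) hR.le
      _ = e := by
          rw [Real.exp_neg, Real.exp_log (by positivity)]
          field_simp
  have h5 : (0:ℝ) < (H:ℝ) ^ N := by positivity
  nlinarith

open Classical in
/-- a family of sets -/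
theorem supports {N H : ℕ} (hN : 1 ≤ N) (hH : 1 ≤ H) (F : Finset (Finset ℝ)) (δ : ℝ)
    (hδ : 0 < δ) (hδ1 : δ ≤ 1)
    (hF : ∀ S ∈ F, S.Nonempty ∧ (∀ t ∈ S, ∀ u ∈ S, t ≠ u → 1 ≤ |t - u|) ∧
      ∃ y : ℝ, ∀ t ∈ S, y ≤ t ∧ t ≤ y + N * H) :
    ((univ.filter (fun x : Fin N → Fin H => ¬ ∀ S ∈ F, ∀ a : Fin N → ℂ,
      ∑ t ∈ S, ‖∑ j, a j *
        (((j:ℕ) * H + (x j : ℕ) + 1 : ℕ) : ℂ) ^ (-((t : ℂ) * Complex.I))‖ ^ 2 ≤
      (24 * (1 + Real.log (N * H)) ^ 3 * N + 10 * S.card * Real.log (S.card * F.card / δ)) *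
        ∑ j, ‖a j‖ ^ 2)).card : ℝ) ≤ δ * (H:ℝ) ^ N := by
  have hH0 : (0:ℝ) < H := by exact_mod_cast hH
  rcases F.eq_empty_or_nonempty with hF0 | hF0
  · subst hF0
    simp
    positivity
  have hFc : (1:ℝ) ≤ F.card := by exact_mod_cast hF0.card_pos
  have hFc0 : (0:ℝ) < F.card := by linarith
  have hM1 : 1 ≤ N * H := Nat.one_le_iff_ne_zero.2 (by positivity)
  have hMc : ((N * H : ℕ):ℝ) = N * H := by push_cast; ring
  set P : Finset ℝ → (Fin N → Fin H) → Prop := fun S x => ¬ ∀ a : Fin N → ℂ,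
      ∑ t ∈ S, ‖DX x a t‖ ^ 2 ≤ (24 * (1 + Real.log (N * H)) ^ 3 * N +
        10 * S.card * Real.log (S.card * F.card / δ)) * ∑ j, ‖a j‖ ^ 2 with hP
  have h1 : (univ.filter (fun x : Fin N → Fin H => ¬ ∀ S ∈ F, ∀ a : Fin N → ℂ,
      ∑ t ∈ S, ‖∑ j, a j *
        (((j:ℕ) * H + (x j : ℕ) + 1 : ℕ) : ℂ) ^ (-((t : ℂ) * Complex.I))‖ ^ 2 ≤
      (24 * (1 + Real.log (N * H)) ^ 3 * N + 10 * S.card * Real.log (S.card * F.card / δ)) *
        ∑ j, ‖a j‖ ^ 2)) ⊆ F.biUnion (fun S => univ.filter (fun x => P S x)) := by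
    intro x hx
    rw [mem_filter] at hx
    have hx2 := hx.2
    push Not at hx2
    obtain ⟨S, hS, a, ha⟩ := hx2
    rw [mem_biUnion]
    refine ⟨S, hS, ?_⟩
    rw [mem_filter]
    refine ⟨mem_univ _, ?_⟩
    intro hc
    have h2 := hc (fun j => (starRingEnd ℂ) (a j))
    simp only [← norm_DX, Complex.norm_conj] at h2
    linarith
  have h2 : ∀ S ∈ F, ((univ.filter (fun x => P S x)).card : ℝ) ≤ δ / F.card * (H:ℝ) ^ N := by
    intro S hS
    obtain ⟨hne, hsep, y, hy⟩ := hF S hS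
    refine oneset hN hH (T := N * H) (by positivity) S hne hsep y hy (by positivity) ?_ ?_
    · rw [div_le_one hFc0]
      linarith
    · have h3 := KK_le hM1 (T := N * H) (L := 1 + Real.log (N * H)) (by rw [hMc])
        (by rw [hMc])
      have h4 : KK (N * H) (N * H) / H ≤ 12 * (1 + Real.log (N * H)) ^ 3 * N := by
        rw [div_le_iff₀ hH0]
        refine h3.trans (le_of_eq ?_)
        rw [hMc]
        ring
      have h5 : (S.card : ℝ) / (δ / F.card) = S.card * F.card / δ := by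
        field_simp
      rw [h5]
      linarith
  have h3 : ((univ.filter (fun x : Fin N → Fin H => ¬ ∀ S ∈ F, ∀ a : Fin N → ℂ,
      ∑ t ∈ S, ‖∑ j, a j *
        (((j:ℕ) * H + (x j : ℕ) + 1 : ℕ) : ℂ) ^ (-((t : ℂ) * Complex.I))‖ ^ 2 ≤
      (24 * (1 + Real.log (N * H)) ^ 3 * N + 10 * S.card * Real.log (S.card * F.card / δ)) *
        ∑ j, ‖a j‖ ^ 2)).card : ℝ) ≤ ∑ S ∈ F, ((univ.filter (fun x => P S x)).card : ℝ) := by
    exact_mod_cast (card_le_card h1).trans card_biUnion_le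
  refine h3.trans ((sum_le_sum h2).trans (le_of_eq ?_))
  rw [sum_const, nsmul_eq_mul]
  field_simp

end Pool.Agent.TH705.DL.Rnd
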