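import Mathlib
import Pool.Agent.TH705.DL.AW
import Pool.Agent.TH705.DL.Block

set_option autoImplicit false

/-!
# Independent translations of the pieces of a set of points
-/

namespace Pool.Agent.TH705.DL

open Finset MeasureTheory Pool.Agent.TH705.AW
open scoped InnerProductSpace ENNReal

/-- the coefficient space -/
abbrev VV (M : ℕ) := EuclideanSpace ℂ (Icc 1 M)

/-- the vector of a point -/
noncomputable def vec (M : ℕ) (t : ℝ) : VV M :=
  WithLp.toLp 2 (fun n : Icc 1 M => (starRingEnd ℂ) (ph t n))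

/-- extension by zero -/
noncomputable def ext0 {M : ℕ} (v : VV M) (n : ℕ) : ℂ := if h : n ∈ Icc 1 M then v ⟨n, h⟩ else 0

theorem inner_vec {M : ℕ} (t : ℝ) (v : VV M) : ⟪vec M t, v⟫_ℂ = DP M (ext0 v) t := by
  rw [PiLp.inner_apply, DP, ← Finset.sum_coe_sort (Icc 1 M)]
  apply Finset.sum_congr rfl
  intro n _
  have : ext0 v n = v n := by
    unfold ext0
    rw [dif_pos n.2]
  rw [this]
  simp [vec]

theorem norm_ext0 {M : ℕ} (v : VV M) : ∑ n ∈ Icc 1 M, ‖ext0 v n‖ ^ 2 = ‖v‖ ^ 2 := by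
  rw [EuclideanSpace.norm_sq_eq, ← Finset.sum_coe_sort (Icc 1 M)]
  apply Finset.sum_congr rfl
  intro n _
  have : ext0 v n = v n := by
    unfold ext0
    rw [dif_pos n.2]
  rw [this]

theorem vec_cont (M : ℕ) : Continuous (vec M) := by
  unfold vec
  apply (PiLp.continuous_toLp 2 _).comp
  apply continuous_pi
  intro n
  exact Complex.continuous_conj.comp (ph_cont n)

/-- the rank one operator of a point -/
noncomputable def XX (M : ℕ) (t : ℝ) : VV M →L[ℂ] VV M :=
  (innerSL ℂ (vec M t)).smulRight (vec M t)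

theorem XX_apply {M : ℕ} (t : ℝ) (v : VV M) : XX M t v = ⟪vec M t, v⟫_ℂ • vec M t := rfl

theorem XX_cont (M : ℕ) : Continuous (XX M) := by
  have h := vec_cont M
  unfold XX
  have h1 : Continuous (fun t => innerSL ℂ (vec M t)) := (innerSL ℂ).continuous.comp h
  exact ((ContinuousLinearMap.smulRightL ℂ (VV M) (VV M)).continuous₂).comp (h1.prodMk h)

theorem XX_inner {M : ℕ} (t : ℝ) (v w : VV M) :
    ⟪XX M t v, w⟫_ℂ = (starRingEnd ℂ) (DP M (ext0 v) t) * DP M (ext0 w) t := by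
  rw [XX_apply, inner_smul_left, inner_vec, inner_vec]

theorem XX_inner' {M : ℕ} (t : ℝ) (v w : VV M) :
    ⟪v, XX M t w⟫_ℂ = (starRingEnd ℂ) (DP M (ext0 v) t) * DP M (ext0 w) t := by
  rw [← inner_conj_symm, XX_inner, map_mul, Complex.conj_conj, mul_comm]

/-- the operator of a piece translated by `u` -/
noncomputable def YY (M : ℕ) (B : ℝ) (P : Finset ℝ) (u : ℝ) : VV M →L[ℂ] VV M :=
  ((B⁻¹ : ℝ) : ℂ) • ∑ p ∈ P, XX M (p + u)

theorem YY_cont (M : ℕ) (B : ℝ) (P : Finset ℝ) : Continuous (YY M B P) := by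
  unfold YY
  have := XX_cont M
  fun_prop

theorem YY_inner {M : ℕ} (B : ℝ) (P : Finset ℝ) (u : ℝ) (v w : VV M) :
    ⟪YY M B P u v, w⟫_ℂ = ((B⁻¹ : ℝ) : ℂ) *
      ∑ p ∈ P, (starRingEnd ℂ) (DP M (ext0 v) (p + u)) * DP M (ext0 w) (p + u) := by
  unfold YY
  rw [ContinuousLinearMap.smul_apply, inner_smul_left, Complex.conj_ofReal,
    ContinuousLinearMap.sum_apply, sum_inner]
  simp only [XX_inner]

theorem YY_inner' {M : ℕ} (B : ℝ) (P : Finset ℝ) (u : ℝ) (v w : VV M) :
    ⟪v, YY M B P u w⟫_ℂ = ((B⁻¹ : ℝ) : ℂ) *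
      ∑ p ∈ P, (starRingEnd ℂ) (DP M (ext0 v) (p + u)) * DP M (ext0 w) (p + u) := by
  unfold YY
  rw [ContinuousLinearMap.smul_apply, inner_smul_right,
    ContinuousLinearMap.sum_apply, inner_sum]
  simp only [XX_inner']

theorem YY_qf {M : ℕ} (B : ℝ) (P : Finset ℝ) (u : ℝ) (v : VV M) :
    qf (YY M B P u : Module.End ℂ (VV M)) v =
      B⁻¹ * ∑ p ∈ P, ‖DP M (ext0 v) (p + u)‖ ^ 2 := by
  unfold qf
  rw [ContinuousLinearMap.coe_coe, YY_inner, Complex.re_ofReal_mul, Complex.re_sum]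
  congr 1
  apply Finset.sum_congr rfl
  intro p _
  rw [Complex.conj_mul', ← Complex.ofReal_pow, Complex.ofReal_re]

theorem YY_fam {M : ℕ} (hM : 1 ≤ M) {B h L₀ : ℝ} (hB : 0 < B) (hh : 0 < h) (hL₀ : 0 ≤ L₀)
    (P : Finset ℝ)
    (hP : Sep P) (hx : ∃ x : ℝ, ∀ t ∈ P, x ≤ t ∧ t ≤ x + L₀)
    (hBM : (2 + Real.log M ^ 2) * (L₀ + 1 + 4 * M * (1 + Real.log M)) ≤ B) :
    Fam h (P.card / B * (1 + 4 * M * (1 + Real.log M) / h)) (YY M B P) := by
  classical
  have hM1 : (1:ℝ) ≤ M := by exact_mod_cast hM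
  have hL : 0 ≤ Real.log M := Real.log_nonneg hM1
  refine ⟨YY_cont M B P, ?_, ?_, ?_, ?_⟩
  · intro u v w
    rw [ContinuousLinearMap.coe_coe, YY_inner, YY_inner']
  · intro u v
    rw [YY_qf]
    have : 0 ≤ ∑ p ∈ P, ‖DP M (ext0 v) (p + u)‖ ^ 2 := sum_nonneg fun _ _ => by positivity
    positivity
  · intro u v
    rw [YY_qf, inv_mul_le_iff₀ hB]
    obtain ⟨x, hx⟩ := hx
    have hinj : Set.InjOn (fun t : ℝ => t + u) (P : Set ℝ) := by
      intro t _ t' _ h
      simpa using h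
    have h1 : ∑ p ∈ P, ‖DP M (ext0 v) (p + u)‖ ^ 2 =
        ∑ t ∈ P.image (fun t => t + u), ‖DP M (ext0 v) t‖ ^ 2 := by
      rw [sum_image hinj]
    rw [h1]
    have hsep : Sep (P.image (fun t => t + u)) := by
      intro t ht t' ht' htt
      rw [mem_image] at ht ht'
      obtain ⟨t, ht, rfl⟩ := ht
      obtain ⟨t', ht', rfl⟩ := ht'
      have h := hP t ht t' ht' (fun e => htt (by rw [e]))
      have e : t + u - (t' + u) = t - t' := by ring
      rw [e]
      exact h
    have h2 := block M hM (ext0 v) _ hsep (x + u) (x + u + L₀) (by linarith) (by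
      intro t ht
      rw [mem_image] at ht
      obtain ⟨t, ht, rfl⟩ := ht
      have := hx t ht
      constructor <;> linarith)
    rw [norm_ext0] at h2
    refine h2.trans ?_
    apply mul_le_mul_of_nonneg_right _ (by positivity)
    refine le_trans (le_of_eq ?_) hBM
    ring
  · intro v
    have hc := DP_cont M (ext0 v)
    simp_rw [YY_qf]
    rw [intervalIntegral.integral_const_mul, intervalIntegral.integral_finsetSum (by
      intro p _; apply Continuous.intervalIntegrable; fun_prop)]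
    have h1 : ∀ p ∈ P, ∫ u in (0:ℝ)..h, ‖DP M (ext0 v) (p + u)‖ ^ 2 ≤
        (h + 4 * M * (1 + Real.log M)) * ‖v‖ ^ 2 := by
      intro p _
      have e := intervalIntegral.integral_comp_add_left (a := 0) (b := h)
        (fun t => ‖DP M (ext0 v) t‖ ^ 2) p
      rw [e]
      have := mean_value M hM (ext0 v) (p + 0) (p + h) (by linarith)
      rw [norm_ext0] at this
      refine this.trans (le_of_eq ?_)
      ring
    have h2 := Finset.sum_le_sum h1
    rw [sum_const, nsmul_eq_mul] at h2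
    have h3 := mul_le_mul_of_nonneg_left h2 (inv_nonneg.2 hB.le)
    refine h3.trans (le_of_eq ?_)
    field_simp

end Pool.Agent.TH705.DL
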