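import Mathlib
import Pool.Agent.TH705.DL.Trans

set_option autoImplicit false

/-!
# Independent translations: the main theorem
-/

namespace Pool.Agent.TH705.DL

open Finset MeasureTheory Pool.Agent.TH705.AW
open scoped InnerProductSpace ENNReal

theorem qf_smul {V : Type*} [NormedAddCommGroup V] [InnerProductSpace ℂ V]
    (B : Module.End ℂ V) (c : ℂ) (v : V) : qf B (c • v) = ‖c‖ ^ 2 * qf B v := by
  unfold qf
  rw [map_smul, inner_smul_left, inner_smul_right, ← mul_assoc, Complex.conj_mul',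
    ← Complex.ofReal_pow, Complex.re_ofReal_mul]

/-- the vector of a coefficient sequence supported on `[N, 2N]` -/
noncomputable def vb (N : ℕ) (b : ℕ → ℂ) : VV (2 * N) :=
  WithLp.toLp 2 (fun n : Icc 1 (2 * N) => if N ≤ (n : ℕ) then b n else 0)

theorem ext0_vb (N : ℕ) (b : ℕ → ℂ) (n : ℕ) (hn : n ∈ Icc 1 (2 * N)) :
    ext0 (vb N b) n = if N ≤ n then b n else 0 := by
  unfold ext0
  rw [dif_pos hn]
  rfl

theorem Icc_filter (N : ℕ) (hN : 1 ≤ N) :
    (Icc 1 (2 * N)).filter (fun n => N ≤ n) = Icc N (2 * N) := by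
  ext n
  simp only [mem_filter, mem_Icc]
  omega

theorem DP_vb (N : ℕ) (hN : 1 ≤ N) (b : ℕ → ℂ) (t : ℝ) :
    DP (2 * N) (ext0 (vb N b)) t = ∑ n ∈ Icc N (2 * N), b n * ph t n := by
  unfold DP
  rw [← Icc_filter N hN, sum_filter]
  apply sum_congr rfl
  intro n hn
  rw [ext0_vb N b n hn]
  split_ifs <;> simp

theorem norm_vb (N : ℕ) (hN : 1 ≤ N) (b : ℕ → ℂ) :
    ‖vb N b‖ ^ 2 = ∑ n ∈ Icc N (2 * N), ‖b n‖ ^ 2 := by
  rw [← norm_ext0, ← Icc_filter N hN, sum_filter]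
  apply sum_congr rfl
  intro n hn
  rw [ext0_vb N b n hn]
  split_ifs <;> simp

/-- the numerical constants -/
theorem const_le {N : ℕ} (hN : 1 ≤ N) :
    (2 + Real.log ((2 * N : ℕ) : ℝ) ^ 2) *
      ((N : ℝ) + 1 + 4 * ((2 * N : ℕ) : ℝ) * (1 + Real.log ((2 * N : ℕ) : ℝ))) ≤
      54 * (1 + Real.log N) ^ 3 * N := by
  have hN1 : (1:ℝ) ≤ N := by exact_mod_cast hN
  have hl : 0 ≤ Real.log N := Real.log_nonneg hN1
  have h2 : Real.log 2 ≤ 1 := by
    have := Real.log_two_lt_d9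
    linarith
  have h20 : 0 ≤ Real.log 2 := Real.log_nonneg (by norm_num)
  have e : Real.log ((2 * N : ℕ) : ℝ) = Real.log 2 + Real.log N := by
    push_cast
    rw [Real.log_mul (by norm_num) (by positivity)]
  rw [e]
  push_cast
  set ℓ := Real.log N with hℓ
  set c := Real.log 2 with hc
  have hcl : c + ℓ ≤ 1 + ℓ := by linarith
  have h3 : (c + ℓ) ^ 2 ≤ (1 + ℓ) ^ 2 := by
    apply pow_le_pow_left₀ (by linarith) hcl
  have h4 : 2 + (c + ℓ) ^ 2 ≤ 3 * (1 + ℓ) ^ 2 := by nlinarith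
  have h5 : (N : ℝ) + 1 + 4 * (2 * N) * (1 + (c + ℓ)) ≤ 18 * N * (1 + ℓ) := by
    have h6 : 1 + (c + ℓ) ≤ 2 * (1 + ℓ) := by linarith
    have h7 : 4 * (2 * (N:ℝ)) * (1 + (c + ℓ)) ≤ 4 * (2 * N) * (2 * (1 + ℓ)) :=
      mul_le_mul_of_nonneg_left h6 (by positivity)
    nlinarith
  calc (2 + (c + ℓ) ^ 2) * ((N : ℝ) + 1 + 4 * (2 * N) * (1 + (c + ℓ)))
      ≤ (3 * (1 + ℓ) ^ 2) * (18 * N * (1 + ℓ)) := by
        apply mul_le_mul h4 h5 (by positivity) (by positivity)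
    _ = 54 * (1 + ℓ) ^ 3 * N := by ring

theorem trans_main {ι : Type*} [Fintype ι] (N : ℕ) (hN : 1 ≤ N) (P : ι → Finset ℝ)
    (hP : ∀ j, Sep (P j)) (hx : ∀ j, ∃ x : ℝ, ∀ t ∈ P j, x ≤ t ∧ t ≤ x + N)
    (h δ : ℝ) (hh : 0 < h) (hδ : 0 < δ) :
    ∃ E : Set (ι → ℝ), MeasurableSet E ∧
      volume E ≤ ENNReal.ofReal (δ * h ^ Fintype.card ι) ∧
      ∀ u : ι → ℝ, (∀ j, u j ∈ Set.Icc 0 h) → u ∉ E → ∀ b : ℕ → ℂ,
        ∑ j, ∑ t ∈ P j, ‖∑ n ∈ Icc N (2 * N), b n * ph (t + u j) n‖ ^ 2 ≤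
          54 * (1 + Real.log N) ^ 3 *
            ((∑ j, ((P j).card : ℝ)) * (1 + N / h) + N * Real.log (2 * N / δ)) *
            ∑ n ∈ Icc N (2 * N), ‖b n‖ ^ 2 := by
  classical
  have hN1 : (1:ℝ) ≤ N := by exact_mod_cast hN
  have hN0 : (0:ℝ) < N := by linarith
  have hl : 0 ≤ Real.log N := Real.log_nonneg hN1
  set ℓ := Real.log N with hℓ
  set B : ℝ := 54 * (1 + ℓ) ^ 3 * N with hB
  have hB0 : 0 < B := by positivity
  have he0 : 0 ≤ Real.exp 1 - 1 := by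
    have := Real.add_one_le_exp 1
    linarith
  have he : Real.exp 1 - 1 ≤ 2 := by
    have := Real.exp_one_lt_d9
    linarith
  set κ : ι → ℝ := fun j => (P j).card / B *
    (1 + 4 * ((2 * N : ℕ) : ℝ) * (1 + Real.log ((2 * N : ℕ) : ℝ)) / h) with hκ
  have hlM : 0 ≤ Real.log ((2 * N : ℕ) : ℝ) := Real.log_nonneg (by
    push_cast; linarith)
  have hκ0 : ∀ j, 0 ≤ κ j := fun j => by rw [hκ]; positivity
  have hfam : ∀ j, Fam h (κ j) (YY (2 * N) B (P j)) := fun j =>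
    YY_fam (by omega) hB0 hh hN0.le (P j) (hP j) (hx j) (const_le hN)
  set s : ℝ := (Real.exp 1 - 1) * ∑ j, κ j + Real.log (2 * N / δ) with hs
  have htail := tail hh.le κ hκ0 (fun j => YY (2 * N) B (P j)) hfam s
  set E₀ : Set (ι → ℝ) := {x : ι → ℝ | (∀ i, x i ∈ Set.Icc 0 h) ∧ ∃ v : VV (2 * N), ‖v‖ = 1 ∧
        s ≤ ∑ i, qf (YY (2 * N) B (P i) (x i) : Module.End ℂ (VV (2 * N))) v} with hE₀
  refine ⟨toMeasurable volume E₀, measurableSet_toMeasurable _ _, ?_, ?_⟩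
  · rw [measure_toMeasurable]
    refine htail.trans (le_of_eq ?_)
    congr 1
    have hfr : (Module.finrank ℂ (VV (2 * N)) : ℝ) = 2 * N := by
      rw [finrank_euclideanSpace, Fintype.card_coe, Nat.card_Icc]
      push_cast
      simp
    have hq : (0:ℝ) < 2 * N / δ := by positivity
    rw [hfr, hs, neg_add, Real.exp_add, Real.exp_neg (Real.log (2 * N / δ)), Real.exp_log hq,
      Real.exp_neg]
    have := Real.exp_pos ((Real.exp 1 - 1) * ∑ j, κ j)
    field_simp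
  · intro u hu huE b
    have huE₀ : u ∉ E₀ := fun hc => huE (subset_toMeasurable _ _ hc)
    have hall : ∀ v : VV (2 * N), ‖v‖ = 1 →
        ∑ i, qf (YY (2 * N) B (P i) (u i) : Module.End ℂ (VV (2 * N))) v ≤ s := by
      intro v hv
      by_contra hc
      exact huE₀ ⟨hu, v, hv, (not_le.1 hc).le⟩
    have hall' : ∀ v : VV (2 * N),
        ∑ i, qf (YY (2 * N) B (P i) (u i) : Module.End ℂ (VV (2 * N))) v ≤ s * ‖v‖ ^ 2 := by
      intro v
      by_cases hv : v = 0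
      · subst hv
        simp [qf]
      · have hv0 : ‖v‖ ≠ 0 := norm_ne_zero_iff.2 hv
        have hv1 : ‖((‖v‖⁻¹ : ℝ) : ℂ) • v‖ = 1 := by
          rw [norm_smul, Complex.norm_real, norm_inv, norm_norm, inv_mul_cancel₀ hv0]
        have h1 := hall _ hv1
        simp only [qf_smul] at h1
        rw [← Finset.mul_sum, Complex.norm_real, norm_inv, norm_norm, inv_pow,
          inv_mul_le_iff₀ (by positivity)] at h1
        linarith
    have h1 := hall' (vb N b)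
    simp only [YY_qf] at h1
    rw [← Finset.mul_sum, inv_mul_le_iff₀ hB0, norm_vb N hN] at h1
    simp only [DP_vb N hN] at h1
    refine h1.trans ?_
    rw [← mul_assoc]
    apply mul_le_mul_of_nonneg_right _ (sum_nonneg fun _ _ => by positivity)
    -- `B s ≤ ...`
    set R : ℝ := ∑ j, ((P j).card : ℝ) with hR
    have hR0 : 0 ≤ R := sum_nonneg fun _ _ => by positivity
    have h2 : ∑ j, κ j = R / B *
        (1 + 4 * ((2 * N : ℕ) : ℝ) * (1 + Real.log ((2 * N : ℕ) : ℝ)) / h) := by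
      rw [hκ, ← Finset.sum_mul, ← Finset.sum_div]
    have h3 : 1 + Real.log ((2 * N : ℕ) : ℝ) ≤ 2 * (1 + ℓ) := by
      have e : Real.log ((2 * N : ℕ) : ℝ) = Real.log 2 + ℓ := by
        push_cast
        rw [Real.log_mul (by norm_num) (by positivity)]
      have := Real.log_two_lt_d9
      rw [e]
      linarith
    have h4 : 1 + 4 * ((2 * N : ℕ) : ℝ) * (1 + Real.log ((2 * N : ℕ) : ℝ)) / h ≤
        27 * (1 + ℓ) ^ 3 * (1 + N / h) := by
      have h5 : 4 * ((2 * N : ℕ) : ℝ) * (1 + Real.log ((2 * N : ℕ) : ℝ)) / h ≤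
          16 * (1 + ℓ) * (N / h) := by
        rw [div_le_iff₀ hh]
        have e : 16 * (1 + ℓ) * (N / h) * h = 4 * ((2 * N : ℕ) : ℝ) * (2 * (1 + ℓ)) := by
          push_cast
          field_simp
          ring
        rw [e]
        exact mul_le_mul_of_nonneg_left h3 (by positivity)
      have h6 : (1:ℝ) ≤ (1 + ℓ) ^ 2 := one_le_pow₀ (by linarith)
      have h7 : 1 + ℓ ≤ (1 + ℓ) ^ 3 := by nlinarith
      have h8 : (0:ℝ) ≤ N / h := by positivity
      nlinarith [mul_le_mul_of_nonneg_right h7 h8]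
    have h9 : B * ((Real.exp 1 - 1) * ∑ j, κ j) ≤ 54 * (1 + ℓ) ^ 3 * (R * (1 + N / h)) := by
      rw [h2]
      have e : B * ((Real.exp 1 - 1) * (R / B *
        (1 + 4 * ((2 * N : ℕ) : ℝ) * (1 + Real.log ((2 * N : ℕ) : ℝ)) / h))) =
        R * ((Real.exp 1 - 1) *
        (1 + 4 * ((2 * N : ℕ) : ℝ) * (1 + Real.log ((2 * N : ℕ) : ℝ)) / h)) := by
        field_simp
      rw [e]
      have e2 : 54 * (1 + ℓ) ^ 3 * (R * (1 + N / h)) =
        R * (2 * (27 * (1 + ℓ) ^ 3 * (1 + N / h))) := by ring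
      rw [e2]
      apply mul_le_mul_of_nonneg_left _ hR0
      exact mul_le_mul he h4 (by positivity) (by norm_num)
    calc B * s = B * ((Real.exp 1 - 1) * ∑ j, κ j) + B * Real.log (2 * N / δ) := by
          rw [hs]; ring
      _ ≤ 54 * (1 + ℓ) ^ 3 * (R * (1 + N / h)) + B * Real.log (2 * N / δ) := by linarith
      _ = 54 * (1 + ℓ) ^ 3 * (R * (1 + N / h) + N * Real.log (2 * N / δ)) := by
          rw [hB]; ring

end Pool.Agent.TH705.DL
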